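import Pool.Agent.W66.XA

set_option autoImplicit false

/-!
# Decorrelation for genuine primes (rough parameter one)
-/

open Filter Topology Set MeasureTheory Metric
open scoped Real

namespace Pool.Agent.L5helper55.AL

open Pool.Agent.W66
open Pool.Agent.H305R2 (ff NN roughPart SM SMz VV ZZ measurable_ff ff_nonneg ff_le_one LL)

/-- the smoothed indicator of the primes is nearly constant in mean, with error `O(1 / Y ^ 2)` -/
theorem cv1_L1 : ∃ cc K : ℝ, 0 < cc ∧ 0 < K ∧ ∃ Y0 : ℝ, 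
    ∀ Y : ℝ, Y0 ≤ Y → (hs cc Y ≤ 1 / Y ^ 2 ∧ 8 ≤ Y ∧ 32 * cc + 1 ≤ Real.log Y) ∧ ∃ μ : ℝ,
      ∀ Y' : ℝ, Y ≤ Y' → Y' ≤ Y + 1 →
      ∫ y in Y'..(Y' + 1), |cv 1 (hs cc Y) y - μ| ≤ K * (1 / Y ^ 2) := by
  obtain ⟨c0, Z0, hc0, hZ0, hKT⟩ := KT 6
  obtain ⟨C, hC, hRA⟩ := RA_L1
  set cc := c0 / 4 with hcc
  have hcc0 : 0 < cc := by positivity
  have hZZ0 : 0 ≤ ZZ 1 := Pool.Agent.H305R2.ZZ_nonneg 1
  obtain ⟨Y1, hY1⟩ := (ev_Y cc C hcc0 hC).exists_forall_of_atTop
  obtain ⟨Y2, hY2⟩ := (ev_Y cc (10 * ZZ 1 + 1) hcc0 (by positivity)).exists_forall_of_atTop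
  have hVV0 : 0 ≤ VV 1 := Pool.Agent.H305R2.VV_nonneg 1
  refine ⟨cc, 2 + 12 * VV 1, hcc0, by positivity, max (max Y1 Y2) (2 * Z0), fun Y hY => ?_⟩
  obtain ⟨a1, a2, a3, a4, a5, a6⟩ := hY1 Y (((le_max_left _ _).trans (le_max_left _ _)).trans hY)
  obtain ⟨_, _, _, _, a7, _⟩ := hY2 Y (((le_max_right _ _).trans (le_max_left _ _)).trans hY)
  have hY0 : 0 < Y := by linarith
  have hlogY : 0 < Real.log Y := by linarith
  have hZ0Y : 2 * Z0 ≤ Y := (le_max_right _ _).trans hY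
  set lam := cc * Y / Real.log Y with hlam
  set h := hs cc Y with hh
  have hhe : h = Real.exp (-lam) := rfl
  have hh0 : 0 < h := hs_pos _ _
  have hlam1 : √(Y + 2) ≤ lam := a1
  have hlam1' : √Y ≤ lam := le_trans (Real.sqrt_le_sqrt (by linarith)) hlam1
  have hlam0 : 0 ≤ lam := (Real.sqrt_nonneg _).trans hlam1
  have hlam32 : lam ≤ Y / 32 := by
    rw [hlam, div_le_iff₀ hlogY]
    calc cc * Y = Y / 32 * (32 * cc) := by ring
      _ ≤ Y / 32 * Real.log Y := by gcongr; linarith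
  have hhY : h ≤ 1 / Y ^ 2 := by
    rw [hhe]
    exact (Real.exp_le_exp.2 (by linarith)).trans a3
  have hh1 : h ≤ 1 := by rw [hhe]; exact Real.exp_le_one_iff.2 (by linarith)
  refine ⟨⟨hhY, a6, a2⟩, Pool.Agent.W66.mt 1 (Real.exp (Y / 2)) Y, fun Y' hY'1 hY'2 => ?_⟩
  set S := Real.exp (Y / 2) with hS
  have hlS : Real.log S = Y / 2 := Real.log_exp _
  have hS1 : 1 ≤ S := Real.one_le_exp (by linarith)
  set N := ⌈Real.exp (Y' + 3)⌉₊ with hN
  have hN1 : Real.exp (Y' + 3) ≤ N := Nat.le_ceil _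
  have hSN : S ≤ N := le_trans (Real.exp_le_exp.2 (by linarith)) hN1
  -- the mean square bound
  have hTT : ∀ Z : ℝ, Y' - Real.log S ≤ Z → Z ≤ Y' → ∀ N' : ℕ, Real.exp (Z + 2) ≤ N' →
      ∫ z in Z..(Z + 1), (TT h N' z - 1) ^ 2 ≤ (8 / Y ^ 3) ^ 2 := by
    intro Z hZ1 hZ2 N' hN'
    rw [hlS] at hZ1
    have hZY : Y / 2 ≤ Z := by linarith
    have hZpos : 0 < Z := by linarith
    have h1 := hKT Z lam h (by linarith) hhe
      (le_trans (Real.sqrt_le_sqrt (by linarith)) hlam1) (by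
        have h2 : Real.log Z ≤ 2 * Real.log Y := by
          rw [← Real.log_rpow hY0]
          apply Real.log_le_log hZpos
          norm_num
          nlinarith
        calc lam * Real.log Z ≤ lam * (2 * Real.log Y) := by gcongr
          _ = c0 / 2 * Y := by rw [hlam, hcc]; field_simp; ring
          _ ≤ c0 * Z := by nlinarith) N' hN'
    refine h1.trans ?_
    have e : (8 / Y ^ 3) ^ 2 = 1 / (Y / 2) ^ 6 := by field_simp; norm_num
    rw [e]
    apply one_div_le_one_div_of_le (by positivity)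
    exact pow_le_pow_left₀ (by linarith) hZY 6
  have hA := hRA 1 h S Y' N hh0 hh1 hS1 (by rw [hlS]; linarith) hN1 (8 / Y ^ 3) (by positivity) hTT
  have hB := RB_L1 1 hh0 hh1 (S := S) (by linarith) N Y'
  have hvar : ∀ y, Y' ≤ y → y ≤ Y' + 1 → |Pool.Agent.W66.mt 1 S y - Pool.Agent.W66.mt 1 S Y| ≤
      VV 1 * (2 / (Y - Real.log S) ^ 2) := fun y h1 h2 =>
    mt_var 1 hS1 (by rw [hlS]; linarith) (by linarith) (by linarith)
  have hcvRS : ∀ y, Y' ≤ y → y ≤ Y' + 1 → |cv 1 h y - RS 1 h N y| ≤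
      32 * Real.exp (-Y) / h ^ 2 := by
    intro y h1 h2
    refine (cv_approx 1 hh0 hh1 (by linarith) N (le_trans (Real.exp_le_exp.2 (by linarith))
      hN1)).trans ?_
    have : Real.exp (-y) ≤ Real.exp (-Y) := Real.exp_le_exp.2 (by linarith)
    gcongr
  -- integrate
  have hmtc : ContinuousOn (fun y => |RA 1 h S N y - Pool.Agent.W66.mt 1 S y|) (Set.uIcc Y' (Y' + 1)) := by
    apply ContinuousOn.abs
    apply (RA_continuous 1 h S N).continuousOn.sub
    unfold Pool.Agent.W66.mt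
    apply continuousOn_finsetSum
    intro s hs
    have hs1 := (Pool.Agent.H305R2.mem_SMz (by linarith)).1 hs
    have hs0 : (0 : ℝ) < s := by exact_mod_cast Pool.Agent.H305R2.SM_pos hs1.1
    have h2 : Real.log s ≤ Real.log S := Real.log_le_log hs0 hs1.2
    rw [hlS] at h2
    apply ContinuousOn.div continuousOn_const (by fun_prop)
    intro y hy
    rw [Set.uIcc_of_le (by linarith)] at hy
    have : 0 < y - Real.log s := by linarith [hy.1]
    positivity
  have hint : ∫ y in Y'..(Y' + 1), |cv 1 h y - Pool.Agent.W66.mt 1 S Y| ≤ ∫ y in Y'..(Y' + 1),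
      ((32 * Real.exp (-Y) / h ^ 2 + VV 1 * (2 / (Y - Real.log S) ^ 2)) +
        (|RA 1 h S N y - Pool.Agent.W66.mt 1 S y| + RB 1 h S N y)) := by
    apply intervalIntegral.integral_mono_on (by linarith)
    · exact ((cv_continuous 1 hh0).sub continuous_const).abs.intervalIntegrable _ _
    · apply ContinuousOn.intervalIntegrable
      exact continuousOn_const.add (hmtc.add (RB_continuous 1 h S N).continuousOn)
    · intro y hy
      have h1 := hcvRS y hy.1 hy.2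
      have h2 := hvar y hy.1 hy.2
      rw [RS_split 1 hh0 hh1 N hS1 hSN (by rw [hlS, Nat.cast_one, Real.log_one]; linarith [hy.1])] at h1
      have h3 : cv 1 h y - Pool.Agent.W66.mt 1 S Y = (cv 1 h y - (RA 1 h S N y + RB 1 h S N y)) +
        (RA 1 h S N y - Pool.Agent.W66.mt 1 S y) + RB 1 h S N y + (Pool.Agent.W66.mt 1 S y - Pool.Agent.W66.mt 1 S Y) := by ring
      have h4 := RB_nonneg 1 hh0 S N y
      rw [h3]
      refine (abs_add_le _ _).trans ?_
      have h5 := abs_add_le ((cv 1 h y - (RA 1 h S N y + RB 1 h S N y)) +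
        (RA 1 h S N y - Pool.Agent.W66.mt 1 S y)) (RB 1 h S N y)
      have h6 := abs_add_le (cv 1 h y - (RA 1 h S N y + RB 1 h S N y)) (RA 1 h S N y - Pool.Agent.W66.mt 1 S y)
      rw [abs_of_nonneg h4] at h5
      linarith
  refine hint.trans ?_
  rw [intervalIntegral.integral_add intervalIntegrable_const (by
      apply ContinuousOn.intervalIntegrable
      exact hmtc.add (RB_continuous 1 h S N).continuousOn),
    intervalIntegral.integral_add hmtc.intervalIntegrable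
      ((RB_continuous 1 h S N).intervalIntegrable _ _), intervalIntegral.integral_const, smul_eq_mul]
  -- numerical bounds
  have n1 : 32 * Real.exp (-Y) / h ^ 2 ≤ 1 / Y ^ 2 := by
    refine le_trans ?_ a4
    rw [hhe, ← Real.exp_nat_mul, mul_div_assoc, ← Real.exp_sub]
    apply mul_le_mul_of_nonneg_left _ (by norm_num)
    apply Real.exp_le_exp.2
    push_cast
    linarith
  have n2 : 2 / (Y - Real.log S) ^ 2 = 8 / Y ^ 2 := by
    rw [hlS]
    field_simp
    norm_num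
  have n3 : h * (1 + 32 * Real.exp (-(Y' - Real.log S)) / h ^ 2) +
      C / h * Real.exp (-((Y' - Real.log S) / 2)) + 8 / Y ^ 3 ≤ 4 / Y ^ 2 := by
    rw [hlS]
    have e1 : h * (1 + 32 * Real.exp (-(Y' - Y / 2)) / h ^ 2) =
        h + 32 * (Real.exp (-(Y' - Y / 2)) / h) := by field_simp
    rw [e1]
    have m1 : 32 * (Real.exp (-(Y' - Y / 2)) / h) ≤ 1 / Y ^ 2 := by
      refine le_trans ?_ a4
      rw [hhe, ← Real.exp_sub]
      apply mul_le_mul_of_nonneg_left _ (by norm_num)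
      apply Real.exp_le_exp.2
      linarith
    have m2 : C / h * Real.exp (-((Y' - Y / 2) / 2)) ≤ 1 / Y ^ 2 := by
      refine le_trans ?_ a5
      have : C / h * Real.exp (-((Y' - Y / 2) / 2)) = C * (Real.exp (-((Y' - Y / 2) / 2)) / h) := by
        ring
      rw [this, hhe, ← Real.exp_sub]
      apply mul_le_mul_of_nonneg_left _ hC.le
      apply Real.exp_le_exp.2
      linarith
    have m3 : 8 / Y ^ 3 ≤ 1 / Y ^ 2 := by
      rw [div_le_div_iff₀ (by positivity) (by positivity), one_mul, pow_succ Y 2, mul_comm]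
      exact mul_le_mul_of_nonneg_left a6 (by positivity)
    have e2 : 4 / Y ^ 2 = 1 / Y ^ 2 + 1 / Y ^ 2 + 1 / Y ^ 2 + 1 / Y ^ 2 := by ring
    rw [e2]
    linarith
  have n4 : 10 * (S ^ (-(1 / 2) : ℝ) * ZZ 1) ≤ 1 / Y ^ 2 := by
    refine le_trans ?_ a7
    have e : S ^ (-(1 / 2) : ℝ) = Real.exp (-(Y / 4)) := by
      rw [hS, ← Real.exp_mul]
      congr 1
      ring
    rw [e]
    have e3 : Real.exp (-(Y / 4)) ≤ Real.exp (-(Y / 8)) := Real.exp_le_exp.2 (by linarith)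
    have e4 := Real.exp_pos (-(Y / 4))
    have e5 := Real.exp_pos (-(Y / 8))
    nlinarith [mul_le_mul_of_nonneg_left e3 hZZ0]
  rw [n2]
  have hA2 : ∫ y in Y'..(Y' + 1), |RA 1 h S N y - Pool.Agent.W66.mt 1 S y| ≤ VV 1 * (4 / Y ^ 2) :=
    hA.trans (mul_le_mul_of_nonneg_left n3 hVV0)
  have e3 : (Y' + 1 - Y') * (32 * Real.exp (-Y) / h ^ 2 + VV 1 * (8 / Y ^ 2)) =
      32 * Real.exp (-Y) / h ^ 2 + VV 1 * (8 / Y ^ 2) := by ring
  rw [e3]
  have e4 : (2 + 12 * VV 1) * (1 / Y ^ 2) = 1 / Y ^ 2 + VV 1 * (8 / Y ^ 2) + (VV 1 * (4 / Y ^ 2) + 1 / Y ^ 2) := by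
    ring
  rw [e4]
  linarith

/-- decorrelation of the indicator of the primes and slowly varying functions -/
theorem far1_abs : ∃ κ K : ℝ, 0 < κ ∧ 0 < K ∧ ∃ Y0 : ℝ,
    ∀ (φ0 : ℝ → ℝ) (Y M : ℝ), Measurable φ0 → (∀ x, |φ0 x| ≤ 1) → Y0 ≤ Y →
      M ≤ κ * Y / Real.log Y →
      (∀ h : ℝ, 0 ≤ h → h ≤ 1 → ∀ v : ℝ, |v| ≤ h →
        ∫ u in Y..(Y + 1), |φ0 (u + v) - φ0 u| ≤ h * Real.exp M + 4 * h) →
      |∫ u in Y..(Y + 1), φ0 u * Pool.Agent.H305R2.gg 1 u| ≤ K * (1 / Y ^ 2) := by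
  obtain ⟨cc, K, hcc, hK, Y3, hP⟩ := cv1_L1
  obtain ⟨Y1, hY1⟩ := (ev_Y (cc / 2) 1 (by positivity) one_pos).exists_forall_of_atTop
  refine ⟨cc / 2, 2 * (K + 7), by positivity, by positivity, max Y3 Y1,
    fun φ0 Y M hφ0m hφ01 hYq hM hmod => ?_⟩
  obtain ⟨⟨a1, a2, a3⟩, μ, hμ⟩ := hP Y ((le_max_left _ _).trans hYq)
  obtain ⟨d1, d2, d3, d4, d5, d6⟩ := hY1 Y ((le_max_right _ _).trans hYq)
  have hY0 : 0 < Y := by linarith
  set h := hs cc Y with hh
  have hh0 : 0 < h := hs_pos _ _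
  have hY2 : 0 < 1 / Y ^ 2 := by positivity
  have hh1 : h ≤ 1 := a1.trans (by
    rw [div_le_one (by positivity)]
    nlinarith)
  -- the bound for one window
  have key : ∀ w : ℝ, 0 ≤ w → w ≤ 1 → |∫ u in (Y + w)..(Y + w + 1), φ0 (u - w) * (ff 1 u - μ)| ≤
      (K + 7) * (1 / Y ^ 2) := by
    intro w hw0 hw1
    have hφ : Measurable fun u => φ0 (u - w) := hφ0m.comp (by fun_prop)
    have h1 := smoothing 1 hh0 (fun u => φ0 (u - w)) hφ
      (fun x => hφ01 _) (Y + w) μ (h * Real.exp M + 4 * h) (by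
        intro v hv
        have h2 := hmod h hh0.le hh1 v hv
        have h3 := intervalIntegral.integral_comp_sub_right (a := Y + w) (b := Y + w + 1)
          (fun u => |φ0 (u + v) - φ0 u|) w
        have e1 : Y + w - w = Y := by ring
        have e2 : Y + w + 1 - w = Y + 1 := by ring
        rw [e1, e2] at h3
        rw [← h3] at h2
        have e3 : ∀ u : ℝ, u - w + v = u + v - w := fun u => by ring
        simp only [e3] at h2
        exact h2) (cv_continuous 1 hh0)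
    refine h1.trans ?_
    have h2 := hμ (Y + w) (by linarith) (by linarith)
    have h3 : h * Real.exp M ≤ 1 / Y ^ 2 := by
      rw [hh]
      unfold hs
      rw [← Real.exp_add]
      refine le_trans (Real.exp_le_exp.2 ?_) d3
      have e2 : √Y ≤ cc / 2 * Y / Real.log Y := le_trans (Real.sqrt_le_sqrt (by linarith)) d1
      have e3 : cc * Y / Real.log Y = 2 * (cc / 2 * Y / Real.log Y) := by ring
      rw [e3]
      linarith
    linarith
  rw [gg_split 1 φ0 hφ0m hφ01 Y μ]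
  have k0 := key 0 le_rfl zero_le_one
  simp only [add_zero, sub_zero] at k0
  have k1 : |∫ w in (0 : ℝ)..1, ∫ u in (Y + w)..(Y + w + 1), φ0 (u - w) * (ff 1 u - μ)| ≤
      (K + 7) * (1 / Y ^ 2) := by
    have := intervalIntegral.norm_integral_le_of_norm_le_const (a := (0 : ℝ)) (b := 1)
      (f := fun w => ∫ u in (Y + w)..(Y + w + 1), φ0 (u - w) * (ff 1 u - μ))
      (C := (K + 7) * (1 / Y ^ 2)) (fun w hw => by
        rw [Set.uIoc_of_le zero_le_one] at hw
        rw [Real.norm_eq_abs]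
        exact key w hw.1.le hw.2)
    rw [Real.norm_eq_abs] at this
    simpa using this
  refine (abs_sub _ _).trans ?_
  linarith

/-- decorrelation of the indicators of the primes at `u` and at `w u` -/
theorem far1_w : ∃ κ K : ℝ, 0 < κ ∧ 0 < K ∧ ∃ Y0 : ℝ,
    ∀ (w : ℝ → ℝ) (Y : ℝ), Measurable w → Y0 ≤ Y →
      MonotoneOn w (Set.Icc (Y - 1) (Y + 2)) →
      (∀ a ∈ Set.Icc (Y - 1) (Y + 2), ∀ b ∈ Set.Icc (Y - 1) (Y + 2), |w a - w b| ≤ 2 * |a - b|) →
      w (Y + 2) ≤ κ * Y / Real.log Y →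
      |∫ u in Y..(Y + 1), Pool.Agent.H305R2.gg 1 (w u) * Pool.Agent.H305R2.gg 1 u| ≤
        K * (1 / Y ^ 2) := by
  obtain ⟨κ, K, hκ, hK, Y0, hP⟩ := far1_abs
  refine ⟨κ, K, hκ, hK, Y0, fun w Y hw hY hmono hlip hM => ?_⟩
  refine hP (fun u => Pool.Agent.H305R2.gg 1 (w u)) Y (w (Y + 2))
    ((Pool.Agent.H305R2.measurable_gg 1).comp hw) (fun x => Pool.Agent.H305R2.abs_gg_le_one 1 _)
    hY hM (fun h hh hh1 v hv => ?_)
  refine (gg_modulus_w 1 hw (by norm_num) hmono hlip hh hh1 hv).trans (le_of_eq ?_)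
  ring

end Pool.Agent.L5helper55.AL
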