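import Pool.Agent.L5helper55.AL.A
import Pool.Agent.TH888.R.RR
import Pool.Agent.H305R2.Mean
import Pool.Agent.Helper601.BT

set_option autoImplicit false

/-!
# Short interval bounds for genuine primes (rough parameter one)
-/

open Filter Topology Set MeasureTheory Metric

namespace Pool.Agent.L5helper55.AL

open Pool.Agent.H305R2 (ff gg NN roughPart measurable_ff ff_nonneg ff_le_one LL LL_eq FF FF_sub
  window_upper window_lower integrableOn_ff integrableOn_LL integrableOn_gg abs_gg_le integral_ff_le RR pr
  LL_nonneg)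

lemma rp1 {m : ℕ} (hm : 1 ≤ m) : roughPart 1 m = m := by
  unfold roughPart
  rw [List.filter_eq_self.2, Nat.prod_primeFactorsList (by omega)]
  intro r hr
  simpa using (Nat.prime_of_mem_primeFactorsList hr).one_lt

lemma rp1_prime (m : ℕ) : (roughPart 1 m).Prime ↔ m.Prime := by
  rcases Nat.eq_zero_or_pos m with h | h
  · subst h
    unfold roughPart
    simp [Nat.not_prime_zero, Nat.not_prime_one]
  · rw [rp1 h]

/-- primes in short intervals -/
theorem short1 : ∃ K : ℝ, 0 < K ∧ ∀ u h : ℝ, 0 < h → h ≤ 1 → 2 ≤ u + Real.log h →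
    ∫ t in Set.Ioc u (u + h), ff 1 t ≤ K * h * (1 / (u + Real.log h)) := by
  obtain ⟨C0, hC01, hBT⟩ := Pool.Agent.Helper601.brun_titchmarsh
  refine ⟨6 * C0, by linarith, fun u h hh hh1 hH => ?_⟩
  set H := u + Real.log h with hHdef
  have hlogh : Real.log h ≤ 0 := Real.log_nonpos hh.le hh1
  have hH0 : 0 < H := by linarith
  have hu : H ≤ u := by linarith
  have hu0 : 0 < u := by linarith
  set X := Real.exp u with hX
  have hX0 : 0 < X := Real.exp_pos _
  have hX1 : 1 ≤ X := Real.one_le_exp hu0.le
  have hhX : h * X = Real.exp H := by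
    rw [hHdef, Real.exp_add, Real.exp_log hh, mul_comm]
  have hhX2 : 3 ≤ h * X := by
    rw [hhX]
    have := Real.add_one_le_exp H
    linarith
  set A := ⌊X⌋₊ with hA
  set B := ⌊Real.exp (u + h)⌋₊ with hB
  have hYe : Real.exp (u + h) = X * Real.exp h := by rw [Real.exp_add]
  have hA1 : 1 ≤ A := Nat.floor_pos.2 hX1
  have hAle : (A : ℝ) ≤ X := Nat.floor_le hX0.le
  have hAgt : X < A + 1 := Nat.lt_floor_add_one X
  have hA1' : (1 : ℝ) ≤ A := by exact_mod_cast hA1
  have hAhalf : X / 2 ≤ A := by linarith
  have hBle : (B : ℝ) ≤ X * Real.exp h := by rw [← hYe]; exact Nat.floor_le (Real.exp_pos _).le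
  have hBgt : X * Real.exp h < B + 1 := by rw [← hYe]; exact Nat.lt_floor_add_one _
  have hAB : A ≤ B := Nat.floor_mono (Real.exp_le_exp.2 (by linarith))
  have heh1 : 1 + h ≤ Real.exp h := by have := Real.add_one_le_exp h; linarith
  have heh2 : Real.exp h ≤ 1 + 2 * h := by
    have h1 := Real.abs_exp_sub_one_sub_id_le (x := h) (by rw [abs_of_pos hh]; exact hh1)
    have h2 := (abs_le.1 h1).2
    nlinarith
  obtain ⟨N, hN⟩ : ∃ N : ℕ, N = B - A + 1 := ⟨_, rfl⟩
  have hDcast : (N : ℝ) = B - A + 1 := by
    rw [hN]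
    push_cast [Nat.cast_sub hAB]
    ring
  have hDup : (N : ℝ) ≤ 3 * (h * X) := by
    rw [hDcast]
    have : X * Real.exp h ≤ X * (1 + 2 * h) := mul_le_mul_of_nonneg_left heh2 hX0.le
    linarith
  have hDlow : h * X ≤ (N : ℝ) := by
    rw [hDcast]
    have : X * (1 + h) ≤ X * Real.exp h := mul_le_mul_of_nonneg_left heh1 hX0.le
    linarith
  have hN3 : (3 : ℝ) ≤ N := by linarith
  have hN2 : 2 ≤ N := by
    have : 3 ≤ N := by exact_mod_cast hN3
    omega
  -- step 1
  have hstep1 : ∫ t in Set.Ioc u (u + h), ff 1 t ≤ 1 / (A : ℝ) *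
      (((Finset.Icc A B).filter (fun m => (roughPart 1 m).Prime)).card : ℝ) := by
    refine (window_upper hu0.le).trans ?_
    rw [← hX, ← hA, ← hB, ← nsmul_one (Finset.card _), ← Finset.sum_const, Finset.mul_sum]
    refine Finset.sum_le_sum fun m hm => ?_
    rw [Finset.mem_filter, Finset.mem_Icc] at hm
    rw [mul_one]
    refine one_div_le_one_div_of_le (by linarith) ?_
    exact_mod_cast hm.1.1
  have hcard : (((Finset.Icc A B).filter (fun m => (roughPart 1 m).Prime)).card : ℝ) ≤
      C0 * N / Real.log N := by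
    refine le_trans ?_ (hBT A 1 N hN2 (Or.inl rfl))
    have hsub : (Finset.Icc A B).filter (fun m => (roughPart 1 m).Prime) ⊆
        ((Finset.range N).filter (fun k => (A + k * 1).Prime)).image (fun k => A + k) := by
      intro m hm
      rw [Finset.mem_filter, Finset.mem_Icc, rp1_prime] at hm
      rw [Finset.mem_image]
      refine ⟨m - A, ?_, by omega⟩
      rw [Finset.mem_filter, Finset.mem_range]
      refine ⟨by omega, ?_⟩
      have : A + (m - A) * 1 = m := by omega
      rw [this]
      exact hm.2
    have := (Finset.card_le_card hsub).trans Finset.card_image_le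
    exact_mod_cast this
  have hlogN : H ≤ Real.log N := by
    rw [Real.le_log_iff_exp_le (by linarith), ← hhX]
    exact hDlow
  refine hstep1.trans ?_
  have e1 : C0 * N / Real.log N ≤ C0 * (3 * (h * X)) / H := by
    have hC0 : 0 ≤ C0 := by linarith
    gcongr
  have e2 : 1 / (A : ℝ) ≤ 2 / X := by
    rw [div_le_div_iff₀ (by linarith) hX0]
    linarith
  calc 1 / (A : ℝ) * (((Finset.Icc A B).filter (fun m => (roughPart 1 m).Prime)).card : ℝ) ≤
      2 / X * (C0 * (3 * (h * X)) / H) := by
        refine mul_le_mul e2 (hcard.trans e1) (Nat.cast_nonneg _) (by positivity)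
    _ = 6 * C0 * h * (1 / H) := by field_simp; ring

/-- the package of bounds -/
theorem bounds1 : ∃ K : ℝ, 0 < K ∧ 
    (∀ y : ℝ, 4 ≤ y → LL 1 y ≤ K * (1 / y)) ∧
    (∀ u v : ℝ, 8 ≤ u → u ≤ v → ∫ t in Set.Ioc u v, ff 1 t ≤ K * ((v - u) + 1 / u) * (1 / u)) ∧
    (∀ u v : ℝ, 8 ≤ u → u ≤ v → ∫ t in Set.Ioc u v, |gg 1 t| ≤ K * ((v - u) + 1 / u) * (1 / u)) := by
  obtain ⟨K, hK, hs⟩ := short1
  have hLL : ∀ y : ℝ, 4 ≤ y → LL 1 y ≤ K * (1 / y) := by
    intro y hy
    have := hs y 1 one_pos le_rfl (by rw [Real.log_one]; linarith)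
    rw [Real.log_one, add_zero, mul_one] at this
    exact this
  have hff : ∀ u v : ℝ, 8 ≤ u → u ≤ v →
      ∫ t in Set.Ioc u v, ff 1 t ≤ 4 * K * ((v - u) + 1 / u) * (1 / u) := by
    intro u v hu huv
    have hu0 : 0 < u := by linarith
    have h1u : 0 < 1 / u := by positivity
    have h1u1 : 1 / u ≤ 1 := by rw [div_le_one hu0]; linarith
    rcases le_total (v - u) 1 with h | h
    · set d := max (v - u) (1 / u) with hd
      have hd0 : 0 < d := lt_of_lt_of_le h1u (le_max_right _ _)
      have hd1 : d ≤ 1 := max_le h h1u1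
      have hlog : Real.log u ≤ u / 2 := by
        have h1 := Real.log_le_sub_one_of_pos (show 0 < u / 2 by positivity)
        have h2 : Real.log u = Real.log (u / 2) + Real.log 2 := by
          rw [← Real.log_mul (by positivity) (by norm_num)]; congr 1; ring
        have := Real.log_two_lt_d9
        linarith
      have hld : - Real.log u ≤ Real.log d := by
        rw [← Real.log_inv, ← one_div]
        exact Real.log_le_log h1u (le_max_right _ _)
      have h2 := hs u d hd0 hd1 (by linarith)
      have h3 : ∫ t in Set.Ioc u v, ff 1 t ≤ ∫ t in Set.Ioc u (u + d), ff 1 t := by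
        refine setIntegral_mono_set (integrableOn_ff 1 _ _) ?_ ?_
        · exact Eventually.of_forall fun t => ff_nonneg 1 t
        · refine (Set.Ioc_subset_Ioc_right ?_).eventuallyLE
          have := le_max_left (v - u) (1 / u)
          linarith
      have h4 : d ≤ (v - u) + 1 / u := max_le (by linarith) (by linarith)
      have h5 : 1 / (u + Real.log d) ≤ 2 * (1 / u) := by
        have : 2 * (1 / u) = 1 / (u / 2) := by field_simp
        rw [this]
        exact one_div_le_one_div_of_le (by positivity) (by linarith)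
      have h6 : 0 ≤ (v - u) + 1 / u := by linarith
      calc ∫ t in Set.Ioc u v, ff 1 t ≤ K * d * (1 / (u + Real.log d)) := h3.trans h2
        _ ≤ K * ((v - u) + 1 / u) * (2 * (1 / u)) := by
            refine mul_le_mul (mul_le_mul_of_nonneg_left h4 hK.le) h5 ?_ (by positivity)
            have : 0 < u + Real.log d := by linarith
            positivity
        _ ≤ 4 * K * ((v - u) + 1 / u) * (1 / u) := by
            have : 0 ≤ K * ((v - u) + 1 / u) * (1 / u) := by positivity
            linarith
    · have h2 := integral_ff_le 1 huv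
      have h3 : ∫ t in Set.Ioc (u - 1) v, LL 1 t ≤ ∫ t in Set.Ioc (u - 1) v, K * (2 * (1 / u)) := by
        refine setIntegral_mono_on (integrableOn_LL 1 _ _) (integrableOn_const (by simp)) measurableSet_Ioc
          fun t ht => (hLL t (by linarith [ht.1])).trans ?_
        refine mul_le_mul_of_nonneg_left ?_ hK.le
        have : 2 * (1 / u) = 1 / (u / 2) := by field_simp
        rw [this]
        exact one_div_le_one_div_of_le (by positivity) (by linarith [ht.1])
      rw [setIntegral_const, smul_eq_mul, Real.volume_real_Ioc_of_le (by linarith)] at h3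
      have h4 : 0 < K * (1 / u) := by positivity
      calc ∫ t in Set.Ioc u v, ff 1 t ≤ (v - (u - 1)) * (K * (2 * (1 / u))) := h2.trans h3
        _ ≤ (2 * ((v - u) + 1 / u)) * (K * (2 * (1 / u))) := by
            refine mul_le_mul_of_nonneg_right ?_ (by positivity)
            linarith
        _ = _ := by ring
  refine ⟨6 * K, by positivity, ?_, ?_, ?_⟩
  · intro y hy
    refine (hLL y hy).trans ?_
    have : 0 < K * (1 / y) := by
      have : 0 < y := by linarith
      positivity
    linarith
  · intro u v hu huv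
    refine (hff u v hu huv).trans ?_
    have : 0 ≤ K * ((v - u) + 1 / u) * (1 / u) := by
      have : 0 ≤ v - u := by linarith
      have : 0 < u := by linarith
      positivity
    linarith
  · intro u v hu huv
    have hu0 : 0 < u := by linarith
    have hint : IntegrableOn (fun t => |gg 1 t|) (Set.Ioc u v) := (integrableOn_gg 1 u v).abs
    calc ∫ t in Set.Ioc u v, |gg 1 t| ≤ ∫ t in Set.Ioc u v, (ff 1 t + LL 1 t) := by
          refine setIntegral_mono_on hint ((integrableOn_ff 1 u v).add (integrableOn_LL 1 u v))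
            measurableSet_Ioc fun t _ => abs_gg_le 1 t
      _ = (∫ t in Set.Ioc u v, ff 1 t) + ∫ t in Set.Ioc u v, LL 1 t :=
          integral_add (integrableOn_ff 1 u v) (integrableOn_LL 1 u v)
      _ ≤ 4 * K * ((v - u) + 1 / u) * (1 / u) + (v - u) * (K * (1 / u)) := by
          refine add_le_add (hff u v hu huv) ?_
          have h3 : ∫ t in Set.Ioc u v, LL 1 t ≤ ∫ t in Set.Ioc u v, K * (1 / u) := by
            refine setIntegral_mono_on (integrableOn_LL 1 _ _) (integrableOn_const (by simp)) measurableSet_Ioc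
              fun t ht => (hLL t (by linarith [ht.1])).trans ?_
            exact mul_le_mul_of_nonneg_left (one_div_le_one_div_of_le hu0 ht.1.le) hK.le
          rw [setIntegral_const, smul_eq_mul, Real.volume_real_Ioc_of_le huv] at h3
          exact h3
      _ ≤ 6 * K * ((v - u) + 1 / u) * (1 / u) := by
          have h0 : 0 ≤ v - u := by linarith
          have h4 : 0 ≤ K * (1 / u) * (v - u) := by positivity
          have h5 : 0 ≤ K * (1 / u) * (1 / u) := by positivity
          nlinarith

/-- the local density of the primes -/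
theorem LL1_rate : ∃ K : ℝ, 0 < K ∧ ∀ y : ℝ, 4 ≤ y → |LL 1 y - 1 / y| ≤ K * (1 / y ^ 2) := by
  obtain ⟨C, hC, hR⟩ := Pool.Agent.TH888.R.RR_rate
  refine ⟨C + 16, by positivity, fun y hy => ?_⟩
  have hy0 : 0 < y := by linarith
  set z := Real.exp y with hz
  have hz0 : 0 < z := Real.exp_pos _
  have hz5 : 5 ≤ z := by
    have := Real.add_one_le_exp y
    linarith
  have hlz : Real.log z = y := Real.log_exp _
  have h1 := hR z (by linarith)
  rw [hlz] at h1
  have h2 : |RR z - 1 / y| ≤ C * (1 / y ^ 2) := by
    have e : RR z - 1 / y = (RR z * y - 1) / y := by field_simp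
    rw [e, abs_div, abs_of_pos hy0, div_le_iff₀ hy0]
    refine h1.trans (le_of_eq ?_)
    field_simp
  have hey : Real.exp (y + 1) = Real.exp 1 * z := by rw [hz, ← Real.exp_add, add_comm]
  set A := ⌊z⌋₊ with hA
  set B := ⌊Real.exp 1 * z⌋₊ with hB
  have he1 := Real.exp_one_gt_d9
  have hA5 : 5 ≤ A := Nat.le_floor (by exact_mod_cast hz5)
  have hAgt : z < A + 1 := Nat.lt_floor_add_one z
  have hAz : z / 2 ≤ A := by linarith
  have hA0 : (0 : ℝ) < A := by
    have : (5 : ℝ) ≤ A := by exact_mod_cast hA5
    linarith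
  have hAB : A ≤ B := Nat.floor_mono (by nlinarith)
  have hzy : 1 / z ≤ 1 / y ^ 2 := by
    apply one_div_le_one_div_of_le (by positivity)
    have h3 := Real.quadratic_le_exp_of_nonneg (show 0 ≤ y / 2 by linarith)
    have h4 : z = Real.exp (y / 2) * Real.exp (y / 2) := by
      rw [hz, ← Real.exp_add]
      congr 1
      ring
    have h5 : y ≤ Real.exp (y / 2) := by nlinarith [sq_nonneg (y - 2)]
    rw [h4]
    nlinarith
  have hAinv : 1 / (A : ℝ) ≤ 2 * (1 / z) := by
    have : 2 * (1 / z) = 1 / (z / 2) := by field_simp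
    rw [this]
    exact one_div_le_one_div_of_le (by positivity) hAz
  have hRRe : RR z = ∑ m ∈ (Finset.Ioc A B).filter (fun m => (roughPart 1 m).Prime), 1 / (m : ℝ) := by
    unfold RR
    rw [← hA, ← hB, Finset.sum_filter]
    refine Finset.sum_congr rfl fun m _ => ?_
    unfold pr
    by_cases h : m.Prime
    · rw [if_pos h, if_pos ((rp1_prime m).2 h), mul_one, one_div]
    · rw [if_neg h, if_neg (fun h' => h ((rp1_prime m).1 h')), mul_zero]
  have hup : LL 1 y ≤ RR z + 1 / A := by
    have h3 := window_upper (p := 1) (y := y) (y' := y + 1) hy0.le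
    rw [hey, ← hz, ← hA, ← hB] at h3
    unfold LL
    refine h3.trans ?_
    have e : Finset.Icc A B = insert A (Finset.Ioc A B) := by
      ext m
      rw [Finset.mem_insert, Finset.mem_Ioc, Finset.mem_Icc]
      omega
    rw [e, Finset.filter_insert, hRRe]
    split_ifs
    · rw [Finset.sum_insert (by simp)]
      linarith
    · have : 0 < 1 / (A : ℝ) := by positivity
      linarith
  have hlow : RR z - 2 * (1 / A) ≤ LL 1 y := by
    have h3 := window_lower (p := 1) (y := y) (y' := y + 1) hy0.le
    rw [hey, ← hz, ← hA, ← hB] at h3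
    unfold LL
    refine le_trans ?_ h3
    have hsum : RR z ≤ (∑ m ∈ (Finset.Ioc A (B - 1)).filter (fun m => (roughPart 1 m).Prime), 1 / (m : ℝ)) +
        1 / A := by
      rw [hRRe]
      have hsub : (Finset.Ioc A B).filter (fun m => (roughPart 1 m).Prime) ⊆
          insert B ((Finset.Ioc A (B - 1)).filter (fun m => (roughPart 1 m).Prime)) := by
        intro m hm
        rw [Finset.mem_filter, Finset.mem_Ioc] at hm
        rw [Finset.mem_insert, Finset.mem_filter, Finset.mem_Ioc]
        by_cases h : m = B
        · exact Or.inl h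
        · exact Or.inr ⟨⟨hm.1.1, by omega⟩, hm.2⟩
      refine (Finset.sum_le_sum_of_subset_of_nonneg hsub fun _ _ _ => by positivity).trans ?_
      rcases Classical.em (B ∈ (Finset.Ioc A (B - 1)).filter (fun m => (roughPart 1 m).Prime)) with h | h
      · rw [Finset.insert_eq_of_mem h]
        have : 0 < 1 / (A : ℝ) := by positivity
        linarith
      · rw [Finset.sum_insert h, add_comm]
        have : 1 / (B : ℝ) ≤ 1 / A := one_div_le_one_div_of_le hA0 (by exact_mod_cast hAB)
        linarith
    have hdiff : (∑ m ∈ (Finset.Ioc A (B - 1)).filter (fun m => (roughPart 1 m).Prime), 1 / (m : ℝ)) -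
        (∑ m ∈ (Finset.Ioc A (B - 1)).filter (fun m => (roughPart 1 m).Prime), 1 / ((m : ℝ) + 1)) ≤ 1 / A := by
      rw [← Finset.sum_sub_distrib]
      calc ∑ m ∈ (Finset.Ioc A (B - 1)).filter (fun m => (roughPart 1 m).Prime), (1 / (m : ℝ) - 1 / ((m : ℝ) + 1)) ≤
          ∑ m ∈ Finset.Ioc A (B - 1), (1 / (m : ℝ) - 1 / ((m : ℝ) + 1)) := by
            refine Finset.sum_le_sum_of_subset_of_nonneg (Finset.filter_subset _ _) fun m hm _ => ?_
            rw [Finset.mem_Ioc] at hm
            have h0 : (0 : ℝ) < m := by exact_mod_cast (by omega : 0 < m)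
            have := one_div_le_one_div_of_le h0 (by linarith : (m : ℝ) ≤ m + 1)
            linarith
        _ ≤ 1 / A := by
            have key : ∀ n, ∑ m ∈ Finset.Ioc A (A + n), (1 / (m : ℝ) - 1 / ((m : ℝ) + 1)) =
                1 / ((A : ℝ) + 1) - 1 / ((A : ℝ) + n + 1) := by
              intro n
              induction n with
              | zero => simp
              | succ n ih =>
                rw [← add_assoc, Finset.sum_Ioc_succ_top (by omega), ih]
                push_cast
                ring
            rcases le_total A (B - 1) with h | h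
            · obtain ⟨n, hn⟩ := Nat.exists_eq_add_of_le h
              rw [hn, key n]
              have e1 : 1 / ((A : ℝ) + 1) ≤ 1 / A := one_div_le_one_div_of_le hA0 (by linarith)
              have e2 : 0 ≤ 1 / ((A : ℝ) + n + 1) := by positivity
              linarith
            · rw [Finset.Ioc_eq_empty_of_le h, Finset.sum_empty]
              positivity
    linarith
  have h5 : 1 / (A : ℝ) ≤ 2 * (1 / y ^ 2) := hAinv.trans (by linarith)
  rw [abs_le] at h2 ⊢
  have h6 : 0 < 1 / y ^ 2 := by positivity
  constructor <;> nlinarith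

end Pool.Agent.L5helper55.AL
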