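import Pool.Agent.L5helper55.AL.B
import Pool.Agent.W66.XC

set_option autoImplicit false

/-!
# Shift families and genuine primes: single indices, pairs, distant pairs
-/

namespace Pool.Agent.L5helper55.AL

open Filter Topology MeasureTheory
open Pool.Agent.H447R2.ML (Sh inv_le_third)
open Pool.Agent.W66X (int_bdd int_comp signed_cov window_diff abs_ff_le_one)
open Pool.Agent.H305R2 (roughPart ff measurable_ff ff_nonneg ff_le_one integrableOn_ff NN
  mem_Ioc_log gg LL measurable_gg abs_gg_le abs_gg_le_one LL_nonneg LL_cont LL_le_one integrableOn_gg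
  log_nat_tendsto)

/-- the bounds in terms of the index -/
theorem boundsp {c : ℝ} (hc : 0 < c) : ∃ K : ℝ, 0 < K ∧ ∀ᶠ p : ℕ in atTop,
    (∀ y, c * p ≤ y → LL 1 y ≤ K * (1 / p)) ∧
    (∀ u v, c * p + 1 ≤ u → u ≤ v → ∫ t in Set.Ioc u v, ff 1 t ≤ K * ((v - u) + 1 / p) * (1 / p)) ∧
    (∀ u v, c * p + 1 ≤ u → u ≤ v →
      ∫ t in Set.Ioc u v, |gg 1 t| ≤ K * ((v - u) + 1 / p) * (1 / p)) := by
  obtain ⟨K, hK, h1, h2, h3⟩ := bounds1
  refine ⟨K * (1 + 1 / c) * (1 + 1 / c), by positivity, ?_⟩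
  have hlarge : ∀ᶠ p : ℕ in atTop, 8 / c < p := tendsto_natCast_atTop_atTop.eventually_gt_atTop _
  filter_upwards [hlarge, eventually_ge_atTop 1] with p hp hp1
  have hp0 : (0 : ℝ) < p := by exact_mod_cast hp1
  rw [div_lt_iff₀ hc] at hp
  have hinv : ∀ u : ℝ, c * p ≤ u → 1 / u ≤ (1 + 1 / c) * (1 / p) := by
    intro u hu
    have h4 : 1 / u ≤ 1 / (c * p) := one_div_le_one_div_of_le (by positivity) hu
    have h5 : 1 / (c * p) = 1 / c * (1 / p) := by field_simp
    have h6 : 0 < 1 / (p : ℝ) := by positivity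
    rw [h5] at h4
    linarith
  have hc1 : 0 < 1 / c := by positivity
  have main : ∀ u v : ℝ, c * p + 1 ≤ u → u ≤ v → K * ((v - u) + 1 / u) * (1 / u) ≤
      K * (1 + 1 / c) * (1 + 1 / c) * ((v - u) + 1 / p) * (1 / p) := by
    intro u v hu huv
    have hu0 : 0 < u := by
      have : 0 < c * p := by positivity
      linarith
    have h4 := hinv u (by linarith)
    have h7 : 0 ≤ v - u := by linarith
    have h8 : 0 < 1 / (p : ℝ) := by positivity
    have h5 : (v - u) + 1 / u ≤ (1 + 1 / c) * ((v - u) + 1 / p) := by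
      have : (v - u) ≤ (1 + 1 / c) * (v - u) := by nlinarith
      linarith
    calc K * ((v - u) + 1 / u) * (1 / u) ≤ K * ((1 + 1 / c) * ((v - u) + 1 / p)) * ((1 + 1 / c) * (1 / p)) := by
          gcongr
      _ = _ := by ring
  refine ⟨fun y hy => ?_, fun u v hu huv => (h2 u v (by linarith) huv).trans (main u v hu huv),
    fun u v hu huv => (h3 u v (by linarith) huv).trans (main u v hu huv)⟩
  have h4 := hinv y hy
  have h8 : 0 < 1 / (p : ℝ) := by positivity
  calc LL 1 y ≤ K * (1 / y) := h1 y (by linarith)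
    _ ≤ K * ((1 + 1 / c) * (1 / p)) := by gcongr
    _ ≤ K * ((1 + 1 / c) * (1 / p)) * (1 + 1 / c) := by
        have : 0 ≤ K * ((1 + 1 / c) * (1 / p)) := by positivity
        nlinarith
    _ = _ := by ring

/-- decorrelation in terms of the index -/
theorem far1_q {c1 : ℝ} (hc1 : 0 < c1) : ∃ κ K : ℝ, 0 < κ ∧ 0 < K ∧ ∃ P : ℕ, ∀ q ≥ P,
    ∀ (w : ℝ → ℝ) (Y : ℝ), Measurable w → c1 * q ≤ Y →
      MonotoneOn w (Set.Icc (Y - 1) (Y + 2)) →
      (∀ a ∈ Set.Icc (Y - 1) (Y + 2), ∀ b ∈ Set.Icc (Y - 1) (Y + 2), |w a - w b| ≤ 2 * |a - b|) →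
      w (Y + 2) ≤ κ * Y / Real.log Y →
      |∫ u in Y..(Y + 1), gg 1 (w u) * gg 1 u| ≤ K * (1 / q ^ 2) := by
  obtain ⟨κ, K, hκ, hK, Y0, h⟩ := far1_w
  have hlin : ∀ᶠ q : ℕ in atTop, Y0 ≤ c1 * q :=
    (tendsto_natCast_atTop_atTop.const_mul_atTop hc1).eventually_ge_atTop _
  obtain ⟨P, hP⟩ := eventually_atTop.1 (hlin.and (eventually_ge_atTop 1))
  refine ⟨κ, K / c1 ^ 2, hκ, by positivity, P, fun q hq w Y hw hY hm hl hM => ?_⟩
  obtain ⟨h1, h2⟩ := hP q hq
  have hq0 : (0 : ℝ) < q := by exact_mod_cast h2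
  refine (h w Y hw (h1.trans hY) hm hl hM).trans ?_
  have h3 : 1 / Y ^ 2 ≤ 1 / (c1 * q) ^ 2 :=
    one_div_le_one_div_of_le (by positivity) (pow_le_pow_left₀ (by positivity) hY 2)
  calc K * (1 / Y ^ 2) ≤ K * (1 / (c1 * q) ^ 2) := by gcongr
    _ = _ := by field_simp

/-- upper bound for a single index -/
lemma single1_sh {a : ℝ} (ha : 0 < a) (a0 : ℝ) : ∃ K : ℝ, 0 < K ∧ ∃ P : ℕ, ∀ p ≥ P,
    ∀ a1 : ℝ, ∀ y y' : ℝ → ℝ, Sh a a0 a1 p y y' → ∀ s t : ℝ, a0 ≤ s → s ≤ t → t ≤ a1 →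
    ∫ x in Set.Ioc s t, ff 1 (y x) ≤ K * ((t - s) + 1 / p) * (1 / p) := by
  obtain ⟨K, hK, hev⟩ := boundsp (c := a / 2) (by positivity)
  refine ⟨2 * K, by positivity, ?_⟩
  have hlarge : ∀ᶠ p : ℕ in atTop, (|a0| + 2) * 2 / a < p :=
    tendsto_natCast_atTop_atTop.eventually_gt_atTop _
  obtain ⟨P, hP⟩ := eventually_atTop.1 (hev.and (hlarge.and (eventually_ge_atTop 3)))
  refine ⟨P, fun p hp a1 y y' h s t hs hst ht => ?_⟩
  obtain ⟨⟨_, hb, _⟩, hpl, hp3⟩ := hP p hp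
  have hp3' : (3 : ℝ) ≤ p := by exact_mod_cast hp3
  have hp0 : (0 : ℝ) < p := by linarith
  have hlog : 0 ≤ 1 / (p : ℝ) := by positivity
  have h13 := inv_le_third hp3
  have h1p : 0 < 1 / (p : ℝ) := by positivity
  have hnear := abs_le.1 (h.near s ⟨hs, hst.trans ht⟩)
  have hlow : a / 2 * p + 1 ≤ y s := by
    rw [div_lt_iff₀ ha] at hpl
    have := neg_abs_le a0
    linarith [hnear.1]
  have hmvt := h.mvt hs hst ht
  have hyst : y s ≤ y t := by
    have : 0 ≤ (1 - 1 / (p : ℝ)) * (t - s) := mul_nonneg (by linarith) (by linarith)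
    linarith
  have hb' := hb (y s) (y t) hlow hyst
  have hc := (h.cov hp3 hs hst ht (measurable_ff 1) (ff_nonneg 1) (ff_le_one 1)).1
  have hpD : 0 < 1 - 1 / (p : ℝ) := by linarith
  have h4 : (1 - 1 / (p : ℝ)) * ∫ x in Set.Ioc s t, ff 1 (y x) ≤
      (1 - 1 / (p : ℝ)) * (2 * K * ((t - s) + 1 / p) * (1 / p)) := by
    refine hc.trans (hb'.trans ?_)
    have h5 : (y t - y s) + 1 / p ≤ (1 - 1 / (p : ℝ)) * (2 * ((t - s) + 1 / p)) := by
      have h6 : (1 + 1 / (p : ℝ)) * (t - s) ≤ (1 - 1 / (p : ℝ)) * 2 * (t - s) :=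
        mul_le_mul_of_nonneg_right (by linarith) (by linarith)
      have h7 : 1 / (p : ℝ) ≤ (1 - 1 / (p : ℝ)) * 2 * (1 / p) := by
        nlinarith
      nlinarith [hmvt.2]
    calc K * (y t - y s + 1 / p) * (1 / p) ≤
        K * ((1 - 1 / (p : ℝ)) * (2 * ((t - s) + 1 / p))) * (1 / p) := by
          gcongr
      _ = _ := by ring
  exact le_of_mul_le_mul_left h4 hpD

/-- the bound on one cell -/
lemma cell1_sh {a : ℝ} (ha : 0 < a) : ∃ K : ℝ, 0 < K ∧ ∃ P : ℕ, ∀ p q : ℕ, P ≤ p →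
    p < q → ∀ a0 a1 : ℝ, ∀ y y' z z' : ℝ → ℝ, Sh a a0 a1 p y y' → Sh a a0 a1 q z z' →
    64 / a ≤ q - p →
    ∀ s t : ℝ, a0 ≤ s → s ≤ t → t ≤ a1 → ∀ N : ℕ, 3 ≤ N → y s = Real.log N →
    y t = Real.log ((N + 1 : ℕ) : ℝ) →
    ∫ x in Set.Ioc s t, ff 1 (z x) ≤ K * (t - s) * (1 / (q - p)) := by
  obtain ⟨K1, hK1, h1⟩ := short1
  refine ⟨4 * K1 / a, by positivity, 3, ?_⟩
  intro p q hp3 hpq a0 a1 y y' z z' hy hz hgap s t hs hst ht N hN hsN htN
  have hq3 : 3 ≤ q := by omega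
  have hpq' : (p : ℝ) < q := by exact_mod_cast hpq
  have hq0 : (0 : ℝ) < q := by
    have : (3 : ℝ) ≤ q := by exact_mod_cast hq3
    linarith
  have hqp : (0 : ℝ) < q - p := by linarith
  have hN3 : (3 : ℝ) ≤ N := by exact_mod_cast hN
  have hN0 : (0 : ℝ) < N := by linarith
  have h13p := inv_le_third hp3
  have h13q := inv_le_third hq3
  have h1p : 0 ≤ 1 / (p : ℝ) := by positivity
  have h1q : 0 ≤ 1 / (q : ℝ) := by positivity
  have hstI : s < t := by
    rcases hst.eq_or_lt with rfl | h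
    · exfalso
      rw [hsN] at htN
      have h6 : (N : ℝ) = ((N + 1 : ℕ) : ℝ) :=
        Real.log_injOn_pos hN0 (Set.mem_Ioi.2 (by positivity)) htN
      push_cast at h6
      linarith
    · exact h
  have hts : 0 < t - s := by linarith
  set u := z s with hu
  set hh := z t - z s with hhdef
  have hmz := hz.mvt hs hst ht
  have hmy := hy.mvt hs hst ht
  have hmz1 : 2 / 3 * (t - s) ≤ hh := by nlinarith [hmz.1]
  have hmz2 : hh ≤ 4 / 3 * (t - s) := by nlinarith [hmz.2]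
  have hmy1 : 2 / 3 * (t - s) ≤ y t - y s := by nlinarith [hmy.1]
  have hmy2 : y t - y s ≤ 4 / 3 * (t - s) := by nlinarith [hmy.2]
  have hhpos : 0 < hh := by linarith
  -- bounds for the cell
  have hlogN : 1 / ((N : ℝ) + 1) ≤ y t - y s := by
    rw [hsN, htN, ← Real.log_div (by positivity) hN0.ne']
    have h6 := Real.one_sub_inv_le_log_of_pos (show (0 : ℝ) < ((N + 1 : ℕ) : ℝ) / N by positivity)
    have h7 : 1 - (((N + 1 : ℕ) : ℝ) / N)⁻¹ = 1 / ((N : ℝ) + 1) := by push_cast; field_simp; ring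
    linarith
  have hlogN' : y t - y s ≤ 1 / (N : ℝ) := by
    rw [hsN, htN, ← Real.log_div (by positivity) hN0.ne']
    have h6 := Real.log_le_sub_one_of_pos (show (0 : ℝ) < ((N + 1 : ℕ) : ℝ) / N by positivity)
    have h7 : ((N + 1 : ℕ) : ℝ) / N - 1 = 1 / (N : ℝ) := by push_cast; field_simp; ring
    linarith
  have hh1 : hh ≤ 1 := by
    have : 1 / (N : ℝ) ≤ 1 / 3 := one_div_le_one_div_of_le (by norm_num) hN3
    linarith
  have hh4 : 1 / (4 * (N : ℝ)) ≤ hh := by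
    have h8 : 1 / (2 * (N : ℝ)) ≤ 1 / ((N : ℝ) + 1) :=
      one_div_le_one_div_of_le (by positivity) (by linarith)
    have h11 : 1 / (4 * (N : ℝ)) = 1 / (2 * (N : ℝ)) / 2 := by field_simp; norm_num
    rw [h11]
    linarith
  -- the exponent
  have hgap' : 64 ≤ a * (q - p) := by
    rw [div_le_iff₀ ha] at hgap
    linarith
  have hH : a * (q - p) / 2 ≤ u + Real.log hh := by
    have h6 : Real.log (1 / (4 * (N : ℝ))) ≤ Real.log hh := Real.log_le_log (by positivity) hh4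
    rw [one_div, Real.log_inv, Real.log_mul (by norm_num) hN0.ne', ← hsN] at h6
    have h7 := abs_le.1 (hy.near s ⟨hs, hst.trans ht⟩)
    have h8 := abs_le.1 (hz.near s ⟨hs, hst.trans ht⟩)
    have h9 : Real.log 4 ≤ 2 := by
      have : Real.log 4 = 2 * Real.log 2 := by
        rw [show (4 : ℝ) = 2 ^ 2 by norm_num, Real.log_pow]; norm_num
      have := Real.log_two_lt_d9
      linarith
    rw [hu]
    nlinarith [h7.1, h7.2, h8.1, h8.2]
  have hH32 : 2 ≤ u + Real.log hh := by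
    linarith
  have hmain : ∫ v in Set.Ioc (z s) (z t), ff 1 v ≤
      (2 * K1 / a) * hh * (1 / (q - p)) := by
    have h6 := h1 u hh hhpos hh1 hH32
    have e : u + hh = z t := by rw [hu, hhdef]; ring
    rw [e] at h6
    refine h6.trans ?_
    have h7 : 1 / (u + Real.log hh) ≤ 2 / a * (1 / (q - p)) := by
      have h8 : 2 / a * (1 / ((q : ℝ) - p)) = 1 / (a * (q - p) / 2) := by
        field_simp
      rw [h8]
      exact one_div_le_one_div_of_le (by positivity) hH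
    calc K1 * hh * (1 / (u + Real.log hh)) ≤
        K1 * hh * (2 / a * (1 / (q - p))) := by gcongr
      _ = 2 * K1 / a * hh * (1 / (q - p)) := by ring
  have hc := (hz.cov hq3 hs hst ht (measurable_ff 1) (ff_nonneg 1) (ff_le_one 1)).1
  have hqD : 0 < 1 - 1 / (q : ℝ) := by linarith
  refine le_of_mul_le_mul_left (hc.trans (hmain.trans ?_)) hqD
  have h6 : hh ≤ (1 - 1 / (q : ℝ)) * (2 * (t - s)) := by
    nlinarith
  have hL : 0 ≤ 1 / ((q : ℝ) - p) := by positivity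
  calc (2 * K1 / a) * hh * (1 / (q - p)) ≤
      (2 * K1 / a) * ((1 - 1 / (q : ℝ)) * (2 * (t - s))) * (1 / (q - p)) := by gcongr
    _ = _ := by ring

lemma prod1_integrable_sh {a a0 a1 : ℝ} {p q : ℕ} {y y' z z' : ℝ → ℝ} (hy : Sh a a0 a1 p y y')
    (hz : Sh a a0 a1 q z z') :
    IntegrableOn (fun x => ff 1 (y x) * ff 1 (z x)) (Set.Icc a0 a1) := by
  refine Integrable.of_bound ?_ 1 ?_
  · exact (((measurable_ff 1).comp_aemeasurable (hy.cont.aemeasurable measurableSet_Icc)).mul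
      ((measurable_ff 1).comp_aemeasurable (hz.cont.aemeasurable measurableSet_Icc))).aestronglyMeasurable
  · exact Eventually.of_forall fun x => by
      have h1 := ff_nonneg 1 (y x)
      have h2 := ff_nonneg 1 (z x)
      have h3 := ff_le_one 1 (y x)
      have h4 := ff_le_one 1 (z x)
      rw [Real.norm_eq_abs, abs_of_nonneg (mul_nonneg h1 h2)]
      nlinarith

lemma one1_integrable_sh {a a0 a1 : ℝ} {p : ℕ} {y y' : ℝ → ℝ} (hy : Sh a a0 a1 p y y') :
    IntegrableOn (fun x => ff 1 (y x)) (Set.Icc a0 a1) := by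
  refine Integrable.of_bound ?_ 1 ?_
  · exact ((measurable_ff 1).comp_aemeasurable (hy.cont.aemeasurable measurableSet_Icc)).aestronglyMeasurable
  · exact Eventually.of_forall fun x => by
      rw [Real.norm_eq_abs, abs_of_nonneg (ff_nonneg 1 _)]; exact ff_le_one 1 _

theorem pair1_bound_sh {a a0 a1 b0 b1 : ℝ} (ha : 0 < a) (hb0 : a0 < b0) (hb1 : b1 < a1) :
    ∃ K : ℝ, 0 < K ∧ ∃ P : ℕ, ∀ p q : ℕ, P ≤ p → p < q → ∀ y y' z z' : ℝ → ℝ,
    Sh a a0 a1 p y y' → Sh a a0 a1 q z z' →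
    64 / a ≤ q - p →
    ∀ s t : ℝ, b0 ≤ s → s ≤ t → t ≤ b1 →
    ∫ x in Set.Ioc s t, ff 1 (y x) * ff 1 (z x) ≤
      K * ((t - s) + 1 / p) * (1 / p) * (1 / (q - p)) := by
  obtain ⟨K1, hK1, P1, h1⟩ := cell1_sh ha
  obtain ⟨K2, hK2, P2, h2⟩ := single1_sh ha a0
  refine ⟨5 * (K1 * K2), by positivity, ?_⟩
  set m := min (1 / 2 * min (b0 - a0) (a1 - b1)) 1 with hm
  have hm0 : 0 < m := by
    rw [hm]
    refine lt_min ?_ one_pos
    have : 0 < min (b0 - a0) (a1 - b1) := lt_min (by linarith) (by linarith)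
    positivity
  have hη : ∀ᶠ p : ℕ in atTop, (p : ℝ) * Real.exp (-(a * p)) < m / (2 * Real.exp (|a0| + 1)) := by
    have h3 := (Real.tendsto_pow_mul_exp_neg_atTop_nhds_zero 1).comp
      ((tendsto_natCast_atTop_atTop (R := ℝ)).const_mul_atTop ha)
    have h4 := h3.const_mul (a⁻¹)
    rw [mul_zero] at h4
    filter_upwards [h4.eventually_lt_const (show 0 < m / (2 * Real.exp (|a0| + 1)) by positivity)]
      with p hp
    refine lt_of_le_of_lt (le_of_eq ?_) hp
    simp only [Function.comp, pow_one]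
    field_simp
  have hbig : ∀ᶠ p : ℕ in atTop, (|a0| + 4) / a < p := tendsto_natCast_atTop_atTop.eventually_gt_atTop _
  obtain ⟨P3, hP3⟩ := eventually_atTop.1 (hη.and (hbig.and (eventually_ge_atTop (max 3 (max P1 P2)))))
  refine ⟨P3, fun p q hp hpq y y' z z' hy hz hgap s t hs hst ht => ?_⟩
  obtain ⟨hpη, hpb, hpm⟩ := hP3 p hp
  have hp3 : 3 ≤ p := (le_max_left _ _).trans hpm
  have hp3' : (3 : ℝ) ≤ p := by exact_mod_cast hp3
  have hp0 : (0 : ℝ) < p := by linarith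
  have h13 := inv_le_third hp3
  have h1p0 : 0 < 1 / (p : ℝ) := by positivity
  have hpq' : (p : ℝ) < q := by exact_mod_cast hpq
  have hlogp : 0 ≤ 1 / (p : ℝ) := by positivity
  have hL : 0 ≤ 1 / ((q : ℝ) - p) :=
    div_nonneg zero_le_one (by linarith)
  have hsI : s ∈ Set.Icc a0 a1 := ⟨by linarith, by linarith⟩
  have htI : t ∈ Set.Icc a0 a1 := ⟨by linarith, by linarith⟩
  have hmono := hy.strict hp3
  -- the small quantity
  set η := 2 * Real.exp (|a0| + 1 - a * p) with hηdef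
  have hη0 : 0 < η := by positivity
  have hηp : η * p < m := by
    rw [lt_div_iff₀ (by positivity)] at hpη
    have e : η * p = p * Real.exp (-(a * p)) * (2 * Real.exp (|a0| + 1)) := by
      rw [hηdef, sub_eq_add_neg, Real.exp_add]; ring
    rw [e]; exact hpη
  have hηm : η < m := by nlinarith
  have hη1 : η ≤ 1 / p := by
    rw [le_div_iff₀ hp0]
    have : m ≤ 1 := min_le_right _ _
    linarith
  have hmb0 : m ≤ 1 / 2 * (b0 - a0) :=
    (min_le_left _ _).trans (mul_le_mul_of_nonneg_left (min_le_left _ _) (by norm_num))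
  have hmb1 : m ≤ 1 / 2 * (a1 - b1) :=
    (min_le_left _ _).trans (mul_le_mul_of_nonneg_left (min_le_right _ _) (by norm_num))
  have hlowy : ∀ x ∈ Set.Icc a0 a1, a * p - |a0| - 1 ≤ y x := by
    intro x hx
    have h3 := (abs_le.1 (hy.near x hx)).1
    have := neg_abs_le a0
    have := hx.1
    linarith
  have hexpy : ∀ x ∈ Set.Icc a0 a1, 2 * Real.exp (-(y x)) ≤ η := by
    intro x hx
    rw [hηdef]
    have := hlowy x hx
    have : Real.exp (-(y x)) ≤ Real.exp (|a0| + 1 - a * p) := Real.exp_le_exp.2 (by linarith)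
    linarith
  have hy3 : ∀ x ∈ Set.Icc a0 a1, 3 ≤ y x := by
    intro x hx
    have := hlowy x hx
    rw [div_lt_iff₀ ha] at hpb
    linarith
  -- margins
  have hm1 : y a0 ≤ y s - η := by
    have h3 := (hy.mvt (le_refl a0) (by linarith : a0 ≤ s) hsI.2).1
    nlinarith
  have hm2 : y t + η ≤ y a1 := by
    have h3 := (hy.mvt htI.1 (by linarith : t ≤ a1) le_rfl).1
    nlinarith
  have hyst : y s ≤ y t := hmono.monotoneOn hsI htI hst
  have hys3 := hy3 s hsI
  have hyt3 := hy3 t htI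
  have hexp3 : (19 : ℝ) ≤ Real.exp 3 := by
    have h3 := Real.exp_one_gt_d9
    have h4 : Real.exp 3 = Real.exp 1 * Real.exp 1 * Real.exp 1 := by
      rw [← Real.exp_add, ← Real.exp_add]; norm_num
    rw [h4]
    have h5 : (2.7 : ℝ) ≤ Real.exp 1 := by linarith
    nlinarith [mul_self_nonneg (Real.exp 1)]
  have hes : (19 : ℝ) ≤ Real.exp (y s) := hexp3.trans (Real.exp_le_exp.2 hys3)
  have het : (19 : ℝ) ≤ Real.exp (y t) := hexp3.trans (Real.exp_le_exp.2 hyt3)
  set N0 := ⌊Real.exp (y s)⌋₊ with hN0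
  set N1 := ⌊Real.exp (y t)⌋₊ with hN1
  have hN0p : 3 ≤ N0 := by
    rw [hN0, Nat.le_floor_iff (Real.exp_pos _).le]
    push_cast; linarith
  have hN01 : N0 ≤ N1 := Nat.floor_mono (Real.exp_le_exp.2 hyst)
  have hN0r : (3 : ℝ) ≤ N0 := by exact_mod_cast hN0p
  have hN1r : (3 : ℝ) ≤ N1 := by exact_mod_cast hN0p.trans hN01
  have hl0 : Real.log N0 ≤ y s := by
    rw [Real.log_le_iff_le_exp (by linarith)]
    exact Nat.floor_le (Real.exp_pos _).le
  have hl1 : y t ≤ Real.log ((N1 + 1 : ℕ) : ℝ) := by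
    rw [Real.le_log_iff_exp_le (by positivity)]
    push_cast
    exact (Nat.lt_floor_add_one _).le
  have hl0' : y s - η ≤ Real.log N0 := by
    have h3 : Real.exp (y s) - 1 ≤ N0 := by
      have := Nat.lt_floor_add_one (Real.exp (y s))
      rw [← hN0] at this
      linarith
    have h4 : y s - 2 * Real.exp (-(y s)) ≤ Real.log (Real.exp (y s) - 1) := by
      have h5 : Real.log (Real.exp (y s) - 1) = y s + Real.log (1 - Real.exp (-(y s))) := by
        have : Real.exp (y s) - 1 = Real.exp (y s) * (1 - Real.exp (-(y s))) := by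
          rw [mul_sub, mul_one, ← Real.exp_add]; simp
        rw [this, Real.log_mul (Real.exp_pos _).ne', Real.log_exp]
        have : Real.exp (-(y s)) < 1 := by
          rw [Real.exp_neg]
          exact inv_lt_one_of_one_lt₀ (by linarith)
        linarith
      rw [h5]
      have hx : Real.exp (-(y s)) ≤ 1 / 19 := by
        rw [Real.exp_neg, ← one_div]
        exact one_div_le_one_div_of_le (by norm_num) hes
      have hx0 := Real.exp_pos (-(y s))
      have h6 := Real.one_sub_inv_le_log_of_pos (show 0 < 1 - Real.exp (-(y s)) by linarith)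
      have h7 : 1 - (1 - Real.exp (-(y s)))⁻¹ ≥ -(2 * Real.exp (-(y s))) := by
        have h8 : (1 - Real.exp (-(y s)))⁻¹ ≤ 1 + 2 * Real.exp (-(y s)) := by
          rw [inv_le_comm₀ (by linarith) (by positivity)]
          rw [inv_le_iff_one_le_mul₀ (by positivity)]
          nlinarith
        linarith
      linarith
    have h5 : Real.log (Real.exp (y s) - 1) ≤ Real.log N0 := Real.log_le_log (by linarith) h3
    have h6 := hexpy s hsI
    linarith
  have hl1' : Real.log ((N1 + 1 : ℕ) : ℝ) ≤ y t + η := by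
    have h3 : ((N1 + 1 : ℕ) : ℝ) ≤ Real.exp (y t) * (1 + Real.exp (-(y t))) := by
      push_cast
      have : (N1 : ℝ) ≤ Real.exp (y t) := Nat.floor_le (Real.exp_pos _).le
      rw [mul_add, mul_one, ← Real.exp_add]
      simp
      linarith
    have h4 := Real.log_le_log (by positivity) h3
    rw [Real.log_mul (Real.exp_pos _).ne' (by positivity), Real.log_exp] at h4
    have h5 := Real.log_le_sub_one_of_pos (show 0 < 1 + Real.exp (-(y t)) by positivity)
    have h6 := hexpy t htI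
    have h7 := Real.exp_pos (-(y t))
    linarith
  -- division points
  have hex : ∀ N : ℕ, N0 ≤ N → N ≤ N1 + 1 → ∃ x ∈ Set.Icc a0 a1, y x = Real.log N := by
    intro N h3 h4
    have h5 : y a0 ≤ Real.log N := by
      have : Real.log N0 ≤ Real.log N := Real.log_le_log (by linarith) (by exact_mod_cast h3)
      linarith
    have h6 : Real.log N ≤ y a1 := by
      have : Real.log N ≤ Real.log ((N1 + 1 : ℕ) : ℝ) := Real.log_le_log (by
        have : (N0 : ℝ) ≤ N := by exact_mod_cast h3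
        linarith) (by exact_mod_cast h4)
      linarith
    obtain ⟨x, hx, he⟩ := intermediate_value_Icc (by linarith : a0 ≤ a1) hy.cont ⟨h5, h6⟩
    exact ⟨x, hx, he⟩
  choose! τ hτI hτ using hex
  have hτlt : ∀ N : ℕ, N0 ≤ N → N < N1 + 1 → τ N < τ (N + 1) := by
    intro N h3 h4
    rw [← hmono.lt_iff_lt (hτI N h3 h4.le) (hτI (N + 1) (by omega) h4), hτ N h3 h4.le,
      hτ (N + 1) (by omega) h4]
    have : (N0 : ℝ) ≤ N := by exact_mod_cast h3
    exact Real.log_lt_log (by linarith) (by push_cast; linarith)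
  have hτ0 : τ N0 ≤ s := by
    rw [← hmono.le_iff_le (hτI N0 le_rfl (by omega)) hsI, hτ N0 le_rfl (by omega)]
    exact hl0
  have hτ1 : t ≤ τ (N1 + 1) := by
    rw [← hmono.le_iff_le htI (hτI (N1 + 1) (by omega) le_rfl), hτ (N1 + 1) (by omega) le_rfl]
    exact hl1
  have hτ0I := hτI N0 le_rfl (by omega)
  have hτ1I := hτI (N1 + 1) (by omega) le_rfl
  have hτ0' : s - τ N0 ≤ 2 * (1 / p) := by
    have h3 := (hy.mvt hτ0I.1 hτ0 hsI.2).1
    rw [hτ N0 le_rfl (by omega)] at h3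
    nlinarith
  have hτ1' : τ (N1 + 1) - t ≤ 2 * (1 / p) := by
    have h3 := (hy.mvt htI.1 hτ1 hτ1I.2).1
    rw [hτ (N1 + 1) (by omega) le_rfl] at h3
    nlinarith
  -- enlarge
  have hGint := prod1_integrable_sh hy hz
  have hFint := one1_integrable_sh hy
  have hbig : ∫ x in Set.Ioc s t, ff 1 (y x) * ff 1 (z x) ≤
      ∫ x in Set.Ioc (τ N0) (τ (N1 + 1)), ff 1 (y x) * ff 1 (z x) := by
    refine setIntegral_mono_set ?_ ?_ ?_
    · exact hGint.mono_set (fun x hx => ⟨hτ0I.1.trans hx.1.le, hx.2.trans hτ1I.2⟩)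
    · exact Eventually.of_forall fun x => mul_nonneg (ff_nonneg 1 _) (ff_nonneg 1 _)
    · exact (Set.Ioc_subset_Ioc hτ0 hτ1).eventuallyLE
  have hsubN : ∀ N ∈ Set.Ico N0 (N1 + 1), Set.Ioc (τ N) (τ (N + 1)) ⊆ Set.Icc a0 a1 := by
    intro N hN x hx
    exact ⟨(hτI N hN.1 hN.2.le).1.trans hx.1.le, hx.2.trans (hτI (N + 1) (by have := hN.1; omega) hN.2).2⟩
  have hiiG : ∀ N ∈ Set.Ico N0 (N1 + 1), IntervalIntegrable (fun x => ff 1 (y x) * ff 1 (z x)) volume
      (τ N) (τ (N + 1)) := by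
    intro N hN
    rw [intervalIntegrable_iff_integrableOn_Ioc_of_le (hτlt N hN.1 hN.2).le]
    exact hGint.mono_set (hsubN N hN)
  have hiiF : ∀ N ∈ Set.Ico N0 (N1 + 1), IntervalIntegrable (fun x => ff 1 (y x)) volume
      (τ N) (τ (N + 1)) := by
    intro N hN
    rw [intervalIntegrable_iff_integrableOn_Ioc_of_le (hτlt N hN.1 hN.2).le]
    exact hFint.mono_set (hsubN N hN)
  have hsumG := intervalIntegral.sum_integral_adjacent_intervals_Ico (a := τ) (m := N0) (n := N1 + 1)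
    (by omega) hiiG
  have hsumF := intervalIntegral.sum_integral_adjacent_intervals_Ico (a := τ) (m := N0) (n := N1 + 1)
    (by omega) hiiF
  have hττ : τ N0 ≤ τ (N1 + 1) := hτ0.trans (hst.trans hτ1)
  rw [intervalIntegral.integral_of_le hττ] at hsumG hsumF
  -- each cell
  have hcell : ∀ N ∈ Finset.Ico N0 (N1 + 1), ∫ x in (τ N)..(τ (N + 1)), ff 1 (y x) * ff 1 (z x) ≤
      K1 * (1 / (q - p)) * ∫ x in (τ N)..(τ (N + 1)), ff 1 (y x) := by
    intro N hN
    rw [Finset.mem_Ico] at hN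
    have hlt := hτlt N hN.1 hN.2
    rw [intervalIntegral.integral_of_le hlt.le, intervalIntegral.integral_of_le hlt.le]
    have hNp : 3 ≤ N := hN0p.trans hN.1
    set g : ℝ := if (roughPart 1 N).Prime then 1 else 0 with hg
    have hval : ∀ x ∈ Set.Ioc (τ N) (τ (N + 1)), ff 1 (y x) = g := by
      intro x hx
      have hxI := hsubN N hN hx
      have h3 : NN (y x) = N := by
        rw [← mem_Ioc_log (by omega), ← hτ N hN.1 hN.2.le, ← hτ (N + 1) (by omega) hN.2]
        exact ⟨hmono (hτI N hN.1 hN.2.le) hxI hx.1,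
          hmono.monotoneOn hxI (hτI (N + 1) (by omega) hN.2) hx.2⟩
      unfold ff
      rw [h3]
    have e3 : ∫ x in Set.Ioc (τ N) (τ (N + 1)), ff 1 (y x) * ff 1 (z x) =
        g * ∫ x in Set.Ioc (τ N) (τ (N + 1)), ff 1 (z x) := by
      rw [← integral_const_mul]
      exact setIntegral_congr_fun measurableSet_Ioc fun x hx => by
        rw [hval x hx]
    have e4 : ∫ x in Set.Ioc (τ N) (τ (N + 1)), ff 1 (y x) = (τ (N + 1) - τ N) * g := by
      rw [setIntegral_congr_fun measurableSet_Ioc (g := fun _ => g) fun x hx => hval x hx,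
        setIntegral_const, smul_eq_mul, Real.volume_real_Ioc_of_le hlt.le]
    have hc := h1 p q ((le_max_left _ _).trans ((le_max_right _ _).trans hpm)) hpq a0 a1 y y' z z'
      hy hz hgap (τ N) (τ (N + 1))
      (hτI N hN.1 hN.2.le).1 hlt.le (hτI (N + 1) (by omega) hN.2).2 N hNp
      (hτ N hN.1 hN.2.le) (hτ (N + 1) (by omega) hN.2)
    have hg0 : 0 ≤ g := by rw [hg]; split_ifs <;> norm_num
    rw [e3, e4]
    calc g * ∫ x in Set.Ioc (τ N) (τ (N + 1)), ff 1 (z x) ≤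
        g * (K1 * (τ (N + 1) - τ N) * (1 / (q - p))) := mul_le_mul_of_nonneg_left hc hg0
      _ = _ := by ring
  have hsum : ∫ x in Set.Ioc (τ N0) (τ (N1 + 1)), ff 1 (y x) * ff 1 (z x) ≤
      K1 * (1 / (q - p)) * ∫ x in Set.Ioc (τ N0) (τ (N1 + 1)), ff 1 (y x) := by
    rw [← hsumG, ← hsumF, Finset.mul_sum]
    exact Finset.sum_le_sum hcell
  have hsingle := h2 p ((le_max_right _ _).trans ((le_max_right _ _).trans hpm)) a1 y y' hy
    (τ N0) (τ (N1 + 1)) hτ0I.1 hττ hτ1I.2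
  have h5 : τ (N1 + 1) - τ N0 + 1 / p ≤ 5 * ((t - s) + 1 / p) := by
    linarith
  calc ∫ x in Set.Ioc s t, ff 1 (y x) * ff 1 (z x) ≤
      K1 * (1 / (q - p)) * ∫ x in Set.Ioc (τ N0) (τ (N1 + 1)), ff 1 (y x) := hbig.trans hsum
    _ ≤ K1 * (1 / (q - p)) * (K2 * (τ (N1 + 1) - τ N0 + 1 / p) * (1 / p)) := by
        gcongr
    _ ≤ K1 * (1 / (q - p)) * (K2 * (5 * ((t - s) + 1 / p)) * (1 / p)) := by
        gcongr
    _ = _ := by ring

/-- distant exponents -/
theorem far1_sh {a : ℝ} (ha : 0 < a) (b0 : ℝ) : ∃ κ K : ℝ, 0 < κ ∧ 0 < K ∧ ∃ P : ℕ, ∀ q ≥ P,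
    ∀ (p : ℕ) (y y' z w : ℝ → ℝ), Sh a (b0 - 1) (b0 + 2) q y y' → Measurable w →
      MonotoneOn w (Set.Icc (a * q + b0 - 1) (a * q + b0 + 2)) →
      (∀ s ∈ Set.Icc (a * q + b0 - 1) (a * q + b0 + 2), ∀ t ∈ Set.Icc (a * q + b0 - 1) (a * q + b0 + 2),
        |w s - w t| ≤ 2 * |s - t|) →
      (p : ℝ) ≤ κ * q / Real.log q → w (a * q + b0 + 2) ≤ a * p + |b0| + 3 →
      (∀ t ∈ Set.Ioc b0 (b0 + 1), w (y t) = z t) →
      |∫ t in Set.Ioc b0 (b0 + 1), gg 1 (z t) * gg 1 (y t)| ≤ K * (1 / q ^ 2) := by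
  obtain ⟨κ, K, hκ, hK, P, hP⟩ := far1_q (c1 := a / 2) (by positivity)
  obtain ⟨K', hK', hbd⟩ := boundsp (c := a / 2) (by positivity)
  refine ⟨κ / 8, K + 20 * K', by positivity, by positivity, ?_⟩
  have h1 : ∀ᶠ q : ℕ in atTop, (|b0| + 3) * 2 / a ≤ q :=
    tendsto_natCast_atTop_atTop.eventually_ge_atTop _
  have h2 : ∀ᶠ q : ℕ in atTop, 2 * a ≤ q := tendsto_natCast_atTop_atTop.eventually_ge_atTop _
  have h3 : ∀ᶠ q : ℕ in atTop, Real.log q / q ≤ κ * a / (8 * (|b0| + 3)) := by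
    have h4 : Tendsto (fun q : ℕ => Real.log q / q) atTop (𝓝 0) := by
      have h5 : Tendsto (fun x : ℝ => Real.log x / x) atTop (𝓝 0) := by
        have := Real.tendsto_pow_log_div_mul_add_atTop 1 0 1 one_ne_zero
        simpa using this
      exact h5.comp tendsto_natCast_atTop_atTop
    exact (h4.eventually_lt_const (by positivity)).mono fun q hq => hq.le
  have h4 : ∀ᶠ q : ℕ in atTop, 2 / a < q := tendsto_natCast_atTop_atTop.eventually_gt_atTop _
  obtain ⟨P2, hP2⟩ := eventually_atTop.1 (h1.and (h2.and (h3.and ((log_nat_tendsto.eventually_ge_atTop 1).and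
    (h4.and ((eventually_ge_atTop P).and (hbd.and (eventually_ge_atTop 3))))))))
  refine ⟨P2, fun q hq p y y' z w hSh hwm hmono hlip hpq hwtop hwy => ?_⟩
  obtain ⟨e1, e2, e3, e4, e5, e6, ⟨_, _, e7⟩, e8⟩ := hP2 q hq
  have hb0 : 0 ≤ |b0| := abs_nonneg _
  have hq3 : (3 : ℝ) ≤ q := by exact_mod_cast e8
  have hq0 : (0 : ℝ) < q := by linarith
  have hinv : 1 / (q : ℝ) ≤ 1 / 3 := one_div_le_one_div_of_le (by norm_num) hq3
  have hinv0 : 0 < 1 / (q : ℝ) := by positivity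
  set Y := a * q + b0 with hY
  have hYlo3 : a / 2 * q + 3 ≤ Y := by
    rw [div_le_iff₀ ha] at e1
    have := neg_abs_le b0
    linarith
  have hYlo : a / 2 * q ≤ Y := by linarith
  have hYhi : Y ≤ 2 * a * q := by
    rw [div_le_iff₀ ha] at e1
    have := le_abs_self b0
    linarith
  have hY1 : 1 < Y := by
    rw [div_lt_iff₀ ha] at e5
    linarith
  have hlY : 0 < Real.log Y := Real.log_pos hY1
  have hlY2 : Real.log Y ≤ 2 * Real.log q := by
    calc Real.log Y ≤ Real.log (q * q) := Real.log_le_log (by linarith) (hYhi.trans (by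
          have := mul_le_mul_of_nonneg_right e2 hq0.le
          linarith))
      _ = 2 * Real.log q := by rw [Real.log_mul hq0.ne' hq0.ne']; ring
  have hcond : w (Y + 2) ≤ κ * Y / Real.log Y := by
    have h5 : κ * a / 4 * (q / Real.log q) ≤ κ * Y / Real.log Y := by
      calc κ * a / 4 * (q / Real.log q) = κ * (a / 2 * q) / (2 * Real.log q) := by
            field_simp; ring
        _ ≤ κ * Y / Real.log Y := by gcongr
    have h6 : a * p ≤ κ * a / 8 * (q / Real.log q) := by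
      calc a * p ≤ a * (κ / 8 * q / Real.log q) := mul_le_mul_of_nonneg_left hpq ha.le
        _ = _ := by ring
    have h7 : |b0| + 3 ≤ κ * a / 8 * (q / Real.log q) := by
      rw [div_le_div_iff₀ hq0 (by positivity)] at e3
      rw [mul_div_assoc', le_div_iff₀ (by linarith)]
      linarith
    linarith
  have hmain := hP q e6 w Y hwm hYlo hmono hlip hcond
  set F : ℝ → ℝ := fun u => gg 1 (w u) * gg 1 u with hF
  have hFm : Measurable F := ((measurable_gg 1).comp hwm).mul (measurable_gg 1)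
  have hFG : ∀ x, |F x| ≤ |gg 1 x| := fun x => by
    simp only [hF]
    rw [abs_mul]
    exact mul_le_of_le_one_left (abs_nonneg _) (abs_gg_le_one 1 _)
  have hF1 : ∀ x, |F x| ≤ 1 := fun x => (hFG x).trans (abs_gg_le_one 1 x)
  have hGm : Measurable fun x => |gg 1 x| := (measurable_gg 1).abs
  have hG1 : ∀ x, |(|gg 1 x|)| ≤ 1 := fun x => by rw [abs_abs]; exact abs_gg_le_one 1 x
  have e : ∫ t in Set.Ioc b0 (b0 + 1), gg 1 (z t) * gg 1 (y t) = ∫ t in Set.Ioc b0 (b0 + 1), F (y t) := by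
    refine setIntegral_congr_fun measurableSet_Ioc fun t ht => ?_
    simp only [hF]
    rw [hwy t ht]
  rw [e]
  set lq := 1 / (q : ℝ) ^ 2 with hlq
  have hlq0 : 0 ≤ lq := by positivity
  have hlqe : 1 / (q : ℝ) * (1 / q) = lq := by rw [hlq]; field_simp
  -- covariance
  have k1 := signed_cov hSh e8 (s := b0) (t := b0 + 1) (by linarith) (by linarith) (by linarith) hFm hF1
  have hnear0 := hSh.near b0 ⟨by linarith, by linarith⟩
  have hnear1 := hSh.near (b0 + 1) ⟨by linarith, by linarith⟩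
  have hy01 : y b0 ≤ y (b0 + 1) := by
    have := abs_le.1 hnear0; have := abs_le.1 hnear1; linarith
  -- the integral of `|gg|` over the image
  have k2 : ∫ x in Set.Ioc b0 (b0 + 1), |F (y x)| ≤ 6 * K' * (1 / q) := by
    have h5 := (hSh.cov e8 (s := b0) (t := b0 + 1) (by linarith) (by linarith) (by linarith)
      (F := fun x => |gg 1 x|) hGm (fun x => abs_nonneg _) (fun x => abs_gg_le_one 1 x)).1
    have h6 : ∫ x in Set.Ioc b0 (b0 + 1), |F (y x)| ≤ ∫ x in Set.Ioc b0 (b0 + 1), |gg 1 (y x)| := by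
      refine setIntegral_mono_on ?_ ?_ measurableSet_Ioc fun x _ => hFG _
      · exact int_comp hSh (by linarith) (by linarith) (F := fun x => |F x|) hFm.abs (M := 1)
          (fun x => by rw [abs_abs]; exact hF1 x)
      · exact int_comp hSh (by linarith) (by linarith) hGm hG1
    have h7 : ∫ u in Set.Ioc (y b0) (y (b0 + 1)), |gg 1 u| ≤ 4 * K' * (1 / q) := by
      have := abs_le.1 hnear0; have := abs_le.1 hnear1
      refine (e7 (y b0) (y (b0 + 1)) (by linarith) hy01).trans ?_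
      have h8 : (y (b0 + 1) - y b0) + 1 / (q : ℝ) ≤ 4 := by linarith
      have h9 : 0 ≤ 1 / (q : ℝ) := by positivity
      calc K' * ((y (b0 + 1) - y b0) + 1 / (q : ℝ)) * (1 / q) ≤ K' * 4 * (1 / q) := by
            gcongr
        _ = _ := by ring
    have h8 : 0 ≤ ∫ x in Set.Ioc b0 (b0 + 1), |gg 1 (y x)| :=
      integral_nonneg fun x => abs_nonneg _
    nlinarith
  have k3 : |(∫ u in Set.Ioc (y b0) (y (b0 + 1)), F u) - ∫ u in Set.Ioc Y (Y + 1), F u| ≤
      2 * (3 * K' * lq) := by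
    have hB : ∀ c : ℝ, Y ≤ c → ∫ x in Set.Ioc (c - 1 / q) (c + 1 / q), |gg 1 x| ≤ 3 * K' * lq := by
      intro c hc
      refine (e7 (c - 1 / q) (c + 1 / q) (by linarith) (by linarith)).trans (le_of_eq ?_)
      rw [← hlqe]
      ring
    refine window_diff (G := fun x => |gg 1 x|) hFm hF1 hGm hG1 hFG (ε := 1 / q) ?_ ?_ hy01 (by linarith)
      (hB Y le_rfl) (hB (Y + 1) (by linarith))
    · rw [hY]; exact hnear0
    · have : Y + 1 = a * q + (b0 + 1) := by rw [hY]; ring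
      rw [this]; exact hnear1
  have k4 : |∫ u in Set.Ioc Y (Y + 1), F u| ≤ K * lq := by
    rw [← intervalIntegral.integral_of_le (by linarith)]
    exact hmain
  have k5 : 1 / (q : ℝ) * ∫ x in Set.Ioc b0 (b0 + 1), |F (y x)| ≤ 6 * K' * lq := by
    calc 1 / (q : ℝ) * ∫ x in Set.Ioc b0 (b0 + 1), |F (y x)| ≤
          1 / (q : ℝ) * (6 * K' * (1 / q)) := mul_le_mul_of_nonneg_left k2 hinv0.le
      _ = 6 * K' * (1 / (q : ℝ) * (1 / q)) := by ring
      _ = _ := by rw [hlqe]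
  have k6 := k1.trans k5
  rw [abs_le] at k3 k4 k6 ⊢
  constructor <;> nlinarith [mul_nonneg hK'.le hlq0]

/-- bounds for one index -/
lemma one1_sh {a : ℝ} (ha : 0 < a) (b0 : ℝ) : ∃ K : ℝ, 0 < K ∧ ∃ P : ℕ, 3 ≤ P ∧ ∀ m ≥ P,
    ∀ y y' : ℝ → ℝ, Sh a (b0 - 1) (b0 + 2) m y y' →
    (∀ t ∈ Set.Ioc b0 (b0 + 1), LL 1 (y t) ≤ K * (1 / m)) ∧
    (∫ t in Set.Ioc b0 (b0 + 1), ff 1 (y t) ≤ K * (1 / m)) ∧
    (∫ t in Set.Ioc b0 (b0 + 1), |gg 1 (y t)| ≤ K * (1 / m)) := by
  obtain ⟨K, hK, hev⟩ := boundsp (c := a / 2) (by positivity)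
  obtain ⟨K1, hK1, P1, h1⟩ := single1_sh ha (b0 - 1)
  refine ⟨K + 2 * K1 + 6 * K, by positivity, ?_⟩
  have hlarge : ∀ᶠ p : ℕ in atTop, (|b0| + 3) * 2 / a < p :=
    tendsto_natCast_atTop_atTop.eventually_gt_atTop _
  obtain ⟨P, hP⟩ := eventually_atTop.1 (hev.and (hlarge.and ((eventually_ge_atTop 3).and
    (eventually_ge_atTop P1))))
  refine ⟨P + 3, by omega, fun m hm y y' hSh => ?_⟩
  obtain ⟨⟨h2, _, h3⟩, h4, h5, h6⟩ := hP m (by omega)
  have hm3 : (3 : ℝ) ≤ m := by exact_mod_cast h5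
  have hm0 : (0 : ℝ) < m := by linarith
  have hw : 0 ≤ 1 / (m : ℝ) := by positivity
  have hinv : 1 / (m : ℝ) ≤ 1 / 3 := one_div_le_one_div_of_le (by norm_num) hm3
  have hinv0 : 0 < 1 / (m : ℝ) := by positivity
  rw [div_lt_iff₀ ha] at h4
  have hb0 := neg_abs_le b0
  have hylow : ∀ t ∈ Set.Icc b0 (b0 + 1), a / 2 * m + 2 ≤ y t := by
    intro t ht
    have := (abs_le.1 (hSh.near t ⟨by linarith [ht.1], by linarith [ht.2]⟩)).1
    linarith [ht.1]
  refine ⟨fun t ht => ?_, ?_, ?_⟩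
  · refine (h2 _ (by linarith [hylow t ⟨ht.1.le, ht.2⟩])).trans ?_
    have h0 : 0 ≤ K1 * (1 / m) := by positivity
    have h0' : 0 ≤ K * (1 / m) := by positivity
    linarith
  · refine (h1 m h6 (b0 + 2) y y' hSh b0 (b0 + 1) (by linarith) (by linarith) (by linarith)).trans ?_
    have h7 : (b0 + 1 - b0) + 1 / (m : ℝ) ≤ 2 := by linarith
    have h0 : 0 ≤ K * (1 / m) := by positivity
    calc K1 * ((b0 + 1 - b0) + 1 / m) * (1 / m) ≤ K1 * 2 * (1 / m) := by gcongr
      _ ≤ _ := by linarith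
  · have h7 := (hSh.cov h5 (s := b0) (t := b0 + 1) (by linarith) (by linarith) (by linarith)
      (F := fun x => |gg 1 x|) (measurable_gg 1).abs (fun x => abs_nonneg _)
      (fun x => abs_gg_le_one 1 x)).1
    have hn0 := abs_le.1 (hSh.near b0 ⟨by linarith, by linarith⟩)
    have hn1 := abs_le.1 (hSh.near (b0 + 1) ⟨by linarith, by linarith⟩)
    have h8 := h3 (y b0) (y (b0 + 1)) (by linarith [hylow b0 ⟨le_rfl, by linarith⟩]) (by linarith)
    have h9 : (y (b0 + 1) - y b0) + 1 / (m : ℝ) ≤ 4 := by linarith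
    have h10 : ∫ u in Set.Ioc (y b0) (y (b0 + 1)), |gg 1 u| ≤ K * 4 * (1 / m) := by
      refine h8.trans ?_
      gcongr
    have h11 : 0 ≤ ∫ x in Set.Ioc b0 (b0 + 1), |gg 1 (y x)| := integral_nonneg fun x => abs_nonneg _
    have h0 : 0 ≤ K1 * (1 / m) := by positivity
    have h12 : 0 ≤ K * (1 / m) := by positivity
    nlinarith

/-- reduction of the correlation to the joint event -/
lemma corr1_le {a : ℝ} (ha : 0 < a) (b0 : ℝ) : ∃ K : ℝ, 0 < K ∧ ∃ P : ℕ, 3 ≤ P ∧ ∀ p ≥ P, ∀ q ≥ P,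
    ∀ y y' z z' : ℝ → ℝ, Sh a (b0 - 1) (b0 + 2) p y y' → Sh a (b0 - 1) (b0 + 2) q z z' →
    |∫ t in Set.Ioc b0 (b0 + 1), gg 1 (y t) * gg 1 (z t)| ≤
      (∫ t in Set.Ioc b0 (b0 + 1), ff 1 (y t) * ff 1 (z t)) +
      K * ((1 / (p : ℝ)) * (1 / (q : ℝ))) := by
  obtain ⟨K, hK, P, hP3, hP⟩ := one1_sh ha b0
  refine ⟨3 * K ^ 2, by positivity, P, hP3, fun p hp q hq y y' z z' hy hz => ?_⟩
  obtain ⟨hp1, hp2, _⟩ := hP p hp y y' hy
  obtain ⟨hq1, hq2, _⟩ := hP q hq z z' hz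
  set I := Set.Ioc b0 (b0 + 1) with hI
  have hwp : 0 ≤ 1 / (p : ℝ) := by positivity
  have hwq : 0 ≤ 1 / (q : ℝ) := by positivity
  set wp := 1 / (p : ℝ) with hwpd
  set wq := 1 / (q : ℝ) with hwqd
  have hyc : AEMeasurable y (volume.restrict I) :=
    (hy.cont.mono (fun x hx => ⟨by linarith [hx.1], by linarith [hx.2]⟩)).aemeasurable measurableSet_Ioc
  have hzc : AEMeasurable z (volume.restrict I) :=
    (hz.cont.mono (fun x hx => ⟨by linarith [hx.1], by linarith [hx.2]⟩)).aemeasurable measurableSet_Ioc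
  have i1 : IntegrableOn (fun t => ff 1 (y t)) I :=
    int_comp hy (by linarith) (by linarith) (measurable_ff 1) (abs_ff_le_one 1)
  have i2 : IntegrableOn (fun t => ff 1 (z t)) I :=
    int_comp hz (by linarith) (by linarith) (measurable_ff 1) (abs_ff_le_one 1)
  have i3 : IntegrableOn (fun t => ff 1 (y t) * ff 1 (z t)) I := by
    refine Integrable.of_bound (((measurable_ff 1).comp_aemeasurable hyc).mul
      ((measurable_ff 1).comp_aemeasurable hzc)).aestronglyMeasurable 1 ?_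
    refine Eventually.of_forall fun t => ?_
    rw [Real.norm_eq_abs, abs_mul]
    exact mul_le_one₀ (abs_ff_le_one 1 _) (abs_nonneg _) (abs_ff_le_one 1 _)
  have i4 : IntegrableOn (fun t => |gg 1 (y t) * gg 1 (z t)|) I := by
    refine Integrable.abs ?_
    refine Integrable.of_bound (((measurable_gg 1).comp_aemeasurable hyc).mul
      ((measurable_gg 1).comp_aemeasurable hzc)).aestronglyMeasurable 1 ?_
    refine Eventually.of_forall fun t => ?_
    rw [Real.norm_eq_abs, abs_mul]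
    exact mul_le_one₀ (abs_gg_le_one 1 _) (abs_nonneg _) (abs_gg_le_one 1 _)
  have i5 : IntegrableOn (fun _ : ℝ => K * wp * (K * wq)) I := integrableOn_const (by simp [hI])
  have i6 : IntegrableOn (fun t : ℝ => K * wq * ff 1 (y t)) I := i1.const_mul _
  have i7 : IntegrableOn (fun t : ℝ => K * wp * ff 1 (z t)) I := i2.const_mul _
  have i8 : IntegrableOn (fun t : ℝ => K * wq * ff 1 (y t) + K * wp * ff 1 (z t)) I := i6.add i7
  have i9 : IntegrableOn (fun t : ℝ => K * wq * ff 1 (y t) + K * wp * ff 1 (z t) +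
      K * wp * (K * wq)) I := i8.add i5
  have i10 : IntegrableOn (fun t : ℝ => ff 1 (y t) * ff 1 (z t) +
      (K * wq * ff 1 (y t) + K * wp * ff 1 (z t) + K * wp * (K * wq))) I := i3.add i9
  calc |∫ t in I, gg 1 (y t) * gg 1 (z t)| ≤ ∫ t in I, |gg 1 (y t) * gg 1 (z t)| := by
        have := norm_integral_le_integral_norm (μ := volume.restrict I)
          (fun t => gg 1 (y t) * gg 1 (z t))
        simpa [Real.norm_eq_abs] using this
    _ ≤ ∫ t in I, (ff 1 (y t) * ff 1 (z t) +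
      (K * wq * ff 1 (y t) + K * wp * ff 1 (z t) + K * wp * (K * wq))) := by
        refine setIntegral_mono_on i4 i10 measurableSet_Ioc fun t ht => ?_
        rw [abs_mul]
        have h1 := abs_gg_le 1 (y t)
        have h2 := abs_gg_le 1 (z t)
        have h3 := hp1 t ht
        have h4 := hq1 t ht
        have h5 := ff_nonneg 1 (y t)
        have h6 := ff_nonneg 1 (z t)
        have h7 := LL_nonneg 1 (y t)
        have h8 := LL_nonneg 1 (z t)
        have h9 : |gg 1 (y t)| ≤ ff 1 (y t) + K * wp := by linarith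
        have h10 : |gg 1 (z t)| ≤ ff 1 (z t) + K * wq := by linarith
        calc |gg 1 (y t)| * |gg 1 (z t)| ≤ (ff 1 (y t) + K * wp) * (ff 1 (z t) + K * wq) :=
              mul_le_mul h9 h10 (abs_nonneg _) (by positivity)
          _ = _ := by ring
    _ = (∫ t in I, ff 1 (y t) * ff 1 (z t)) +
        (K * wq * (∫ t in I, ff 1 (y t)) + K * wp * (∫ t in I, ff 1 (z t)) + K * wp * (K * wq)) := by
        rw [integral_add i3 i9, integral_add i8 i5, integral_add i6 i7,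
          integral_const_mul, integral_const_mul, setIntegral_const, hI,
          Real.volume_real_Ioc_of_le (by linarith)]
        simp
    _ ≤ (∫ t in I, ff 1 (y t) * ff 1 (z t)) +
        (K * wq * (K * wp) + K * wp * (K * wq) + K * wp * (K * wq)) := by
        gcongr
    _ = _ := by ring

/-- pairs with `2 p ≤ q` -/
lemma mid1_sh {a : ℝ} (ha : 0 < a) (b0 : ℝ) : ∃ K : ℝ, 0 < K ∧ ∃ P : ℕ, ∀ p ≥ P, ∀ q : ℕ, 2 * p ≤ q →
    ∀ y y' z z' : ℝ → ℝ, Sh a (b0 - 1) (b0 + 2) p y y' → Sh a (b0 - 1) (b0 + 2) q z z' →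
    |∫ t in Set.Ioc b0 (b0 + 1), gg 1 (y t) * gg 1 (z t)| ≤
      K * ((1 / (p : ℝ)) * (1 / (q : ℝ))) := by
  obtain ⟨K1, hK1, P1, hP13, h1⟩ := corr1_le ha b0
  obtain ⟨K2, hK2, P2, h2⟩ := pair1_bound_sh (a := a) (a0 := b0 - 1) (a1 := b0 + 2)
    (b0 := b0) (b1 := b0 + 1) ha (by linarith) (by linarith)
  refine ⟨K1 + 4 * K2, by positivity, ?_⟩
  have hgap : ∀ᶠ q : ℕ in atTop, 128 / a ≤ (q : ℝ) :=
    tendsto_natCast_atTop_atTop.eventually_ge_atTop _
  obtain ⟨P3, hP3⟩ := eventually_atTop.1 hgap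
  refine ⟨P1 + P2 + P3 + 1, fun p hp q hpq y y' z z' hy hz => ?_⟩
  have hp1 : (1 : ℝ) ≤ p := by exact_mod_cast (by omega : 1 ≤ p)
  have hpq' : 2 * (p : ℝ) ≤ q := by exact_mod_cast hpq
  have h3 := h2 p q (by omega) (by omega) _ _ _ _ hy hz (by
    have h128 := hP3 q (by omega)
    have e : 128 / a = 2 * (64 / a) := by ring
    linarith) b0 (b0 + 1) le_rfl (by linarith) le_rfl
  have h4 := h1 p (by omega) q (by omega) y y' z z' hy hz
  have hwp : 0 ≤ 1 / (p : ℝ) := by positivity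
  have hq0 : (0 : ℝ) < q := by linarith
  have h5 : K2 * ((b0 + 1 - b0) + 1 / (p : ℝ)) * (1 / (p : ℝ)) * (1 / ((q : ℝ) - p)) ≤
      4 * K2 * ((1 / (p : ℝ)) * (1 / (q : ℝ))) := by
    have h6 : (b0 + 1 - b0) + 1 / (p : ℝ) ≤ 2 := by
      have : 1 / (p : ℝ) ≤ 1 := by rw [div_le_one (by linarith)]; exact hp1
      linarith
    have h7 : 1 / ((q : ℝ) - p) ≤ 2 * (1 / (q : ℝ)) := by
      calc 1 / ((q : ℝ) - p) ≤ 1 / ((q : ℝ) / 2) :=
            div_le_div_of_nonneg_left zero_le_one (by positivity) (by linarith)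
        _ = _ := by field_simp
    have h8 : 0 ≤ 1 / ((q : ℝ) - p) := div_nonneg zero_le_one (by linarith)
    calc K2 * ((b0 + 1 - b0) + 1 / (p : ℝ)) * (1 / (p : ℝ)) * (1 / ((q : ℝ) - p)) ≤
          K2 * 2 * (1 / (p : ℝ)) * (2 * (1 / (q : ℝ))) := by gcongr
      _ = _ := by ring
  calc _ ≤ _ := h4
    _ ≤ 4 * K2 * ((1 / (p : ℝ)) * (1 / (q : ℝ))) + K1 * ((1 / (p : ℝ)) * (1 / (q : ℝ))) := by
        linarith
    _ = _ := by ring

end Pool.Agent.L5helper55.AL
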