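import Pool.Agent.L5helper55.AL.C
import Pool.Agent.W66.GE

set_option autoImplicit false

/-!
# Near pairs of genuine primes for a base without multiplicative coincidences
-/

namespace Pool.Agent.L5helper55.AL

open Finset MeasureTheory Filter Topology
open Pool.Agent.W66 (NN_bounds exp_small)
open Pool.Agent.W66X (ysh measurable_ysh pert8 exp_ysh exp_consts)
open Pool.Agent.W66V (joint_sift_log corr_lin Z32 Z32_nonneg size_exp err_bound sh_range)
open Pool.Agent.H305R2 (roughPart NN ff measurable_NN measurable_ff ff_nonneg ff_le_one)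
open Pool.Agent.H447R2.ML (Sh sh_of)

/-- primes have no small prime factors -/
lemma no_small {y z : ℝ} (hN : (NN y).Prime) (hz : z < (NN y : ℝ)) {l : ℕ} (hl : l.Prime)
    (hlz : (l : ℝ) ≤ z) : ¬ l ∣ NN y := by
  intro h
  rcases (Nat.dvd_prime hN).1 h with h1 | h1
  · exact hl.one_lt.ne' h1
  · rw [h1] at hlz
    linarith

open Classical in
/-- the sieve bound in one window -/
theorem near1_window {α κ C A : ℝ} (hα : 1 < α) (hκ0 : 0 ≤ κ) (hκ : κ < α) {g : ℕ → ℝ}
    (hg : ∀ p, |g p| ≤ C * κ ^ p) (hA : 1 ≤ A) (hAα : A < α)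
    (hdio : ∀ h a b : ℕ, 1 ≤ h → 1 ≤ a → 1 ≤ b → 1 ≤ |(a : ℝ) - b * α ^ h| * (A ^ h * (a + b)))
    (b0 : ℝ) : ∃ K : ℝ, 0 < K ∧ ∀ᶠ p : ℕ in atTop, ∀ h : ℕ, 1 ≤ h → h ≤ p → ∀ Y : ℝ,
      Real.log α * p + (b0 - 1 / 2) ≤ Y →
      ∫ y in Set.Ioc Y (Y + 1), (if (NN y).Prime ∧
        (NN (Real.log (α ^ h * Real.exp y + (g (p + h) - α ^ h * g p)))).Prime then (1 : ℝ) else 0) ≤
        K * (1 / (p : ℝ)) ^ 2 := by
  have hα0 : 0 < α := by linarith
  set L := Real.log α with hL
  have hLpos : 0 < L := Real.log_pos hα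
  set δ := L - Real.log A with hδ
  have hA0 : 0 < A := by linarith
  have hδ0 : 0 < δ := by
    have := Real.log_lt_log hA0 hAα
    rw [hδ]; linarith
  have hlA : 0 ≤ Real.log A := Real.log_nonneg hA
  have hδL : δ ≤ L := by rw [hδ]; linarith
  have hpert := pert8 hα0 hκ0 hκ hg (b0 - 1) 8
  obtain ⟨P2, hP2⟩ := eventually_atTop.1 hpert
  have hsm : ∀ᶠ p : ℕ in atTop, Real.exp (-(17 * δ / 64 * p)) ≤ (1 / (p : ℝ)) ^ 2 := by
    have h0 : Tendsto (fun Z : ℝ => 17 * δ / 64 * Z) atTop atTop :=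
      tendsto_id.const_mul_atTop (by positivity)
    have h1 := (Real.tendsto_pow_mul_exp_neg_atTop_nhds_zero 2).comp h0
    have h2 : ∀ᶠ Z : ℝ in atTop, (17 * δ / 64 * Z) ^ 2 * Real.exp (-(17 * δ / 64 * Z)) <
        (17 * δ / 64) ^ 2 := h1.eventually_lt_const (by positivity)
    have h3 : ∀ᶠ Z : ℝ in atTop, Real.exp (-(17 * δ / 64 * Z)) ≤ (1 / Z) ^ 2 := by
      filter_upwards [h2, eventually_gt_atTop 0] with Z h3 h4
      rw [mul_pow] at h3
      have h5 : (17 * δ / 64) ^ 2 * (Z ^ 2 * Real.exp (-(17 * δ / 64 * Z))) < (17 * δ / 64) ^ 2 * 1 := by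
        linarith
      have h6 := lt_of_mul_lt_mul_left h5 (by positivity)
      rw [one_div, inv_pow, ← one_div, le_div_iff₀ (by positivity)]
      linarith
    exact tendsto_natCast_atTop_atTop.eventually h3
  have hlarge : ∀ᶠ p : ℕ in atTop, (|b0| + 4) * 64 / (47 * L) < p :=
    tendsto_natCast_atTop_atTop.eventually_gt_atTop _
  set a := (Z32 + 2) ^ 2 * Real.exp (-(b0 - 1 / 2) / 2) with ha
  have hZ0 := Z32_nonneg
  have ha0 : 0 < a := by positivity
  refine ⟨4 * (128 / δ) ^ 2 + a, by positivity, ?_⟩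
  filter_upwards [hsm, hlarge, eventually_ge_atTop P2, eventually_ge_atTop 2]
    with p hsmp hpl hpP2 hp2 h hh1 hhp Y hY
  have hp2' : (2 : ℝ) ≤ p := by exact_mod_cast hp2
  have hp0 : (0 : ℝ) < p := by linarith
  have hb0abs := neg_abs_le b0
  have hb0abs' := le_abs_self b0
  have hbn := abs_nonneg b0
  rw [div_lt_iff₀ (by positivity)] at hpl
  set q := p + h with hq
  have hqr : (q : ℝ) = p + h := by rw [hq]; push_cast; rfl
  have hh0 : (0 : ℝ) ≤ h := Nat.cast_nonneg _
  set β := α ^ h with hβ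
  have hβ1 : 1 ≤ β := one_le_pow₀ hα.le
  have hβ0 : 0 < β := by linarith
  have hβe : β = Real.exp (L * h) := by
    rw [hβ, hL, mul_comm, Real.exp_nat_mul, Real.exp_log hα0]
  set κ' := g q - β * g p with hκ'
  set E0 := Real.exp (L * p + (b0 - 1)) with hE0
  have hE0pos : 0 < E0 := Real.exp_pos _
  have hkb : |κ'| ≤ β * E0 / 4 := by
    have h1 := hP2 p hpP2
    have h2 := hP2 q (by omega)
    push_cast at h1 h2
    have h3 : Real.exp (L * q + (b0 - 1)) = β * E0 := by
      rw [hβe, hE0, ← Real.exp_add, hqr]; ring_nf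
    have h2' : |g q| ≤ β * E0 / 8 := by
      rw [← h3]; linarith
    have h4 : β * |g p| ≤ β * (E0 / 8) := mul_le_mul_of_nonneg_left (by linarith) hβ0.le
    calc |κ'| ≤ |g q| + |β * g p| := abs_sub _ _
      _ = |g q| + β * |g p| := by rw [abs_mul, abs_of_pos hβ0]
      _ ≤ _ := by linarith
  have hEY : E0 ≤ Real.exp Y := Real.exp_le_exp.2 (by linarith)
  have hY0 : 0 ≤ Y := by
    have : (|b0| + 4) * 64 < p * (47 * L) := hpl
    have h1 : 0 < L * p := by positivity
    linarith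
  have hX1 : 1 ≤ Real.exp Y := Real.one_le_exp hY0
  -- the sieve level
  set R := ⌊Real.exp (δ * p / 64)⌋₊ with hR
  have hexp1 : 1 ≤ Real.exp (δ * p / 64) := Real.one_le_exp (by positivity)
  have hR1 : 1 ≤ R := by rw [hR, Nat.one_le_floor_iff]; exact hexp1
  have hRle : (R : ℝ) ≤ Real.exp (δ * p / 64) := Nat.floor_le (Real.exp_pos _).le
  have hRgt : Real.exp (δ * p / 64) ≤ R + 1 := (Nat.lt_floor_add_one _).le
  have hRz : (R : ℝ) ≤ Real.exp (L * p / 64) := by
    refine hRle.trans (Real.exp_le_exp.2 ?_)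
    have := mul_le_mul_of_nonneg_right hδL hp0.le
    linarith
  set ε := (((R ^ 2 : ℕ) : ℝ) * (Z32 + 2)) ^ 2 *
      Real.sqrt (A ^ h * ((R ^ 2 : ℕ) : ℝ) ^ 3 / Real.exp Y) with hε
  have hε0 : 0 ≤ ε := by positivity
  set f : ℝ → ℝ := fun y => if (NN y).Prime ∧ (NN (Real.log (β * Real.exp y + κ'))).Prime then (1 : ℝ)
    else 0 with hf
  have hAh : 1 ≤ A ^ h := one_le_pow₀ hA
  have hprm : MeasurableSet {y : ℝ | (NN y).Prime} := by
    have h : {y : ℝ | (NN y).Prime} = NN ⁻¹' {N : ℕ | N.Prime} := rfl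
    rw [h]
    exact measurable_NN (MeasurableSet.of_discrete)
  have hmeas : Measurable f := by
    refine Measurable.ite ?_ measurable_const measurable_const
    refine hprm.inter ?_
    have h1 : Measurable (fun y : ℝ => Real.log (β * Real.exp y + κ')) :=
      Real.measurable_log.comp ((Real.measurable_exp.const_mul _).add_const _)
    exact h1 hprm
  obtain ⟨J, hJ0, hJ1, hJ2⟩ := joint_sift_log (R := R) (M := 1) hR1 one_ne_zero (ε := ε) (Y := Y) hε0
    (ψ := fun x => β * x + κ') (by fun_prop)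
    (fun D E hD hD2 hE hE2 => corr_lin (Q := R ^ 2) (A := A ^ h) (β := β) (κ := κ') (X := Real.exp Y)
      (Nat.one_le_pow _ _ hR1) hAh hβ1 hX1 (fun a b ha hb => hdio h a b hh1 ha hb) hD hD2 hE hE2)
    (f := f)
    (by
      refine Measure.integrableOn_of_bounded (M := 1) (by simp) hmeas.aestronglyMeasurable ?_
      refine Eventually.of_forall fun y => ?_
      simp only [hf]
      split_ifs <;> simp)
    (fun y _ => by simp only [hf]; split_ifs <;> norm_num)
    (by
      intro y hy hfy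
      have hgd : (NN y).Prime ∧ (NN (Real.log (β * Real.exp y + κ'))).Prime := by
        by_contra hc
        simp only [hf] at hfy
        rw [if_neg hc] at hfy
        exact lt_irrefl _ hfy
      obtain ⟨g1, g3⟩ := hgd
      have hyY : Real.exp Y < Real.exp y := Real.exp_lt_exp.2 hy.1
      have hpos : 3 / 4 * (β * Real.exp y) ≤ β * Real.exp y + κ' := by
        have h1 := (abs_le.1 hkb).1
        have h2 : β * E0 ≤ β * Real.exp y := mul_le_mul_of_nonneg_left (by linarith) hβ0.le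
        linarith
      have hψ0 : 0 < β * Real.exp y + κ' := by
        have := mul_pos hβ0 (Real.exp_pos y)
        linarith
      obtain ⟨n1, n2⟩ := NN_bounds y
      obtain ⟨n3, n4⟩ := NN_bounds (Real.log (β * Real.exp y + κ'))
      rw [Real.exp_log hψ0] at n3 n4
      refine ⟨NN y, NN (Real.log (β * Real.exp y + κ')), n1, n2, n3, n4, fun l hl hlR _ => ?_⟩
      have hlz : (l : ℝ) ≤ Real.exp (L * p / 64) := by
        have : (l : ℝ) ≤ R := by exact_mod_cast hlR
        linarith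
      have hpl' : L * p / 64 + 3 ≤ Y := by
        have : (|b0| + 4) * 64 < p * (47 * L) := hpl
        have h1 : 0 < L * p := by positivity
        linarith
      constructor
      · refine no_small g1 ?_ hl hlz
        have h1 := size_exp (u := L * p / 64) (v := Y) (by positivity) (by linarith)
        linarith [Real.exp_pos Y]
      · refine no_small g3 ?_ hl hlz
        have h1 := size_exp (u := L * p / 64) (v := L * h + Y) (by positivity) (by
          have : 0 ≤ L * h := by positivity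
          linarith)
        rw [Real.exp_add (L * h) Y, ← hβe] at h1
        have h2 : β * Real.exp Y < β * Real.exp y := mul_lt_mul_of_pos_left hyY hβ0
        linarith)
  refine hJ2.trans ?_
  have hm : 4 / J ^ 2 ≤ 4 * (128 / δ) ^ 2 * (1 / (p : ℝ)) ^ 2 := by
    have h1 : δ * p / 64 ≤ Real.log (R + 1) := by
      rw [Real.le_log_iff_exp_le (by positivity)]; exact hRgt
    have h2 : δ * p / 64 ≤ 2 * J := by
      have h3 : (2 : ℝ) * (((1 : ℕ) : ℝ) / ((Nat.totient 1 : ℕ) : ℝ)) * J = 2 * J := by simp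
      rw [h3] at hJ1
      linarith
    have h3 : 1 / J ≤ 128 / δ * (1 / p) := by
      rw [div_mul_div_comm, mul_one, div_le_div_iff₀ hJ0 (by positivity)]
      linarith
    calc 4 / J ^ 2 = 4 * (1 / J) ^ 2 := by ring
      _ ≤ 4 * (128 / δ * (1 / p)) ^ 2 := by gcongr
      _ = _ := by ring
  have he := err_bound (R := R) (Z := Z32) (δ := δ) (L := L) (a := a) (c := b0 - 1 / 2) (Y := Y) (A := A)
    (p := p) (h := h) hA (by rw [hδ]; ring) hRle hhp (by linarith) hZ0 ha
  have he2 : (R : ℝ) ^ 8 * ε ≤ a * (1 / (p : ℝ)) ^ 2 :=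
    he.trans (mul_le_mul_of_nonneg_left hsmp ha0.le)
  calc 4 / J ^ 2 + (R : ℝ) ^ 8 * ε ≤ 4 * (128 / δ) ^ 2 * (1 / (p : ℝ)) ^ 2 +
        a * (1 / (p : ℝ)) ^ 2 := add_le_add hm he2
    _ = _ := by ring

/-- **Near pairs.** -/
theorem near1_irr {α κ C A : ℝ} (hα : 1 < α) (hκ0 : 0 ≤ κ) (hκ : κ < α) {g : ℕ → ℝ}
    (hg : ∀ p, |g p| ≤ C * κ ^ p) (hA : 1 ≤ A) (hAα : A < α)
    (hdio : ∀ h a b : ℕ, 1 ≤ h → 1 ≤ a → 1 ≤ b → 1 ≤ |(a : ℝ) - b * α ^ h| * (A ^ h * (a + b)))
    (b0 : ℝ) : ∃ K : ℝ, 0 < K ∧ ∃ P : ℕ, ∀ p ≥ P, ∀ q : ℕ, p < q →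
    q ≤ 2 * p → ∫ t in Set.Ioc b0 (b0 + 1), ff 1 (ysh α g p t) * ff 1 (ysh α g q t) ≤
      K * (1 / (p : ℝ)) ^ 2 := by
  classical
  have hα0 : 0 < α := by linarith
  set L := Real.log α with hL
  have hLpos : 0 < L := Real.log_pos hα
  obtain ⟨K1, hK1, hW⟩ := near1_window hα hκ0 hκ hg hA hAα hdio b0
  have hsh := sh_of hα0 hκ0 hκ hg b0 (b0 + 1)
  have hpert := pert8 hα0 hκ0 hκ hg b0 8
  obtain ⟨P, hP⟩ := eventually_atTop.1 (hW.and (hsh.and (hpert.and (eventually_ge_atTop 3))))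
  refine ⟨4 * K1, by positivity, P, fun p hp q hpq hq2 => ?_⟩
  obtain ⟨hWp, hshp, hpp, hp3⟩ := hP p hp
  obtain ⟨h, rfl⟩ : ∃ h, q = p + h := ⟨q - p, by omega⟩
  have hh1 : 1 ≤ h := by omega
  have hhp : h ≤ p := by omega
  have hp3' : (3 : ℝ) ≤ p := by exact_mod_cast hp3
  have hp0 : (0 : ℝ) < p := by linarith
  have hprm : MeasurableSet {y : ℝ | (NN y).Prime} := by
    have h : {y : ℝ | (NN y).Prime} = NN ⁻¹' {N : ℕ | N.Prime} := rfl
    rw [h]
    exact measurable_NN (MeasurableSet.of_discrete)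
  set G : ℝ → ℝ := fun y => if (NN y).Prime ∧
    (NN (Real.log (α ^ h * Real.exp y + (g (p + h) - α ^ h * g p)))).Prime then (1 : ℝ) else 0 with hG
  have hGm : Measurable G := by
    refine Measurable.ite ?_ measurable_const measurable_const
    refine hprm.inter ?_
    have h1 : Measurable (fun y : ℝ => Real.log (α ^ h * Real.exp y + (g (p + h) - α ^ h * g p))) :=
      Real.measurable_log.comp ((Real.measurable_exp.const_mul _).add_const _)
    exact h1 hprm
  have hG0 : ∀ y, 0 ≤ G y := fun y => by simp only [hG]; split_ifs <;> norm_num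
  have hG1 : ∀ y, G y ≤ 1 := fun y => by simp only [hG]; split_ifs <;> norm_num
  -- the relation between the two phases
  have hrel : ∀ t ∈ Set.Ioc b0 (b0 + 1), ysh α g (p + h) t =
      Real.log (α ^ h * Real.exp (ysh α g p t) + (g (p + h) - α ^ h * g p)) := by
    intro t ht
    rw [(exp_ysh hα0 hpp ht.1.le).1]
    unfold ysh
    congr 1
    rw [pow_add]
    ring
  have hpt : ∀ t ∈ Set.Ioc b0 (b0 + 1), ff 1 (ysh α g p t) * ff 1 (ysh α g (p + h) t) ≤
      G (ysh α g p t) := by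
    intro t ht
    have e3 := hG0 (ysh α g p t)
    unfold ff
    by_cases h1 : (NN (ysh α g p t)).Prime
    · by_cases h2 : (NN (ysh α g (p + h) t)).Prime
      · rw [if_pos ((rp1_prime _).2 h1), if_pos ((rp1_prime _).2 h2), mul_one]
        rw [hrel t ht] at h2
        have : G (ysh α g p t) = 1 := by simp only [hG]; rw [if_pos ⟨h1, h2⟩]
        linarith
      · rw [if_neg (fun h' => h2 ((rp1_prime _).1 h')), mul_zero]; linarith
    · rw [if_neg (fun h' => h1 ((rp1_prime _).1 h')), zero_mul]; linarith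
  have hmy : ∀ m : ℕ, Measurable (fun t => ff 1 (ysh α g m t)) := fun m =>
    (measurable_ff 1).comp (measurable_ysh _ _ _)
  have hint1 : IntegrableOn (fun t : ℝ => ff 1 (ysh α g p t) * ff 1 (ysh α g (p + h) t))
      (Set.Ioc b0 (b0 + 1)) := by
    refine Measure.integrableOn_of_bounded (M := 1) (by simp) ((hmy p).mul (hmy (p + h))).aestronglyMeasurable ?_
    refine Eventually.of_forall fun t => ?_
    have h1 := ff_nonneg 1 (ysh α g p t)
    have h2 := ff_nonneg 1 (ysh α g (p + h) t)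
    have h3 := ff_le_one 1 (ysh α g p t)
    have h4 := ff_le_one 1 (ysh α g (p + h) t)
    rw [Real.norm_eq_abs, abs_of_nonneg (mul_nonneg h1 h2)]
    exact mul_le_one₀ h3 h2 h4
  have hiG : IntegrableOn (fun t : ℝ => G (ysh α g p t)) (Set.Ioc b0 (b0 + 1)) := by
    refine Measure.integrableOn_of_bounded (M := 1) (by simp)
      (hGm.comp (measurable_ysh _ _ _)).aestronglyMeasurable ?_
    refine Eventually.of_forall fun t => ?_
    rw [Real.norm_eq_abs, abs_of_nonneg (hG0 _)]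
    exact hG1 _
  have hstep := setIntegral_mono_on hint1 hiG measurableSet_Ioc hpt
  -- the main part
  set Y := L * p + (b0 - 1 / 2) with hY
  have hrange := sh_range hshp hp3
  have hw1 := hWp h hh1 hhp Y le_rfl
  have hw2 := hWp h hh1 hhp (Y + 1) (by linarith)
  have hcov := (Sh.cov hshp hp3 (s := b0) (t := b0 + 1) le_rfl (by linarith) le_rfl
      (F := G) hGm hG0 hG1).1
  have hGint : ∀ u v : ℝ, IntegrableOn G (Set.Ioc u v) := by
    intro u v
    refine Measure.integrableOn_of_bounded (M := 1) (by simp) hGm.aestronglyMeasurable ?_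
    refine Eventually.of_forall fun t => ?_
    rw [Real.norm_eq_abs, abs_of_nonneg (hG0 _)]
    exact hG1 _
  have hmain : ∫ u in Set.Ioc (ysh α g p b0) (ysh α g p (b0 + 1)), G u ≤ 2 * K1 * (1 / (p : ℝ)) ^ 2 := by
    have r1 := (hrange b0 ⟨le_rfl, by linarith⟩).1
    have r2 := (hrange (b0 + 1) ⟨by linarith, le_rfl⟩).2
    have r1' : Y < ysh α g p b0 := r1
    have r2' : ysh α g p (b0 + 1) ≤ Y + 2 := r2
    have hsub : Set.Ioc (ysh α g p b0) (ysh α g p (b0 + 1)) ⊆ Set.Ioc Y (Y + 1) ∪ Set.Ioc (Y + 1) (Y + 1 + 1) := by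
      intro u hu
      rcases le_or_gt u (Y + 1) with hc | hc
      · exact Or.inl ⟨by linarith [hu.1], hc⟩
      · exact Or.inr ⟨hc, by linarith [hu.2]⟩
    calc ∫ u in Set.Ioc (ysh α g p b0) (ysh α g p (b0 + 1)), G u ≤
          ∫ u in Set.Ioc Y (Y + 1) ∪ Set.Ioc (Y + 1) (Y + 1 + 1), G u := by
          refine setIntegral_mono_set ((hGint _ _).union (hGint _ _)) ?_ ?_
          · exact Eventually.of_forall hG0
          · exact (HasSubset.Subset.eventuallyLE hsub)
      _ = (∫ u in Set.Ioc Y (Y + 1), G u) + ∫ u in Set.Ioc (Y + 1) (Y + 1 + 1), G u := by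
          refine setIntegral_union ?_ measurableSet_Ioc (hGint _ _) (hGint _ _)
          rw [Set.disjoint_left]
          intro u hu1 hu2
          exact absurd hu1.2 (not_le.2 hu2.1)
      _ ≤ K1 * (1 / (p : ℝ)) ^ 2 + K1 * (1 / (p : ℝ)) ^ 2 := add_le_add hw1 hw2
      _ = _ := by ring
  have hGnn : 0 ≤ ∫ t in Set.Ioc b0 (b0 + 1), G (ysh α g p t) := integral_nonneg fun t => hG0 _
  have h4 : 1 / (p : ℝ) ≤ 1 / 2 := one_div_le_one_div_of_le (by norm_num) (by linarith)
  have h5 := mul_le_mul_of_nonneg_right (show 1 / 2 ≤ 1 - 1 / (p : ℝ) by linarith) hGnn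
  have h6 : (1 - 1 / (p : ℝ)) * ∫ t in Set.Ioc b0 (b0 + 1), G (ysh α g p t) ≤ 2 * K1 * (1 / (p : ℝ)) ^ 2 :=
    le_trans hcov hmain
  calc _ ≤ ∫ t in Set.Ioc b0 (b0 + 1), G (ysh α g p t) := hstep
    _ ≤ _ := by linarith

end Pool.Agent.L5helper55.AL
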