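import Mathlib
import Pool.Agent.TH888.R.Blk

set_option autoImplicit false

/-!
# Systems of nearly independent events indexed by all positive integers, with weights `1 / q`
-/

namespace Pool.Agent.L5helper55.AL

open Finset Filter Topology MeasureTheory
open Pool.Agent.TH888.R (gr one_le_gr gr_mono gr_le blocks)

section

variable {α : Type*} [MeasurableSpace α] {μ : Measure α} [IsFiniteMeasure μ]
  {G : ℕ → α → ℝ} (hm : ∀ p, Measurable (G p)) (hb : ∀ p x, |G p x| ≤ 1)
include hm hb

lemma prod_int (p q : ℕ) : Integrable (fun x => G p x * G q x) μ := by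
  refine Integrable.of_bound ((hm p).mul (hm q)).aestronglyMeasurable 1 (Eventually.of_forall fun x => ?_)
  rw [Real.norm_eq_abs, abs_mul]
  have h1 := hb p x
  have h2 := hb q x
  have h3 := abs_nonneg (G p x)
  have h4 := abs_nonneg (G q x)
  nlinarith

/-- second moment from the row sums of the correlation matrix -/
lemma moment_rows (T : Finset ℕ) : ∫ x, (∑ p ∈ T, G p x) ^ 2 ∂μ ≤
    ∑ q ∈ T, ((∫ x, (G q x) ^ 2 ∂μ) + 2 * ∑ p ∈ T.filter (fun p => p < q), |∫ x, G p x * G q x ∂μ|) := by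
  have e1 : ∀ x, (∑ p ∈ T, G p x) ^ 2 = ∑ p ∈ T, ∑ q ∈ T, G p x * G q x := by
    intro x
    rw [sq, Finset.sum_mul_sum]
  simp only [e1]
  rw [integral_finsetSum _ (fun p _ => integrable_finsetSum _ (fun q _ => prod_int hm hb p q))]
  have e2 : ∀ p ∈ T, ∫ x, ∑ q ∈ T, G p x * G q x ∂μ = ∑ q ∈ T, ∫ x, G p x * G q x ∂μ := by
    intro p _
    rw [integral_finsetSum _ (fun q _ => prod_int hm hb p q)]
  rw [Finset.sum_congr rfl e2]
  set J : ℕ → ℕ → ℝ := fun p q => ∫ x, G p x * G q x ∂μ with hJ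
  have hsymm : ∀ p q, J p q = J q p := by
    intro p q
    simp only [hJ]
    congr 1
    ext x
    ring
  have hdiag : ∀ q, ∫ x, (G q x) ^ 2 ∂μ = J q q := by
    intro q
    simp only [hJ, sq]
  have hsplit : ∀ p q, J p q ≤ (if p = q then J q q else 0) + (if p < q then |J p q| else 0) +
      (if q < p then |J q p| else 0) := by
    intro p q
    rcases lt_trichotomy p q with h | h | h
    · rw [if_neg h.ne, if_pos h, if_neg (by omega)]
      have := le_abs_self (J p q)
      linarith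
    · subst h
      simp
    · rw [if_neg h.ne', if_neg (by omega), if_pos h, hsymm p q]
      have := le_abs_self (J q p)
      linarith
  calc ∑ p ∈ T, ∑ q ∈ T, J p q ≤ ∑ p ∈ T, ∑ q ∈ T, ((if p = q then J q q else 0) +
        (if p < q then |J p q| else 0) + (if q < p then |J q p| else 0)) :=
        Finset.sum_le_sum fun p _ => Finset.sum_le_sum fun q _ => hsplit p q
    _ = ∑ q ∈ T, J q q + 2 * ∑ q ∈ T, ∑ p ∈ T.filter (fun p => p < q), |J p q| := by
        have h1 : ∑ p ∈ T, ∑ q ∈ T, (if p = q then J q q else 0) = ∑ q ∈ T, J q q := by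
          refine Finset.sum_congr rfl fun p hp => ?_
          rw [Finset.sum_ite_eq, if_pos hp]
        have h2 : ∑ p ∈ T, ∑ q ∈ T, (if p < q then |J p q| else 0) =
            ∑ q ∈ T, ∑ p ∈ T.filter (fun p => p < q), |J p q| := by
          rw [Finset.sum_comm]
          refine Finset.sum_congr rfl fun q _ => ?_
          rw [Finset.sum_filter]
        have h3 : ∑ p ∈ T, ∑ q ∈ T, (if q < p then |J q p| else 0) =
            ∑ q ∈ T, ∑ p ∈ T.filter (fun p => p < q), |J p q| := by
          refine Finset.sum_congr rfl fun q _ => ?_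
          rw [Finset.sum_filter]
        simp only [Finset.sum_add_distrib]
        rw [h1, h2, h3]
        ring
    _ = ∑ q ∈ T, (J q q + 2 * ∑ p ∈ T.filter (fun p => p < q), |J p q|) := by
        rw [Finset.sum_add_distrib, Finset.mul_sum]
    _ = _ := by
        refine Finset.sum_congr rfl fun q _ => ?_
        rw [hdiag q]

end

/-- the weight of an index -/
noncomputable def w1 (q : ℕ) : ℝ := 1 / (q : ℝ)

lemma w1_nonneg (q : ℕ) : 0 ≤ w1 q := by unfold w1; positivity

lemma w1_le_one (q : ℕ) : w1 q ≤ 1 := by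
  unfold w1
  rcases Nat.eq_zero_or_pos q with h | h
  · subst h; simp
  · have h0 : (1 : ℝ) ≤ q := by exact_mod_cast h
    rw [div_le_one (by linarith)]
    exact h0

lemma inv1_sum : ∃ C : ℝ, 0 < C ∧ ∀ T : Finset ℕ,
    ∑ q ∈ T, 1 / (q : ℝ) ^ 2 ≤ C * Real.sqrt (∑ q ∈ T, w1 q) := by
  have hs : Summable fun q : ℕ => 1 / (q : ℝ) ^ 2 := Real.summable_one_div_nat_pow.2 (by norm_num)
  set D := ∑' q : ℕ, 1 / (q : ℝ) ^ 2 with hD
  have hD0 : 0 ≤ D := tsum_nonneg fun q => by positivity
  refine ⟨D + 1, by positivity, fun T => ?_⟩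
  set a := ∑ q ∈ T, 1 / (q : ℝ) ^ 2 with ha
  set s := ∑ q ∈ T, w1 q with hs'
  have ha0 : 0 ≤ a := Finset.sum_nonneg fun q _ => by positivity
  have h1 : a ≤ D := hs.sum_le_tsum T fun q _ => by positivity
  have h2 : a ≤ s := by
    refine Finset.sum_le_sum fun q _ => ?_
    unfold w1
    rcases Nat.eq_zero_or_pos q with h | h
    · subst h; simp
    · have h0 : (1 : ℝ) ≤ q := by exact_mod_cast h
      apply one_div_le_one_div_of_le (by linarith)
      nlinarith
  have hs0 : 0 ≤ s := ha0.trans h2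
  have h3 := Real.sq_sqrt hs0
  have h4 := Real.sqrt_nonneg s
  by_contra h5
  push Not at h5
  have h6 : ((D + 1) * Real.sqrt s) ^ 2 < a ^ 2 := by
    apply pow_lt_pow_left₀ h5 (by positivity) (by norm_num)
  have h7 : a ^ 2 ≤ D * s := by nlinarith
  nlinarith

/-- sum of the weights just below `q` -/
lemma mid1_weights {κ : ℝ} (hκ : 0 < κ) : ∃ C : ℝ, 0 < C ∧ ∀ᶠ q : ℕ in atTop, ∀ S : Finset ℕ,
    (∀ p ∈ S, p ≤ q ∧ κ * q / Real.log q < p) →
    ∑ p ∈ S, w1 p ≤ C * (1 + Real.log (Real.log q)) := by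
  refine ⟨|Real.log (2 / κ)| + 1, by positivity, ?_⟩
  have hlog : Tendsto (fun n : ℕ => Real.log n) atTop atTop :=
    Real.tendsto_log_atTop.comp tendsto_natCast_atTop_atTop
  have h1 : ∀ᶠ q : ℕ in atTop, 2 ≤ κ * q / Real.log q := by
    have h2 : Tendsto (fun q : ℕ => Real.log q / q) atTop (𝓝 0) := by
      have h5 : Tendsto (fun x : ℝ => Real.log x / x) atTop (𝓝 0) := by
        have := Real.tendsto_pow_log_div_mul_add_atTop 1 0 1 one_ne_zero
        simpa using this
      exact h5.comp tendsto_natCast_atTop_atTop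
    filter_upwards [h2.eventually_lt_const (show 0 < κ / 2 by positivity), hlog.eventually_ge_atTop 1,
      eventually_ge_atTop 1] with q hq hl hq1
    have hq0 : (0 : ℝ) < q := by exact_mod_cast hq1
    rw [div_lt_iff₀ hq0] at hq
    rw [le_div_iff₀ (by linarith)]
    linarith
  filter_upwards [h1, hlog.eventually_ge_atTop 3, eventually_ge_atTop 1] with q hq1 hq2 hq3 S hS
  have hq0 : (0 : ℝ) < q := by exact_mod_cast hq3
  set x := κ * q / Real.log q with hx
  set a := ⌊x⌋₊ with ha
  have ha1 : 1 ≤ a := Nat.le_floor (by push_cast; linarith)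
  have hax : x / 2 ≤ a := by
    have := Nat.lt_floor_add_one x
    rw [← ha] at this
    linarith
  have hlq0 : 0 < Real.log q := by linarith
  have hll : 1 ≤ Real.log (Real.log q) := by
    rw [Real.le_log_iff_exp_le hlq0]
    have := Real.exp_one_lt_d9
    linarith
  have key : ∀ n : ℕ, ∑ p ∈ Finset.Ioc a (a + n), w1 p ≤ Real.log ((a + n : ℕ) : ℝ) - Real.log a := by
    intro n
    induction n with
    | zero => simp
    | succ n ih =>
      rw [← add_assoc, Finset.sum_Ioc_succ_top (by omega)]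
      have hp : (0 : ℝ) < ((a + n : ℕ) : ℝ) := by exact_mod_cast (by omega : 0 < a + n)
      have h4 : w1 (a + n + 1) ≤ Real.log ((a + n + 1 : ℕ) : ℝ) - Real.log ((a + n : ℕ) : ℝ) := by
        rw [← Real.log_div (by positivity) hp.ne']
        have h6 := Real.one_sub_inv_le_log_of_pos
          (show (0 : ℝ) < ((a + n + 1 : ℕ) : ℝ) / ((a + n : ℕ) : ℝ) by positivity)
        have h7 : 1 - (((a + n + 1 : ℕ) : ℝ) / ((a + n : ℕ) : ℝ))⁻¹ = w1 (a + n + 1) := by
          unfold w1
          push_cast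
          push_cast at hp
          have : (a : ℝ) + n ≠ 0 := hp.ne'
          field_simp
          ring
        linarith
      linarith
  have hsub : S ⊆ Finset.Ioc a (a + (q - a)) := by
    intro p hp
    obtain ⟨h3, h4⟩ := hS p hp
    have h5 : a < p := (Nat.floor_lt (by linarith)).2 h4
    rw [Finset.mem_Ioc]
    omega
  have hS0 : ∑ p ∈ S, w1 p ≤ ∑ p ∈ Finset.Ioc a (a + (q - a)), w1 p :=
    Finset.sum_le_sum_of_subset_of_nonneg hsub fun p _ _ => w1_nonneg p
  rcases le_or_gt q a with h | h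
  · have : q - a = 0 := by omega
    rw [this] at hS0
    simp only [add_zero, Finset.Ioc_self, Finset.sum_empty] at hS0
    refine hS0.trans ?_
    positivity
  · have e : a + (q - a) = q := by omega
    have h8 := key (q - a)
    rw [e] at h8 hS0
    have ha0 : (0 : ℝ) < a := by exact_mod_cast ha1
    have h9 : Real.log q - Real.log a ≤ Real.log (2 / κ) + Real.log (Real.log q) := by
      rw [← Real.log_div hq0.ne' ha0.ne', ← Real.log_mul (by positivity) (by positivity)]
      apply Real.log_le_log (by positivity)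
      rw [div_le_iff₀ ha0]
      calc (q : ℝ) = 2 / κ * Real.log q * (x / 2) := by
            rw [hx]; field_simp
        _ ≤ 2 / κ * Real.log q * a := by
            apply mul_le_mul_of_nonneg_left hax
            positivity
    have h10 := le_abs_self (Real.log (2 / κ))
    have h11 := abs_nonneg (Real.log (2 / κ))
    nlinarith

/-- abstract row sum -/
lemma row1 {κ K : ℝ} (hκ : 0 < κ) (hK : 0 < K) (J : ℕ → ℕ → ℝ) (P : ℕ)
    (hfar : ∀ q ≥ P, ∀ p : ℕ, (p : ℝ) ≤ κ * q / Real.log q → |J p q| ≤ K * (1 / q ^ 2))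
    (hmid : ∀ p ≥ P, ∀ q : ℕ, p < q → |J p q| ≤ K * ((1 / p) * (1 / q))) :
    ∃ C : ℝ, 0 < C ∧ ∃ P' : ℕ, P ≤ P' ∧ 3 ≤ P' ∧ ∀ q ≥ P', ∀ T : Finset ℕ,
      (∀ p ∈ T, P' ≤ p ∧ p < q) → ∑ p ∈ T, |J p q| ≤
        C * (w1 q * (1 + ∑ p ∈ T.filter (fun p : ℕ => κ * q / Real.log q < (p : ℝ)), w1 p)) := by
  refine ⟨2 * K, by positivity, P + 3, by omega, by omega, fun q hq T hTm => ?_⟩
  have hq3 : (3 : ℝ) ≤ q := by exact_mod_cast (by omega : 3 ≤ q)
  have hq0 : (0 : ℝ) < q := by linarith
  classical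
  set F := T.filter (fun p : ℕ => ¬ (κ * q / Real.log q < (p : ℝ))) with hF
  set L := T.filter (fun p : ℕ => κ * q / Real.log q < (p : ℝ)) with hL
  have hsplit : ∑ p ∈ T, |J p q| = ∑ p ∈ L, |J p q| + ∑ p ∈ F, |J p q| := by
    rw [hF, hL, Finset.sum_filter_add_sum_filter_not]
  have hw : w1 q = 1 / (q : ℝ) := rfl
  have hsF : ∑ p ∈ F, |J p q| ≤ K * w1 q := by
    have hcard : (F.card : ℝ) ≤ q := by
      have h1 : F ⊆ Finset.range q := by
        intro p hp
        rw [hF, mem_filter] at hp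
        exact mem_range.2 (hTm p hp.1).2
      have h2 := Finset.card_le_card h1
      rw [Finset.card_range] at h2
      exact_mod_cast h2
    calc ∑ p ∈ F, |J p q| ≤ ∑ p ∈ F, K * (1 / (q : ℝ) ^ 2) :=
          Finset.sum_le_sum fun p hp => hfar q (by omega) p (not_lt.1 (mem_filter.1 hp).2)
      _ = F.card * (K * (1 / (q : ℝ) ^ 2)) := by rw [Finset.sum_const, nsmul_eq_mul]
      _ ≤ q * (K * (1 / (q : ℝ) ^ 2)) := by gcongr
      _ = K * w1 q := by rw [hw]; field_simp
  have hsL : ∑ p ∈ L, |J p q| ≤ K * w1 q * ∑ p ∈ L, w1 p := by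
    rw [Finset.mul_sum]
    refine Finset.sum_le_sum fun p hp => ?_
    rw [hL, mem_filter] at hp
    have h1 := hTm p hp.1
    refine (hmid p (by omega) q h1.2).trans (le_of_eq ?_)
    rw [hw]
    unfold w1
    ring
  rw [hsplit]
  have hw0 := w1_nonneg q
  have hs0 : 0 ≤ ∑ p ∈ L, w1 p := Finset.sum_nonneg fun p _ => w1_nonneg p
  have : 0 ≤ K * w1 q := by positivity
  have : 0 ≤ K * w1 q * ∑ p ∈ L, w1 p := by positivity
  nlinarith

variable {Ω : Type*} [MeasurableSpace Ω]

/-- `f q` is the indicator of the `q`-th event, `m q` its local mean, close to `c / q`, and the row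
sums of the correlation matrix are small. -/
structure Sys1 (μ : Measure Ω) (f m : ℕ → Ω → ℝ) (c : Ω → ℝ) : Prop where
  fm : ∀ q, Measurable (f q)
  mm : ∀ q, Measurable (m q)
  f01 : ∀ q x, f q x = 0 ∨ f q x = 1
  m0 : ∀ q x, 0 ≤ m q x
  m1 : ∀ q x, m q x ≤ 1
  mean : ∃ K : ℝ, 0 ≤ K ∧ ∃ P : ℕ, ∀ᵐ x ∂μ, ∀ q ≥ P, |m q x - c x * w1 q| ≤ K * (1 / (q : ℝ) ^ 2)
  cb : ∃ c0 c1 : ℝ, 0 < c0 ∧ ∀ᵐ x ∂μ, c0 ≤ c x ∧ c x ≤ c1
  row : ∃ κ C : ℝ, 0 < κ ∧ 0 < C ∧ ∃ P : ℕ, 3 ≤ P ∧
    (∀ q ≥ P, ∫ x, (f q x - m q x) ^ 2 ∂μ ≤ C * w1 q) ∧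
    ∀ q ≥ P, ∀ T : Finset ℕ, (∀ p ∈ T, P ≤ p ∧ p < q) →
      ∑ p ∈ T, |∫ x, (f p x - m p x) * (f q x - m q x) ∂μ| ≤
        C * (w1 q * (1 + ∑ p ∈ T.filter (fun p : ℕ => κ * q / Real.log q < (p : ℝ)), w1 p))
  one : ∃ K : ℝ, 0 ≤ K ∧ ∃ P : ℕ, ∀ q ≥ P, ∫ x, f q x ∂μ ≤ K * w1 q

section

variable {μ : Measure Ω} [IsFiniteMeasure μ] {f m : ℕ → Ω → ℝ} {c : Ω → ℝ}

lemma Sys1.f0 (h : Sys1 μ f m c) (q : ℕ) (x : Ω) : 0 ≤ f q x := by
  rcases h.f01 q x with h1 | h1 <;> rw [h1]; norm_num

lemma Sys1.f1 (h : Sys1 μ f m c) (q : ℕ) (x : Ω) : f q x ≤ 1 := by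
  rcases h.f01 q x with h1 | h1 <;> rw [h1]; norm_num

lemma Sys1.hb (h : Sys1 μ f m c) (q : ℕ) (x : Ω) : |f q x - m q x| ≤ 1 := by
  rw [abs_le]
  constructor <;> linarith [h.f0 q x, h.f1 q x, h.m0 q x, h.m1 q x]

open Classical in
/-- the basic fluctuation bound -/
lemma Sys1.core (h : Sys1 μ f m c) {κ C : ℝ} {P : ℕ} (hC : 0 < C)
    (hdiag : ∀ q ≥ P, ∫ x, (f q x - m q x) ^ 2 ∂μ ≤ C * w1 q)
    (hrow : ∀ q ≥ P, ∀ T : Finset ℕ, (∀ p ∈ T, P ≤ p ∧ p < q) →
      ∑ p ∈ T, |∫ x, (f p x - m p x) * (f q x - m q x) ∂μ| ≤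
        C * (w1 q * (1 + ∑ p ∈ T.filter (fun p : ℕ => κ * q / Real.log q < (p : ℝ)), w1 p)))
    {Km : ℝ} (hKm : 0 ≤ Km) (hmK : ∀ᵐ x ∂μ, ∀ q ≥ P, m q x ≤ Km * w1 q)
    (S : Set ℕ) (lam : ℕ → ℝ) (hl1 : ∀ q, 1 ≤ lam q) {B0 : ℝ} (hB0 : 0 ≤ B0)
    (hB : ∀ q, w1 q * lam q ≤ B0)
    (hlam : ∀ q ≥ P, q ∈ S → ∀ T : Finset ℕ,
      (∀ p ∈ T, P ≤ p ∧ p < q ∧ p ∈ S ∧ κ * q / Real.log q < (p : ℝ)) →
      ∑ p ∈ T, w1 p ≤ lam q)
    (hdiv : Tendsto (fun n => ∑ q ∈ range n, if q ∈ S ∧ P ≤ q then w1 q * lam q else 0)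
      atTop atTop) :
    ∀ᵐ x ∂μ, ∃ B : ℝ, 0 ≤ B ∧ ∀ n : ℕ,
      |∑ q ∈ range n, (if q ∈ S ∧ P ≤ q then f q x - m q x else 0)| ≤
      B * gr (∑ q ∈ range n, if q ∈ S ∧ P ≤ q then w1 q * lam q else 0) := by
  set cd : ℕ → Prop := fun q => q ∈ S ∧ P ≤ q with hcd
  have hl0 : ∀ q, 0 ≤ lam q := fun q => by linarith [hl1 q]
  have key := blocks (μ := μ) (f := fun q x => if cd q then f q x else 0)
    (m := fun q x => if cd q then m q x else 0) (φ := fun q => if cd q then w1 q * lam q else 0)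
    (B0 := B0) (K := Km) (C := 5 * C)
    (fun q => by
      split_ifs
      · exact mul_nonneg (w1_nonneg q) (hl0 q)
      · exact le_rfl)
    (fun q => by
      split_ifs with hq
      · exact hB q
      · exact hB0)
    hdiv hKm (by positivity)
    (fun q => by
      by_cases hq : cd q
      · simp only [if_pos hq]; exact h.fm q
      · simp only [if_neg hq]; exact measurable_const)
    (fun q => by
      by_cases hq : cd q
      · simp only [if_pos hq]; exact h.mm q
      · simp only [if_neg hq]; exact measurable_const)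
    (fun q x => by
      split_ifs
      · exact h.f0 q x
      · exact le_rfl)
    (fun q x => by
      split_ifs
      · exact h.m0 q x
      · exact le_rfl)
    (fun q x => by
      split_ifs
      · exact h.hb q x
      · norm_num)
    (by
      filter_upwards [hmK] with x hx q
      split_ifs with hq
      · refine (hx q hq.2).trans ?_
        refine mul_le_mul_of_nonneg_left ?_ hKm
        nlinarith [w1_nonneg q, hl1 q]
      · rw [mul_zero])
    (by
      intro a b hab
      set T := (Ico a b).filter cd with hT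
      have e1 : ∀ x, ∑ q ∈ Ico a b, ((if cd q then f q x else 0) - if cd q then m q x else 0) =
          ∑ q ∈ T, (f q x - m q x) := by
        intro x
        rw [hT, Finset.sum_filter]
        refine Finset.sum_congr rfl fun q _ => ?_
        split_ifs
        · rfl
        · norm_num
      have e2 : ∑ q ∈ Ico a b, (if cd q then w1 q * lam q else 0) = ∑ q ∈ T, w1 q * lam q := by
        rw [hT, Finset.sum_filter]
      simp only [e1, e2]
      have hGm : ∀ q, Measurable (fun x => f q x - m q x) := fun q => (h.fm q).sub (h.mm q)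
      refine (moment_rows (μ := μ) (G := fun q x => f q x - m q x) hGm h.hb T).trans ?_
      rw [Finset.mul_sum]
      refine Finset.sum_le_sum fun q hq => ?_
      rw [hT, mem_filter] at hq
      have hqc := hq.2
      have h1 := hdiag q hqc.2
      have h2 := hrow q hqc.2 (T.filter (fun p => p < q)) (by
        intro p hp
        rw [mem_filter, hT, mem_filter] at hp
        exact ⟨hp.1.2.2, hp.2⟩)
      have h3 := hlam q hqc.2 hqc.1
        ((T.filter (fun p => p < q)).filter (fun p : ℕ => κ * q / Real.log q < (p : ℝ))) (by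
          intro p hp
          rw [mem_filter, mem_filter, hT, mem_filter] at hp
          exact ⟨hp.1.1.2.2, hp.1.2, hp.1.1.2.1, hp.2⟩)
      have hw := w1_nonneg q
      have h4 : C * (w1 q * (1 + ∑ p ∈ (T.filter (fun p => p < q)).filter
          (fun p : ℕ => κ * q / Real.log q < (p : ℝ)), w1 p)) ≤ C * (w1 q * (1 + lam q)) := by
        gcongr
      have h5 := hl1 q
      have h6 : C * w1 q ≤ C * (w1 q * lam q) := by
        refine mul_le_mul_of_nonneg_left ?_ hC.le
        nlinarith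
      nlinarith)
  filter_upwards [key] with x hx
  obtain ⟨B, hB1, hB2⟩ := hx
  refine ⟨B, hB1, fun n => ?_⟩
  have := hB2 n
  refine le_trans (le_of_eq ?_) this
  congr 1
  refine Finset.sum_congr rfl fun q _ => ?_
  simp only [hcd]
  split_ifs
  · rfl
  · norm_num

end

open Classical in
/-- the sum of the weights of the primes `q ≤ n` in `S` -/
noncomputable def VS (S : Set ℕ) (n : ℕ) : ℝ :=
  ∑ q ∈ range (n + 1), if q ∈ S then w1 q else 0

open Classical in
/-- the number of the events with index a prime `q ≤ n` in `S` -/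
noncomputable def FS (f : ℕ → Ω → ℝ) (S : Set ℕ) (n : ℕ) (x : Ω) : ℝ :=
  ∑ q ∈ range (n + 1), if q ∈ S then f q x else 0

lemma VS_mono (S : Set ℕ) : Monotone (VS S) := by
  intro a b hab
  unfold VS
  refine Finset.sum_le_sum_of_subset_of_nonneg (Finset.range_mono (by omega)) fun q _ _ => ?_
  split_ifs
  · exact w1_nonneg q
  · exact le_rfl

lemma VS_nonneg (S : Set ℕ) (n : ℕ) : 0 ≤ VS S n := by
  unfold VS
  refine Finset.sum_nonneg fun q _ => ?_
  split_ifs
  · exact w1_nonneg q
  · exact le_rfl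

lemma loglog_nonneg {q : ℕ} (hq : 3 ≤ q) : 0 ≤ Real.log (Real.log q) := by
  have h3 : (3 : ℝ) ≤ q := by exact_mod_cast hq
  refine Real.log_nonneg ?_
  rw [Real.le_log_iff_exp_le (by linarith)]
  have := Real.exp_one_lt_d9
  linarith

open Classical in
/-- the tail of the divergent sum still diverges -/
lemma div_tail {S : Set ℕ} (hdiv : Tendsto (VS S) atTop atTop) (P : ℕ) (lam : ℕ → ℝ)
    (hl1 : ∀ q, 1 ≤ lam q) :
    Tendsto (fun n => ∑ q ∈ range n, if q ∈ S ∧ P ≤ q then w1 q * lam q else 0)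
      atTop atTop := by
  rw [← tendsto_add_atTop_iff_nat 1]
  refine tendsto_atTop_mono (fun n => ?_) (tendsto_atTop_add_const_right _ (-(P : ℝ)) hdiv)
  unfold VS
  have h1 : ∑ q ∈ range (n + 1), (if q ∈ S then w1 q else 0) ≤
      ∑ q ∈ range (n + 1), ((if q ∈ S ∧ P ≤ q then w1 q * lam q else 0) +
        if q < P then (1 : ℝ) else 0) := by
    refine Finset.sum_le_sum fun q _ => ?_
    have hw := w1_nonneg q
    have hw1 := w1_le_one q
    by_cases hq : q ∈ S
    · rw [if_pos hq]
      by_cases hP : P ≤ q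
      · rw [if_pos ⟨hq, hP⟩, if_neg (by omega)]
        have := hl1 q
        nlinarith
      · rw [if_neg (fun h => hP h.2), if_pos (by omega)]
        linarith
    · rw [if_neg hq, if_neg (fun h => hq h.1)]
      split_ifs <;> norm_num
  have h2 : ∑ q ∈ range (n + 1), (if q < P then (1 : ℝ) else 0) ≤ P := by
    rw [Finset.sum_ite, Finset.sum_const_zero, add_zero, Finset.sum_const, nsmul_eq_mul, mul_one]
    have : ((range (n + 1)).filter (fun q => q < P)).card ≤ P := by
      calc _ ≤ (range P).card := Finset.card_le_card fun q hq => by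
              rw [mem_filter] at hq
              exact mem_range.2 hq.2
        _ = P := Finset.card_range P
    exact_mod_cast this
  rw [Finset.sum_add_distrib] at h1
  linarith

section

variable {μ : Measure Ω} [IsFiniteMeasure μ] {f m : ℕ → Ω → ℝ} {c : Ω → ℝ}

lemma sqrt_le_gr {x : ℝ} (hx : 0 ≤ x) : Real.sqrt x ≤ gr x := by
  unfold gr
  have h1 : Real.sqrt x ≤ Real.sqrt (1 + x) := Real.sqrt_le_sqrt (by linarith)
  have h2 : 0 ≤ Real.log (1 + x) := Real.log_nonneg (by linarith)
  have h3 : 1 ≤ (1 + Real.log (1 + x)) ^ 2 := by nlinarith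
  have h4 := Real.sqrt_nonneg (1 + x)
  nlinarith

open Classical in
/-- **The law with error term for a set of primes.** -/
theorem Sys1.law (h : Sys1 μ f m c) (S : Set ℕ) (hdiv : Tendsto (VS S) atTop atTop) :
    ∀ᵐ x ∂μ, ∃ B : ℝ, 0 ≤ B ∧ ∀ n : ℕ, 3 ≤ n → |FS f S n x - c x * VS S n| ≤
      B * gr (VS S n * (1 + Real.log (Real.log n))) := by
  obtain ⟨κ, C, hκ, hC, P1, hP13, hdiag, hrow⟩ := h.row
  obtain ⟨Km, hKm, P2, hmean⟩ := h.mean
  obtain ⟨c0, c1, hc0, hcb⟩ := h.cb
  obtain ⟨C2, hC2, hmid⟩ := mid1_weights hκ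
  obtain ⟨P3, hP3⟩ := eventually_atTop.1 hmid
  obtain ⟨C3, hC3, hinv⟩ := inv1_sum
  set P := P1 + P2 + P3 with hP
  set lam : ℕ → ℝ := fun q => 1 + C2 * |1 + Real.log (Real.log q)| with hlamd
  have hl1 : ∀ q, 1 ≤ lam q := fun q => by
    have : 0 ≤ C2 * |1 + Real.log (Real.log q)| := by positivity
    simp only [hlamd]
    linarith
  have hwB : ∀ q : ℕ, w1 q * lam q ≤ 1 + 6 * C2 := by
    intro q
    rcases Nat.lt_or_ge q 2 with hq | hq
    · interval_cases q
      · unfold w1
        simp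
        positivity
      · unfold w1
        simp [hlamd]
        linarith
    have hq2 : (2 : ℝ) ≤ q := by exact_mod_cast hq
    have hq0 : (0 : ℝ) < q := by linarith
    have hl2 : Real.log 2 ≤ Real.log q := Real.log_le_log (by norm_num) hq2
    have h2 := Real.log_two_gt_d9
    have h7 : Real.log q ≤ q := by
      have := Real.log_le_sub_one_of_pos hq0
      linarith
    set u := Real.log q with hu
    have hu0 : 0 < u := by linarith
    have h3 : |1 + Real.log u| ≤ 2 + u := by
      have h4 := Real.log_le_sub_one_of_pos hu0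
      have h5 := Real.one_sub_inv_le_log_of_pos hu0
      have h6 : u⁻¹ ≤ 2 := by
        rw [inv_le_comm₀ hu0 (by norm_num)]
        linarith
      rw [abs_le]
      constructor <;> linarith
    have h11 : w1 q ≤ 1 := w1_le_one q
    have h12 : w1 q * u ≤ 4 := by
      unfold w1
      rw [one_div_mul_eq_div, div_le_iff₀ hq0]
      linarith
    have hw := w1_nonneg q
    simp only [hlamd]
    rw [← hu]
    calc w1 q * (1 + C2 * |1 + Real.log u|) ≤ w1 q * (1 + C2 * (2 + u)) := by gcongr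
      _ = w1 q + C2 * (2 * w1 q + w1 q * u) := by ring
      _ ≤ 1 + C2 * (2 * 1 + 4) := by gcongr
      _ = _ := by ring
  have hmK : ∀ᵐ x ∂μ, ∀ q ≥ P, m q x ≤ (|c1| + Km) * w1 q := by
    filter_upwards [hmean, hcb] with x hx hc q hq
    have h1 := (abs_le.1 (hx q (by omega))).2
    have hq3 : (3 : ℝ) ≤ q := by exact_mod_cast (by omega : 3 ≤ q)
    have h2 : 1 / (q : ℝ) ^ 2 ≤ w1 q := by
      unfold w1
      apply one_div_le_one_div_of_le (by linarith)
      nlinarith
    have h3 : c x ≤ |c1| := hc.2.trans (le_abs_self _)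
    have hw := w1_nonneg q
    nlinarith [mul_le_mul_of_nonneg_left h2 hKm, mul_le_mul_of_nonneg_right h3 hw]
  have key := h.core (κ := κ) (C := C) (P := P) hC
    (fun q hq => hdiag q (by omega))
    (fun q hq T hT => hrow q (by omega) T fun p hp => by
      obtain ⟨h2, h3⟩ := hT p hp
      exact ⟨by omega, h3⟩)
    (Km := |c1| + Km) (by positivity) hmK S lam hl1 (B0 := 1 + 6 * C2) (by positivity) hwB
    (fun q hq _ T hT => by
      have h1 := hP3 q (by omega) T (fun p hp => by
        obtain ⟨_, h3, _, h5⟩ := hT p hp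
        exact ⟨h3.le, h5⟩)
      refine le_trans h1 ?_
      have h2 := le_abs_self (1 + Real.log (Real.log q))
      have h3 : C2 * (1 + Real.log (Real.log q)) ≤ C2 * |1 + Real.log (Real.log q)| := by gcongr
      simp only [hlamd]
      linarith)
    (div_tail hdiv P lam hl1)
  filter_upwards [key, hmean, hcb] with x hx hmx hcx
  obtain ⟨B, hB, hBn⟩ := hx
  refine ⟨B * (1 + C2) ^ 3 + Km * C3 + P * (1 + |c x|), by positivity, fun n hn => ?_⟩
  set V := VS S n with hV
  have hV0 : 0 ≤ V := VS_nonneg S n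
  have hll : 0 ≤ Real.log (Real.log n) := loglog_nonneg hn
  set v := V * (1 + Real.log (Real.log n)) with hv
  have hv0 : 0 ≤ v := by positivity
  have hVv : V ≤ v := by rw [hv]; nlinarith
  -- the decomposition
  set cd : ℕ → Prop := fun q => q ∈ S ∧ P ≤ q with hcd
  have hdec : FS f S n x - c x * V =
      (∑ q ∈ range (n + 1), if q ∈ S ∧ P ≤ q then f q x - m q x else 0) +
      (∑ q ∈ range (n + 1), if q ∈ S ∧ P ≤ q then m q x - c x * w1 q else 0) +
      (∑ q ∈ range (n + 1), if q ∈ S ∧ q < P then f q x - c x * w1 q else 0) := by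
    rw [hV]
    unfold FS VS
    rw [Finset.mul_sum, ← Finset.sum_sub_distrib, ← Finset.sum_add_distrib, ← Finset.sum_add_distrib]
    refine Finset.sum_congr rfl fun q _ => ?_
    by_cases h1 : q ∈ S
    · by_cases h2 : P ≤ q
      · rw [if_pos h1, if_pos h1, if_pos ⟨h1, h2⟩, if_pos ⟨h1, h2⟩,
          if_neg (fun h => by omega)]
        ring
      · rw [if_pos h1, if_pos h1, if_neg (fun h => h2 h.2), if_neg (fun h => h2 h.2),
          if_pos ⟨h1, by omega⟩]
        ring
    · rw [if_neg h1, if_neg h1, if_neg (fun h => h1 h.1), if_neg (fun h => h1 h.1),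
        if_neg (fun h => h1 h.1)]
      ring
  have hA : |∑ q ∈ range (n + 1), if q ∈ S ∧ P ≤ q then f q x - m q x else 0| ≤
      B * (1 + C2) ^ 3 * gr v := by
    refine (hBn (n + 1)).trans ?_
    rw [mul_assoc]
    refine mul_le_mul_of_nonneg_left ?_ hB
    have h1 : ∑ q ∈ range (n + 1), (if q ∈ S ∧ P ≤ q then w1 q * lam q else 0) ≤
        (1 + C2) * v := by
      rw [hv, hV]
      unfold VS
      rw [Finset.sum_mul, Finset.mul_sum]
      refine Finset.sum_le_sum fun q hq => ?_
      rw [mem_range] at hq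
      have hw := w1_nonneg q
      by_cases h2 : q ∈ S ∧ P ≤ q
      · rw [if_pos h2, if_pos h2.1]
        have hq3 : 3 ≤ q := by have := h2.2; omega
        have h3 := loglog_nonneg hq3
        have h4 : Real.log (Real.log q) ≤ Real.log (Real.log n) := by
          have hq3' : (3 : ℝ) ≤ q := by exact_mod_cast hq3
          have h5 : 0 < Real.log q := Real.log_pos (by linarith)
          refine Real.log_le_log h5 (Real.log_le_log (by linarith) ?_)
          exact_mod_cast (by omega : q ≤ n)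
        simp only [hlamd]
        rw [abs_of_nonneg (by linarith)]
        have h6 : 1 + C2 * (1 + Real.log (Real.log q)) ≤ (1 + C2) * (1 + Real.log (Real.log n)) := by
          nlinarith
        calc w1 q * (1 + C2 * (1 + Real.log (Real.log q))) ≤
              w1 q * ((1 + C2) * (1 + Real.log (Real.log n))) := mul_le_mul_of_nonneg_left h6 hw
          _ = _ := by ring
      · rw [if_neg h2]
        have : 0 ≤ (if q ∈ S then w1 q else 0) := by
          split_ifs
          · exact hw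
          · exact le_rfl
        positivity
    have h2 : 0 ≤ ∑ q ∈ range (n + 1), (if q ∈ S ∧ P ≤ q then w1 q * lam q else 0) := by
      refine Finset.sum_nonneg fun q _ => ?_
      split_ifs
      · exact mul_nonneg (w1_nonneg q) (by linarith [hl1 q])
      · exact le_rfl
    exact gr_le hv0 (by linarith) h2 (by nlinarith)
  have hBd : |∑ q ∈ range (n + 1), if q ∈ S ∧ P ≤ q then m q x - c x * w1 q else 0| ≤
      Km * C3 * gr v := by
    set T := (range (n + 1)).filter (fun q => q ∈ S ∧ P ≤ q) with hT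
    have h1 : ∑ q ∈ T, w1 q ≤ V := by
      rw [hV]
      unfold VS
      rw [hT, Finset.sum_filter]
      refine Finset.sum_le_sum fun q _ => ?_
      by_cases h2 : q ∈ S ∧ P ≤ q
      · rw [if_pos h2, if_pos h2.1]
      · rw [if_neg h2]
        split_ifs
        · exact w1_nonneg q
        · exact le_rfl
    rw [← Finset.sum_filter]
    calc |∑ q ∈ T, (m q x - c x * w1 q)| ≤ ∑ q ∈ T, |m q x - c x * w1 q| :=
          Finset.abs_sum_le_sum_abs _ _
      _ ≤ ∑ q ∈ T, Km * (1 / (q : ℝ) ^ 2) := by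
          refine Finset.sum_le_sum fun q hq => ?_
          rw [hT, mem_filter] at hq
          have := hq.2.2
          exact hmx q (by omega)
      _ = Km * ∑ q ∈ T, 1 / (q : ℝ) ^ 2 := by rw [Finset.mul_sum]
      _ ≤ Km * (C3 * Real.sqrt (∑ q ∈ T, w1 q)) := by
          exact mul_le_mul_of_nonneg_left (hinv T) hKm
      _ ≤ Km * (C3 * gr v) := by
          have h3 : Real.sqrt (∑ q ∈ T, w1 q) ≤ gr v :=
            (Real.sqrt_le_sqrt (h1.trans hVv)).trans (sqrt_le_gr hv0)
          gcongr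
      _ = _ := by ring
  have hCd : |∑ q ∈ range (n + 1), if q ∈ S ∧ q < P then f q x - c x * w1 q else 0| ≤
      P * (1 + |c x|) * gr v := by
    have h1 : ∑ q ∈ range (n + 1), |if q ∈ S ∧ q < P then f q x - c x * w1 q else 0| ≤
        ∑ q ∈ range (n + 1), if q < P then (1 + |c x|) else 0 := by
      refine Finset.sum_le_sum fun q _ => ?_
      split_ifs with h2 h3 h3
      · refine (abs_sub _ _).trans ?_
        rw [abs_of_nonneg (h.f0 q x), abs_mul, abs_of_nonneg (w1_nonneg q)]
        have := h.f1 q x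
        have := w1_le_one q
        have := abs_nonneg (c x)
        nlinarith
      · exact absurd h2.2 h3
      · rw [abs_zero]; positivity
      · rw [abs_zero]
    have h2 : ∑ q ∈ range (n + 1), (if q < P then (1 + |c x|) else 0) ≤ P * (1 + |c x|) := by
      rw [Finset.sum_ite, Finset.sum_const_zero, add_zero, Finset.sum_const, nsmul_eq_mul]
      have : ((range (n + 1)).filter (fun q => q < P)).card ≤ P := by
        calc _ ≤ (range P).card := Finset.card_le_card fun q hq => by
                rw [mem_filter] at hq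
                exact mem_range.2 hq.2
          _ = P := Finset.card_range P
      refine mul_le_mul_of_nonneg_right ?_ (by positivity)
      exact_mod_cast this
    have h3 := one_le_gr hv0
    have h4 : (0 : ℝ) ≤ P * (1 + |c x|) := by positivity
    calc _ ≤ _ := (Finset.abs_sum_le_sum_abs _ _).trans (h1.trans h2)
      _ ≤ _ := by nlinarith
  rw [hdec]
  have h1 := abs_add_le
    ((∑ q ∈ range (n + 1), if q ∈ S ∧ P ≤ q then f q x - m q x else 0) +
      (∑ q ∈ range (n + 1), if q ∈ S ∧ P ≤ q then m q x - c x * w1 q else 0))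
    (∑ q ∈ range (n + 1), if q ∈ S ∧ q < P then f q x - c x * w1 q else 0)
  have h2 := abs_add_le
    (∑ q ∈ range (n + 1), if q ∈ S ∧ P ≤ q then f q x - m q x else 0)
    (∑ q ∈ range (n + 1), if q ∈ S ∧ P ≤ q then m q x - c x * w1 q else 0)
  calc _ ≤ B * (1 + C2) ^ 3 * gr v + Km * C3 * gr v + P * (1 + |c x|) * gr v := by linarith
    _ = _ := by ring

end

lemma gr_le_pow {v : ℝ} (hv : 0 ≤ v) : gr v ≤ 81 * (1 + v) ^ ((3 : ℝ) / 4) := by
  unfold gr
  set w := 1 + v with hw
  have hw1 : 1 ≤ w := by linarith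
  have hw0 : 0 < w := by linarith
  have h1 : Real.log w ≤ w ^ ((1 : ℝ) / 8) / (1 / 8) := Real.log_le_rpow_div hw0.le (by norm_num)
  have h2 : 1 ≤ w ^ ((1 : ℝ) / 8) := Real.one_le_rpow hw1 (by norm_num)
  have h3 : 1 + Real.log w ≤ 9 * w ^ ((1 : ℝ) / 8) := by linarith
  have h4 : 0 ≤ Real.log w := Real.log_nonneg hw1
  have h5 : (1 + Real.log w) ^ 2 ≤ 81 * w ^ ((1 : ℝ) / 4) := by
    calc (1 + Real.log w) ^ 2 ≤ (9 * w ^ ((1 : ℝ) / 8)) ^ 2 := pow_le_pow_left₀ (by linarith) h3 2
      _ = 81 * (w ^ ((1 : ℝ) / 8) * w ^ ((1 : ℝ) / 8)) := by ring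
      _ = _ := by
          rw [← Real.rpow_add hw0]
          norm_num
  calc Real.sqrt w * (1 + Real.log w) ^ 2 ≤ w ^ ((1 : ℝ) / 2) * (81 * w ^ ((1 : ℝ) / 4)) := by
        rw [Real.sqrt_eq_rpow]
        gcongr
    _ = 81 * (w ^ ((1 : ℝ) / 2) * w ^ ((1 : ℝ) / 4)) := by ring
    _ = _ := by
        rw [← Real.rpow_add hw0]
        norm_num

/-- the error term is of smaller order -/
lemma gr_small {A ε : ℝ} (hA : 0 ≤ A) (hε : 0 < ε) : ∀ᶠ v : ℝ in atTop, A * gr v ≤ ε * v := by
  have h1 : Tendsto (fun v : ℝ => (1 + v) ^ ((1 : ℝ) / 4)) atTop atTop :=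
    (tendsto_rpow_atTop (by norm_num)).comp (tendsto_atTop_add_const_left _ _ tendsto_id)
  filter_upwards [h1.eventually_ge_atTop (162 * A / ε), eventually_ge_atTop 1] with v hv hv1
  have hv0 : 0 ≤ v := by linarith
  rw [div_le_iff₀ hε] at hv
  have h2 := gr_le_pow hv0
  have hw0 : 0 < 1 + v := by linarith
  have h3 : (1 + v) ^ ((3 : ℝ) / 4) * (1 + v) ^ ((1 : ℝ) / 4) = 1 + v := by
    rw [← Real.rpow_add hw0]
    norm_num
  have h4 : 0 ≤ (1 + v) ^ ((3 : ℝ) / 4) := by positivity
  calc A * gr v ≤ A * (81 * (1 + v) ^ ((3 : ℝ) / 4)) := mul_le_mul_of_nonneg_left h2 hA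
    _ = 1 / 2 * ((1 + v) ^ ((3 : ℝ) / 4) * (162 * A)) := by ring
    _ ≤ 1 / 2 * ((1 + v) ^ ((3 : ℝ) / 4) * ((1 + v) ^ ((1 : ℝ) / 4) * ε)) := by gcongr
    _ = 1 / 2 * ε * ((1 + v) ^ ((3 : ℝ) / 4) * (1 + v) ^ ((1 : ℝ) / 4)) := by ring
    _ = 1 / 2 * ε * (1 + v) := by rw [h3]
    _ ≤ ε * v := by nlinarith

open Classical in
/-- greedy selection of a subset with bounded short windows -/
noncomputable def sel (S : Set ℕ) (κ : ℝ) (P : ℕ) : ℕ → Finset ℕ
  | 0 => ∅
  | q + 1 => if q ∈ S ∧ P ≤ q ∧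
      ∑ p ∈ (sel S κ P q).filter (fun p : ℕ => κ * q / Real.log q < (p : ℝ)), w1 p ≤ 1
      then insert q (sel S κ P q) else sel S κ P q

/-- the selected set -/
def sl (S : Set ℕ) (κ : ℝ) (P : ℕ) : Set ℕ := {q | q ∈ sel S κ P (q + 1)}

lemma sel_succ_sub (S : Set ℕ) (κ : ℝ) (P q : ℕ) : sel S κ P q ⊆ sel S κ P (q + 1) := by
  intro p hp
  unfold sel
  split_ifs
  · exact mem_insert_of_mem hp
  · exact hp

lemma sel_mono (S : Set ℕ) (κ : ℝ) (P : ℕ) : Monotone (sel S κ P) :=
  monotone_nat_of_le_succ fun q => sel_succ_sub S κ P q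

lemma sel_mem {S : Set ℕ} {κ : ℝ} {P : ℕ} : ∀ n : ℕ, ∀ p ∈ sel S κ P n,
    p < n ∧ p ∈ S ∧ P ≤ p ∧ p ∈ sl S κ P := by
  intro n
  induction n with
  | zero => intro p hp; simp [sel] at hp
  | succ n ih =>
    intro p hp
    have hp' := hp
    unfold sel at hp
    split_ifs at hp with hc
    · rw [mem_insert] at hp
      rcases hp with rfl | hp
      · exact ⟨by omega, hc.1, hc.2.1, hp'⟩
      · obtain ⟨h1, h2⟩ := ih p hp
        exact ⟨by omega, h2⟩
    · obtain ⟨h1, h2⟩ := ih p hp
      exact ⟨by omega, h2⟩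

lemma sl_mem {S : Set ℕ} {κ : ℝ} {P p n : ℕ} (h : p ∈ sl S κ P) (hn : p < n) : p ∈ sel S κ P n :=
  sel_mono S κ P (by omega : p + 1 ≤ n) h

/-- the windows of the selected set are short -/
lemma sl_window {S : Set ℕ} {κ : ℝ} {P q : ℕ} (hq : q ∈ sl S κ P) (T : Finset ℕ)
    (hT : ∀ p ∈ T, p < q ∧ p ∈ sl S κ P ∧ κ * q / Real.log q < (p : ℝ)) : ∑ p ∈ T, w1 p ≤ 1 := by
  have h1 : ∑ p ∈ (sel S κ P q).filter (fun p : ℕ => κ * q / Real.log q < (p : ℝ)), w1 p ≤ 1 := by
    have h2 : q ∈ sel S κ P (q + 1) := hq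
    unfold sel at h2
    split_ifs at h2 with hc
    · exact hc.2.2
    · exact absurd (sel_mem q q h2).1 (lt_irrefl q)
  refine le_trans (Finset.sum_le_sum_of_subset_of_nonneg ?_ fun p _ _ => w1_nonneg p) h1
  intro p hp
  obtain ⟨h2, h3, h4⟩ := hT p hp
  rw [mem_filter]
  exact ⟨sl_mem h3 h2, h4⟩

lemma q_div_log {κ : ℝ} (hκ : 0 < κ) : Tendsto (fun q : ℕ => κ * q / Real.log q) atTop atTop := by
  have h1 : Tendsto (fun x : ℝ => κ * x / Real.log x) atTop atTop := by
    refine tendsto_atTop_mono' _ (f₁ := fun x : ℝ => κ / 2 * x ^ ((1 : ℝ) / 2)) ?_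
      ((tendsto_rpow_atTop (by norm_num)).const_mul_atTop (by positivity))
    filter_upwards [eventually_ge_atTop 3] with x hx
    have hx0 : 0 < x := by linarith
    have hl : 0 < Real.log x := Real.log_pos (by linarith)
    have h2 : Real.log x ≤ x ^ ((1 : ℝ) / 2) / (1 / 2) := Real.log_le_rpow_div hx0.le (by norm_num)
    rw [le_div_iff₀ hl]
    calc κ / 2 * x ^ ((1 : ℝ) / 2) * Real.log x ≤
          κ / 2 * x ^ ((1 : ℝ) / 2) * (x ^ ((1 : ℝ) / 2) / (1 / 2)) := by gcongr
      _ = κ * (x ^ ((1 : ℝ) / 2) * x ^ ((1 : ℝ) / 2)) := by ring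
      _ = κ * x := by
          rw [← Real.rpow_add hx0]
          norm_num
  exact h1.comp tendsto_natCast_atTop_atTop

open Classical in
/-- the selected set has divergent weight -/
lemma sl_div {S : Set ℕ} {κ : ℝ} (hκ : 0 < κ) (P : ℕ) (hdiv : Tendsto (VS S) atTop atTop) :
    Tendsto (VS (sl S κ P)) atTop atTop := by
  rcases tendsto_atTop_of_monotone (VS_mono (sl S κ P)) with h | ⟨l, hl⟩
  · exact h
  · exfalso
    have hle : ∀ n, VS (sl S κ P) n ≤ l := fun n => (VS_mono _).ge_of_tendsto hl n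
    obtain ⟨N0, hN0⟩ := (hl.eventually (lt_mem_nhds (show l - 1 < l by linarith))).exists
    obtain ⟨Q, hQ⟩ := eventually_atTop.1 (((q_div_log hκ).eventually_ge_atTop (N0 : ℝ)).and
      (eventually_ge_atTop P))
    -- large elements of `S` are selected
    have hall : ∀ q ≥ Q, q ∈ S → q ∈ sl S κ P := by
      intro q hq hqS
      obtain ⟨h1, h2⟩ := hQ q hq
      have h3 : ∑ p ∈ (sel S κ P q).filter (fun p : ℕ => κ * q / Real.log q < (p : ℝ)), w1 p ≤ 1 := by
        have h4 : ∑ p ∈ (sel S κ P q).filter (fun p : ℕ => κ * q / Real.log q < (p : ℝ)), w1 p +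
            VS (sl S κ P) N0 ≤ VS (sl S κ P) (max q N0) := by
          unfold VS
          rw [← Finset.sum_filter, ← Finset.sum_filter, ← Finset.sum_union]
          · refine Finset.sum_le_sum_of_subset_of_nonneg ?_ fun p _ _ => w1_nonneg p
            intro p hp
            rw [mem_union, mem_filter, mem_filter, mem_range] at hp
            rw [mem_filter, mem_range]
            rcases hp with ⟨h5, h6⟩ | ⟨h5, h6⟩
            · obtain ⟨h7, _, _, h9⟩ := sel_mem q p h5
              exact ⟨by omega, h9⟩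
            · exact ⟨by omega, h6⟩
          · rw [Finset.disjoint_left]
            intro p hp1 hp2
            rw [mem_filter] at hp1 hp2
            rw [mem_range] at hp2
            have h7 : (N0 : ℝ) < p := lt_of_le_of_lt h1 hp1.2
            have h8 : N0 < p := by exact_mod_cast h7
            omega
        have := hle (max q N0)
        linarith
      show q ∈ sel S κ P (q + 1)
      unfold sel
      rw [if_pos ⟨hqS, h2, h3⟩]
      exact mem_insert_self _ _
    have hbd : ∀ n, VS S n ≤ l + Q := by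
      intro n
      have h1 : VS S n ≤ VS (sl S κ P) n + ∑ q ∈ range (n + 1), if q < Q then (1 : ℝ) else 0 := by
        unfold VS
        rw [← Finset.sum_add_distrib]
        refine Finset.sum_le_sum fun q _ => ?_
        have hw := w1_nonneg q
        have hw1 := w1_le_one q
        by_cases hq : q ∈ S
        · rw [if_pos hq]
          by_cases hP : q < Q
          · rw [if_pos hP]
            split_ifs <;> linarith
          · rw [if_neg hP, if_pos (hall q (by omega) hq)]
            linarith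
        · rw [if_neg hq]
          split_ifs <;> linarith
      have h2 : ∑ q ∈ range (n + 1), (if q < Q then (1 : ℝ) else 0) ≤ Q := by
        rw [Finset.sum_ite, Finset.sum_const_zero, add_zero, Finset.sum_const, nsmul_eq_mul, mul_one]
        have : ((range (n + 1)).filter (fun q => q < Q)).card ≤ Q := by
          calc _ ≤ (range Q).card := Finset.card_le_card fun q hq => by
                  rw [mem_filter] at hq
                  exact mem_range.2 hq.2
            _ = Q := Finset.card_range Q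
        exact_mod_cast this
      linarith [hle n]
    obtain ⟨n, hn⟩ := (hdiv.eventually_gt_atTop (l + Q)).exists
    linarith [hbd n]

section

variable {μ : Measure Ω} [IsFiniteMeasure μ] {f m : ℕ → Ω → ℝ}
  {c : Ω → ℝ}

open Classical in
/-- **Divergence part.** -/
theorem Sys1.inf (h : Sys1 μ f m c) (S : Set ℕ) (hdiv : Tendsto (VS S) atTop atTop) :
    ∀ᵐ x ∂μ, {q : ℕ | q ∈ S ∧ f q x = 1}.Infinite := by
  obtain ⟨κ, C, hκ, hC, P1, hP13, hdiag, hrow⟩ := h.row
  obtain ⟨Km, hKm, P2, hmean⟩ := h.mean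
  obtain ⟨c0, c1, hc0, hcb⟩ := h.cb
  obtain ⟨C3, hC3, hinv⟩ := inv1_sum
  set P := P1 + P2 with hP
  set S' := sl S κ P with hS'
  have hdiv' := div_tail (sl_div hκ P hdiv) P (fun _ => 1) (fun _ => le_rfl)
  have hmK : ∀ᵐ x ∂μ, ∀ q ≥ P, m q x ≤ (|c1| + Km) * w1 q := by
    filter_upwards [hmean, hcb] with x hx hc q hq
    have h1 := (abs_le.1 (hx q (by omega))).2
    have hq3 : (3 : ℝ) ≤ q := by exact_mod_cast (by omega : 3 ≤ q)
    have h2 : 1 / (q : ℝ) ^ 2 ≤ w1 q := by
      unfold w1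
      apply one_div_le_one_div_of_le (by linarith)
      nlinarith
    have h3 : c x ≤ |c1| := hc.2.trans (le_abs_self _)
    have hw := w1_nonneg q
    nlinarith [mul_le_mul_of_nonneg_left h2 hKm, mul_le_mul_of_nonneg_right h3 hw]
  have key := h.core (κ := κ) (C := C) (P := P) hC
    (fun q hq => hdiag q (by omega))
    (fun q hq T hT => hrow q (by omega) T fun p hp => by
      obtain ⟨h2, h3⟩ := hT p hp
      exact ⟨by omega, h3⟩)
    (Km := |c1| + Km) (by positivity) hmK S' (fun _ => 1) (fun _ => le_rfl) (B0 := 1) (by norm_num)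
    (fun q => by rw [mul_one]; exact w1_le_one q)
    (fun q _ hqS T hT => sl_window hqS T fun p hp => by
      obtain ⟨_, h3, h4, h5⟩ := hT p hp
      exact ⟨h3, h4, h5⟩)
    hdiv'
  filter_upwards [key, hmean, hcb] with x hx hmx hcx
  obtain ⟨B, hB, hBn⟩ := hx
  intro hfin
  set M := hfin.toFinset.card with hM
  set V : ℕ → ℝ := fun n => ∑ q ∈ range n, if q ∈ S' ∧ P ≤ q then w1 q * 1 else 0 with hV
  have hV0 : ∀ n, 0 ≤ V n := by
    intro n
    refine Finset.sum_nonneg fun q _ => ?_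
    split_ifs
    · rw [mul_one]; exact w1_nonneg q
    · exact le_rfl
  have hmain : ∀ n, c0 * V n ≤ M + (Km * C3 + B) * gr (V n) := by
    intro n
    have h1 := (abs_le.1 (hBn n)).1
    set T := (range n).filter (fun q => q ∈ S' ∧ P ≤ q) with hT
    have hVT : V n = ∑ q ∈ T, w1 q := by
      simp only [hV, mul_one]
      rw [hT, Finset.sum_filter]
    have e1 : ∑ q ∈ range n, (if q ∈ S' ∧ P ≤ q then f q x - m q x else 0) =
        ∑ q ∈ T, f q x - ∑ q ∈ T, m q x := by
      rw [← Finset.sum_sub_distrib, hT, Finset.sum_filter]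
    have hf : ∑ q ∈ T, f q x ≤ M := by
      have h2 : ∑ q ∈ T, f q x = ∑ q ∈ T.filter (fun q => f q x = 1), f q x := by
        refine (Finset.sum_filter_of_ne fun q _ hq => ?_).symm
        rcases h.f01 q x with h3 | h3
        · exact absurd h3 hq
        · exact h3
      have h3 : ∑ q ∈ T.filter (fun q => f q x = 1), f q x = ((T.filter (fun q => f q x = 1)).card : ℝ) := by
        calc ∑ q ∈ T.filter (fun q => f q x = 1), f q x = ∑ q ∈ T.filter (fun q => f q x = 1), (1 : ℝ) :=
              Finset.sum_congr rfl fun q hq => (mem_filter.1 hq).2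
          _ = _ := by rw [Finset.sum_const, nsmul_eq_mul, mul_one]
      rw [h2, h3]
      have : (T.filter (fun q => f q x = 1)).card ≤ M := by
        rw [hM]
        refine Finset.card_le_card fun q hq => ?_
        rw [mem_filter, hT, mem_filter] at hq
        rw [Set.Finite.mem_toFinset]
        have h5 : q ∈ sel S κ P (q + 1) := hq.1.2.1
        exact ⟨(sel_mem _ _ h5).2.1, hq.2⟩
      exact_mod_cast this
    have hm' : c0 * V n - Km * C3 * gr (V n) ≤ ∑ q ∈ T, m q x := by
      have h2 : ∑ q ∈ T, (c0 * w1 q - Km * (1 / (q : ℝ) ^ 2)) ≤ ∑ q ∈ T, m q x := by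
        refine Finset.sum_le_sum fun q hq => ?_
        rw [hT, mem_filter] at hq
        have h3 := hq.2.2
        have h4 := (abs_le.1 (hmx q (by omega))).1
        have h5 := mul_le_mul_of_nonneg_right hcx.1 (w1_nonneg q)
        linarith
      rw [Finset.sum_sub_distrib, ← Finset.mul_sum, ← Finset.mul_sum, ← hVT] at h2
      have h3 := hinv T
      rw [← hVT] at h3
      have h4 := sqrt_le_gr (hV0 n)
      have h5 : Km * ∑ q ∈ T, 1 / (q : ℝ) ^ 2 ≤ Km * C3 * gr (V n) := by
        calc Km * ∑ q ∈ T, 1 / (q : ℝ) ^ 2 ≤ Km * (C3 * gr (V n)) := by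
              refine mul_le_mul_of_nonneg_left (h3.trans ?_) hKm
              exact mul_le_mul_of_nonneg_left h4 hC3.le
          _ = _ := by ring
      linarith
    rw [e1] at h1
    linarith
  have hVt : Tendsto V atTop atTop := hdiv'
  obtain ⟨n, hn1, hn2⟩ := ((hVt.eventually (gr_small (A := Km * C3 + B) (by positivity)
    (show 0 < c0 / 2 by positivity))).and (hVt.eventually_gt_atTop (2 * M / c0))).exists
  have h1 := hmain n
  rw [div_lt_iff₀ hc0] at hn2
  linarith

/-- **Convergence part.** -/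
theorem Sys1.fin (h : Sys1 μ f m c) (S : Set ℕ) (hdiv : ¬ Tendsto (VS S) atTop atTop) :
    ∀ᵐ x ∂μ, {q : ℕ | q ∈ S ∧ f q x = 1}.Finite := by
  classical
  obtain ⟨K, hK, P, hone⟩ := h.one
  set a : ℕ → ℝ := fun q => if q ∈ S then w1 q else 0 with ha
  have ha0 : ∀ q, 0 ≤ a q := by
    intro q
    simp only [ha]
    split_ifs
    · exact w1_nonneg q
    · exact le_rfl
  have hsum : Summable a := by
    rcases tendsto_atTop_of_monotone (VS_mono S) with h1 | ⟨l, hl⟩
    · exact absurd h1 hdiv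
    · refine summable_of_sum_range_le (c := l) ha0 fun n => ?_
      have h2 : VS S n ≤ l := (VS_mono _).ge_of_tendsto hl n
      refine le_trans ?_ h2
      unfold VS
      refine Finset.sum_le_sum_of_subset_of_nonneg (Finset.range_mono (by omega)) fun q _ _ => ?_
      have := ha0 q
      simp only [ha] at this
      convert this
  set s : ℕ → Set Ω := fun q => {x | q ∈ S ∧ P ≤ q ∧ f q x = 1} with hs
  have hsm : ∀ q, μ (s q) ≤ ENNReal.ofReal (K * a q) := by
    intro q
    by_cases hq : q ∈ S ∧ P ≤ q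
    · have h1 : μ (s q) ≤ ∫⁻ x, ENNReal.ofReal (f q x) ∂μ := by
        have h2 := mul_meas_ge_le_lintegral (μ := μ) (f := fun x => ENNReal.ofReal (f q x))
          (h.fm q).ennreal_ofReal 1
        rw [one_mul] at h2
        refine le_trans (measure_mono ?_) h2
        intro x hx
        simp only [hs, Set.mem_ofPred_eq] at hx
        show 1 ≤ ENNReal.ofReal (f q x)
        rw [hx.2.2]
        simp
      have hint : Integrable (f q) μ := by
        refine Integrable.of_bound (h.fm q).aestronglyMeasurable 1 (Eventually.of_forall fun x => ?_)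
        rw [Real.norm_of_nonneg (h.f0 q x)]
        exact h.f1 q x
      rw [← ofReal_integral_eq_lintegral_ofReal hint (Eventually.of_forall (h.f0 q))] at h1
      refine h1.trans (ENNReal.ofReal_le_ofReal ?_)
      simp only [ha]
      rw [if_pos hq.1]
      exact hone q hq.2
    · have : s q = ∅ := by
        ext x
        simp only [hs, Set.mem_ofPred_eq, Set.mem_empty_iff_false, iff_false]
        intro h1
        exact hq ⟨h1.1, h1.2.1⟩
      rw [this]
      simp
  have htop : ∑' q, μ (s q) ≠ ⊤ := by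
    refine ne_top_of_le_ne_top ?_ (ENNReal.tsum_le_tsum hsm)
    rw [← ENNReal.ofReal_tsum_of_nonneg (fun q => mul_nonneg hK (ha0 q)) (hsum.mul_left K)]
    exact ENNReal.ofReal_ne_top
  filter_upwards [ae_eventually_notMem htop] with x hx
  obtain ⟨N, hN⟩ := eventually_atTop.1 hx
  refine (Set.finite_lt_nat (N + P)).subset fun q hq => ?_
  obtain ⟨h1, h3⟩ := hq
  show q < N + P
  by_contra h4
  exact hN q (by omega) ⟨h1, by omega, h3⟩

end

end Pool.Agent.L5helper55.AL
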