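import Pool.Agent.L5helper55.AL.F
import Pool.Agent.H19P.QA

set_option autoImplicit false

/-!
# The law for the integers `⌊β α ^ m + g m⌋` and genuine primality
-/

namespace Pool.Agent.L5helper55.AL

open Finset Filter Topology MeasureTheory Asymptotics
open Pool.Agent.TH888.R (gr one_le_gr gr_all gr_set loglog_tendsto)
open Pool.Agent.H305R2 (ff roughPart log_nat_tendsto)
open Pool.Agent.H447R2.ML (Sh sh_of ff_eq_ceil ff_eq_floor)
open Pool.Agent.W66X (ysh measurable_ysh trans_shift near_shift pert8 exp_ysh ae_of_exp')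

lemma VS_univ_bound (n : ℕ) (hn : 1 ≤ n) : |VS Set.univ n - Real.log n| ≤ 1 := by
  have e : VS Set.univ n = ((harmonic n : ℚ) : ℝ) := by
    unfold VS w1 harmonic
    rw [Finset.sum_range_succ']
    push_cast
    simp
  rw [e]
  have h1 := log_add_one_le_harmonic n
  have h2 := harmonic_le_one_add_log n
  have hn0 : (0 : ℝ) < n := by exact_mod_cast hn
  have h3 : Real.log n ≤ Real.log ((n + 1 : ℕ) : ℝ) := Real.log_le_log hn0 (by push_cast; linarith)
  rw [abs_le]
  constructor <;> linarith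

lemma VS_univ_tendsto : Tendsto (VS Set.univ) atTop atTop := by
  refine tendsto_atTop_mono' _ (f₁ := fun n : ℕ => Real.log n + (-1)) ?_
    (tendsto_atTop_add_const_right _ _ log_nat_tendsto)
  filter_upwards [eventually_ge_atTop 1] with n hn
  have := (abs_le.1 (VS_univ_bound n hn)).1
  linarith

/-- asymptotic form of the law for all indices -/
lemma bigO_all1 {F : ℕ → ℝ} {c B : ℝ} (hB : 0 ≤ B)
    (h : ∀ n : ℕ, 3 ≤ n → |F n - c * VS Set.univ n| ≤
      B * gr (VS Set.univ n * (1 + Real.log (Real.log n)))) :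
    (fun n : ℕ => F n - c * Real.log n) =O[atTop] fun n : ℕ =>
      Real.sqrt (Real.log n) * (Real.log (Real.log n)) ^ ((5 : ℝ) / 2) := by
  refine IsBigO.of_bound (100 * B + |c|) ?_
  filter_upwards [gr_all (C := 1) (VS_nonneg Set.univ) (fun n hn => by
    have := (abs_le.1 (VS_univ_bound n hn)).2
    linarith), eventually_ge_atTop 3, log_nat_tendsto.eventually_ge_atTop 1,
    loglog_tendsto.eventually_ge_atTop 1] with n h1 h2 h3 h4
  set E := Real.sqrt (Real.log n) * (Real.log (Real.log n)) ^ ((5 : ℝ) / 2) with hE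
  have hE1 : 1 ≤ E := by
    have h5 : 1 ≤ Real.sqrt (Real.log n) := by rw [Real.one_le_sqrt]; exact h3
    have h6 : 1 ≤ (Real.log (Real.log n)) ^ ((5 : ℝ) / 2) := Real.one_le_rpow h4 (by norm_num)
    rw [hE]
    nlinarith
  rw [Real.norm_eq_abs, Real.norm_of_nonneg (by linarith)]
  have e : F n - c * Real.log n = (F n - c * VS Set.univ n) + c * (VS Set.univ n - Real.log n) := by ring
  rw [e]
  have h7 := h n h2
  have h8 := mul_le_mul_of_nonneg_left h1 hB
  have h9 : |c * (VS Set.univ n - Real.log n)| ≤ |c| := by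
    rw [abs_mul]
    exact mul_le_of_le_one_right (abs_nonneg c) (VS_univ_bound n (by omega))
  have h10 := abs_add_le (F n - c * VS Set.univ n) (c * (VS Set.univ n - Real.log n))
  have h11 : |c| ≤ |c| * E := by
    have : 0 ≤ |c| := by positivity
    nlinarith
  nlinarith

open Classical in
/-- the number of the `p ≤ n` in `S` for which `s p` is prime -/
noncomputable def cS1 (S : Set ℕ) (s : ℕ → ℕ) (n : ℕ) : ℕ :=
  ((range (n + 1)).filter (fun p => p ∈ S ∧ (s p).Prime)).card

/-- The law with error term and the dichotomy at one point, for the integers `s p`. -/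
structure Pt1 (s : ℕ → ℕ) (c : ℝ) (S : Set ℕ) : Prop where
  law : Tendsto (VS S) atTop atTop → ∃ B : ℝ, 0 ≤ B ∧ ∀ n : ℕ, 3 ≤ n →
    |(cS1 S s n : ℝ) - c * VS S n| ≤ B * gr (VS S n * (1 + Real.log (Real.log n)))
  inf : Tendsto (VS S) atTop atTop → {p : ℕ | p ∈ S ∧ (s p).Prime}.Infinite
  fin : ¬ Tendsto (VS S) atTop atTop → {p : ℕ | p ∈ S ∧ (s p).Prime}.Finite

open Classical in
/-- **From a system to the counting function.** -/
theorem Sys1.pt {Ω : Type*} [MeasurableSpace Ω] {μ : Measure Ω} [IsFiniteMeasure μ] {f m : ℕ → Ω → ℝ}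
    {c : Ω → ℝ} (h : Sys1 μ f m c) {s : Ω → ℕ → ℕ}
    (hs : ∀ᵐ x ∂μ, ∃ P : ℕ, ∀ p ≥ P, f p x = if (s x p).Prime then 1 else 0)
    (S : Set ℕ) : ∀ᵐ x ∂μ, Pt1 (s x) (c x) S := by
  have hset : ∀ᵐ x ∂μ, ∃ P : ℕ, (∀ p : ℕ, P ≤ p → ((p ∈ S ∧ f p x = 1) ↔
      (p ∈ S ∧ (s x p).Prime))) ∧
      ∀ n : ℕ, |(cS1 S (s x) n : ℝ) - FS f S n x| ≤ P := by
    filter_upwards [hs] with x hx
    obtain ⟨P, hP⟩ := hx
    refine ⟨P, fun p hp => ?_, fun n => ?_⟩
    · constructor
      · rintro ⟨h1, h3⟩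
        refine ⟨h1, ?_⟩
        rw [hP p hp] at h3
        by_contra h4
        rw [if_neg h4] at h3
        norm_num at h3
      · rintro ⟨h1, h3⟩
        refine ⟨h1, ?_⟩
        rw [hP p hp, if_pos h3]
    · have e1 : (cS1 S (s x) n : ℝ) = ∑ p ∈ range (n + 1),
          if p ∈ S ∧ (s x p).Prime then (1 : ℝ) else 0 := by
        unfold cS1
        rw [Finset.card_eq_sum_ones, Finset.sum_filter]
        push_cast
        rfl
      rw [e1]
      unfold FS
      rw [← Finset.sum_sub_distrib]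
      have h1 : ∑ p ∈ range (n + 1), |(if p ∈ S ∧ (s x p).Prime then (1 : ℝ) else 0) -
          if p ∈ S then f p x else 0| ≤ ∑ p ∈ range (n + 1), if p < P then (1 : ℝ) else 0 := by
        refine Finset.sum_le_sum fun p _ => ?_
        by_cases hp : P ≤ p
        · rw [if_neg (by omega : ¬ p < P)]
          by_cases h2 : p ∈ S
          · rw [if_pos h2, hP p hp]
            by_cases h3 : (s x p).Prime
            · rw [if_pos ⟨h2, h3⟩, if_pos h3]
              norm_num
            · rw [if_neg (fun h => h3 h.2), if_neg h3]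
              norm_num
          · rw [if_neg h2, if_neg (fun h => h2 h.1)]
            norm_num
        · rw [if_pos (by omega : p < P)]
          have h3 := h.f0 p x
          have h4 := h.f1 p x
          rw [abs_le]
          split_ifs <;> constructor <;> linarith
      have h2 : ∑ p ∈ range (n + 1), (if p < P then (1 : ℝ) else 0) ≤ P := by
        rw [Finset.sum_ite, Finset.sum_const_zero, add_zero, Finset.sum_const, nsmul_eq_mul, mul_one]
        have : ((range (n + 1)).filter (fun q => q < P)).card ≤ P := by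
          calc _ ≤ (range P).card := Finset.card_le_card fun q hq => by
                  rw [mem_filter] at hq
                  exact mem_range.2 hq.2
            _ = P := Finset.card_range P
        exact_mod_cast this
      exact (Finset.abs_sum_le_sum_abs _ _).trans (h1.trans h2)
  by_cases hdiv : Tendsto (VS S) atTop atTop
  · filter_upwards [hset, h.law S hdiv, h.inf S hdiv] with x hx hl hi
    obtain ⟨P, hP1, hP2⟩ := hx
    obtain ⟨B, hB, hBn⟩ := hl
    refine ⟨fun _ => ⟨B + P, by positivity, fun n hn => ?_⟩, fun _ => ?_, fun h1 => absurd hdiv h1⟩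
    · have h1 := hBn n hn
      have h2 := hP2 n
      have h3 : 1 ≤ gr (VS S n * (1 + Real.log (Real.log n))) := by
        refine one_le_gr ?_
        have := loglog_nonneg hn
        have := VS_nonneg S n
        positivity
      have h4 := abs_add_le ((cS1 S (s x) n : ℝ) - FS f S n x) (FS f S n x - c x * VS S n)
      have e : (cS1 S (s x) n : ℝ) - FS f S n x + (FS f S n x - c x * VS S n) =
        (cS1 S (s x) n : ℝ) - c x * VS S n := by ring
      rw [e] at h4
      have h5 : (P : ℝ) ≤ P * gr (VS S n * (1 + Real.log (Real.log n))) := by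
        have : (0 : ℝ) ≤ P := Nat.cast_nonneg P
        nlinarith
      linarith
    · intro hfin
      refine hi ((hfin.union (Set.finite_lt_nat P)).subset fun p hp => ?_)
      by_cases h1 : P ≤ p
      · exact Or.inl ((hP1 p h1).1 hp)
      · exact Or.inr (by show p < P; omega)
  · filter_upwards [hset, h.fin S hdiv] with x hx hi
    obtain ⟨P, hP1, _⟩ := hx
    refine ⟨fun h1 => absurd h1 hdiv, fun h1 => absurd h1 hdiv, fun _ => ?_⟩
    refine (hi.union (Set.finite_lt_nat P)).subset fun p hp => ?_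
    by_cases h1 : P ≤ p
    · exact Or.inl ((hP1 p h1).2 hp)
    · exact Or.inr (by show p < P; omega)


variable {α κ C : ℝ} {g : ℕ → ℝ}

/-- the near pair condition -/
def Near1 (α : ℝ) (g : ℕ → ℝ) : Prop := ∀ b0 : ℝ, ∃ K : ℝ, 0 < K ∧ ∃ P : ℕ, ∀ p ≥ P, ∀ q : ℕ, p < q →
  q ≤ 2 * p → ∫ t in Set.Ioc b0 (b0 + 1), ff 1 (ysh α g p t) * ff 1 (ysh α g q t) ≤
    K * (1 / (p : ℝ)) ^ 2

lemma sys1_ysh (hα : 1 < α) (hκ0 : 0 ≤ κ) (hκ : κ < α) (hg : ∀ p, |g p| ≤ C * κ ^ p)
    (hnear : Near1 α g) (b0 : ℝ) :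
    Sys1 (volume.restrict (Set.Ioc b0 (b0 + 1))) (fun p t => ff 1 (ysh α g p t))
      (fun p t => Pool.Agent.H305R2.LL 1 (ysh α g p t))
      (fun _ => 1 / Real.log α) :=
  sys1_sh (Real.log_pos hα) (measurable_ysh α g)
    (fun a0 a1 _ => sh_of (by linarith) hκ0 hκ hg a0 a1)
    (fun b0 => trans_shift hα hκ0 hκ hg b0) hnear b0

/-- the integers `⌊β α ^ p + g p⌋` -/
theorem pt1_floor (hα : 1 < α) (hκ0 : 0 ≤ κ) (hκ : κ < α) (hg : ∀ p, |g p| ≤ C * κ ^ p)
    (hnear : Near1 α g) (S : Set ℕ) : ∀ᵐ β : ℝ, 0 < β →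
      Pt1 (fun p => ⌊β * α ^ p + g p⌋₊) (1 / Real.log α) S := by
  have hα0 : 0 < α := by linarith
  have h2 : ∀ᵐ t : ℝ, ∀ p m : ℕ, Real.exp t * α ^ p + g p ≠ m := by
    have hnull : volume (⋃ p : ℕ, ⋃ m : ℕ, {t : ℝ | Real.exp t * α ^ p + g p = m}) = 0 := by
      refine Set.Countable.measure_zero ?_ volume
      refine Set.countable_iUnion fun p => Set.countable_iUnion fun m => ?_
      refine Set.Subsingleton.countable ?_
      intro s hs t ht
      simp only [Set.mem_ofPred_eq] at hs ht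
      have h3 : Real.exp s * α ^ p = Real.exp t * α ^ p := by linarith
      exact Real.exp_injective (mul_right_cancel₀ (pow_pos hα0 p).ne' h3)
    have hae : ∀ᵐ t : ℝ, t ∉ ⋃ p : ℕ, ⋃ m : ℕ, {t : ℝ | Real.exp t * α ^ p + g p = m} := by
      rw [ae_iff]
      refine measure_mono_null (fun t ht => ?_) hnull
      simpa only [Set.mem_ofPred_eq, not_not] using ht
    filter_upwards [hae] with t ht p m hm
    refine ht ?_
    simp only [Set.mem_iUnion]
    exact ⟨p, m, hm⟩
  refine ae_of_exp' (P := fun β : ℝ => Pt1 (fun p => ⌊β * α ^ p + g p⌋₊)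
    (1 / Real.log α) S) (ae_windows fun b0 => ?_)
  refine (sys1_ysh hα hκ0 hκ hg hnear b0).pt (s := fun t p => ⌊Real.exp t * α ^ p + g p⌋₊) ?_ S
  filter_upwards [ae_restrict_of_ae h2] with t htn
  obtain ⟨P, hP⟩ := eventually_atTop.1 (pert8 hα0 hκ0 hκ hg t 8)
  refine ⟨P, fun p hp => ?_⟩
  have h3 : ff 1 (ysh α g p t) = if (roughPart 1 ⌊Real.exp t * α ^ p + g p⌋₊).Prime then 1 else 0 :=
    ff_eq_floor (exp_ysh hα0 (hP p hp) le_rfl).2.1 (fun m => htn p m)
  rw [h3]
  by_cases h4 : (⌊Real.exp t * α ^ p + g p⌋₊).Prime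
  · rw [if_pos h4, if_pos ((rp1_prime _).2 h4)]
  · rw [if_neg h4, if_neg fun h => h4 ((rp1_prime _).1 h)]

/-- **The law for genuine primality when a root of the base is a quadratic unit.** -/
theorem pt1_unit {ε ε' : ℝ} {P : ℤ} (hε : 1 < ε) (hs : ε + ε' = P) (hm : ε * ε' = -1) {k : ℕ}
    (hk : 1 ≤ k) (hαε : α = ε ^ k) (hκ0 : 0 ≤ κ) (hκ : κ < α) (hg : ∀ p, |g p| ≤ C * κ ^ p) (S : Set ℕ) :
    ∀ᵐ β : ℝ, 0 < β → Pt1 (fun p => ⌊β * α ^ p + g p⌋₊) (1 / Real.log α) S := by
  have hα : 1 < α := by rw [hαε]; exact one_lt_pow₀ hε (by omega)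
  have hnear : Near1 α g := fun b0 =>
    near1_irr hα hκ0 hκ hg le_rfl hα (fun h a b hh ha hb => by
      have h1 := Pool.Agent.H19P.dio_unit hε hs hm (k * h) a b (by nlinarith) ha hb
      rw [pow_mul, ← hαε] at h1
      simpa using h1) b0
  exact pt1_floor hα hκ0 hκ hg hnear S

end Pool.Agent.L5helper55.AL
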